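import Mathlib

namespace Pool.Agent.H53.S3

/-- The 3-sets satisfying `𝒯` can be partitioned into the sets of all 3-subsets of 5-sets. -/
def Dec (α : Type) (𝒯 : Finset α → Prop) : Prop :=
  ∃ 𝓑 : Set (Finset α), (∀ b ∈ 𝓑, b.card = 5) ∧
    (∀ b ∈ 𝓑, ∀ T : Finset α, T ⊆ b → T.card = 3 → 𝒯 T) ∧
    (∀ T : Finset α, T.card = 3 → 𝒯 T → ∃ b ∈ 𝓑, T ⊆ b) ∧
    (∀ T : Finset α, T.card = 3 → ∀ b ∈ 𝓑, ∀ b' ∈ 𝓑, T ⊆ b → T ⊆ b' → b = b')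

theorem Dec.congr {α : Type} {𝒯 𝒯' : Finset α → Prop} (h : Dec α 𝒯)
    (e : ∀ T : Finset α, T.card = 3 → (𝒯 T ↔ 𝒯' T)) : Dec α 𝒯' := by
  obtain ⟨𝓑, h1, h2, h3, h4⟩ := h
  refine ⟨𝓑, h1, ?_, ?_, h4⟩
  · intro b hb T hT hc
    exact (e T hc).1 (h2 b hb T hT hc)
  · intro T hc hT
    exact h3 T hc ((e T hc).2 hT)

theorem Dec.map {α β : Type} (f : α ↪ β) {𝒯 : Finset α → Prop} (h : Dec α 𝒯) :
    Dec β (fun T => ∃ S : Finset α, 𝒯 S ∧ S.map f = T) := by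
  obtain ⟨𝓑, h1, h2, h3, h4⟩ := h
  refine ⟨(fun b : Finset α => b.map f) '' 𝓑, ?_, ?_, ?_, ?_⟩
  · rintro _ ⟨b, hb, rfl⟩
    simp only [Finset.card_map]
    exact h1 b hb
  · rintro _ ⟨b, hb, rfl⟩ T hT hc
    obtain ⟨u, hu, rfl⟩ := Finset.subset_map_iff.1 hT
    rw [Finset.card_map] at hc
    exact ⟨u, h2 b hb u hu hc, rfl⟩
  · rintro _ hc ⟨S, hS, rfl⟩
    rw [Finset.card_map] at hc
    obtain ⟨b, hb, hSb⟩ := h3 S hc hS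
    exact ⟨b.map f, ⟨b, hb, rfl⟩, Finset.map_subset_map.2 hSb⟩
  · rintro T hc _ ⟨b, hb, rfl⟩ _ ⟨b', hb', rfl⟩ h h'
    obtain ⟨u, hu, rfl⟩ := Finset.subset_map_iff.1 h
    obtain ⟨u', hu', e⟩ := Finset.subset_map_iff.1 h'
    rw [Finset.card_map] at hc
    have : u = u' := Finset.map_injective f e
    subst this
    rw [h4 u hc b hb b' hb' hu hu']

theorem Dec.union {α ι : Type} {𝒯 : ι → Finset α → Prop} (h : ∀ i, Dec α (𝒯 i))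
    (hd : ∀ T : Finset α, T.card = 3 → ∀ i j, 𝒯 i T → 𝒯 j T → i = j) :
    Dec α (fun T => ∃ i, 𝒯 i T) := by
  choose 𝓑 h1 h2 h3 h4 using h
  refine ⟨⋃ i, 𝓑 i, ?_, ?_, ?_, ?_⟩
  · intro b hb
    obtain ⟨i, hi⟩ := Set.mem_iUnion.1 hb
    exact h1 i b hi
  · intro b hb T hT hc
    obtain ⟨i, hi⟩ := Set.mem_iUnion.1 hb
    exact ⟨i, h2 i b hi T hT hc⟩
  · rintro T hc ⟨i, hi⟩
    obtain ⟨b, hb, hT⟩ := h3 i T hc hi
    exact ⟨b, Set.mem_iUnion.2 ⟨i, hb⟩, hT⟩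
  · intro T hc b hb b' hb' hT hT'
    obtain ⟨i, hi⟩ := Set.mem_iUnion.1 hb
    obtain ⟨j, hj⟩ := Set.mem_iUnion.1 hb'
    have hij : i = j := hd T hc i j (h2 i b hi T hT hc) (h2 j b' hj T hT' hc)
    subst hij
    exact h4 i T hc b hi b' hj hT hT'

theorem Dec.equiv {α β : Type} (e : α ≃ β) (h : Dec α (fun _ => True)) :
    Dec β (fun _ => True) := by
  refine (h.map e.toEmbedding).congr ?_
  intro T hT
  simp only [true_and, iff_true]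
  exact ⟨T.map e.symm.toEmbedding, by
    ext x
    simp⟩

end Pool.Agent.H53.S3
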