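import Mathlib
import Pool.Agent.H53.S3.Decomp

namespace Pool.Agent.H53.S3

/-- bit mask of a list of natural numbers -/
def mask : List ℕ → ℕ
  | [] => 0
  | a :: l => 2 ^ a ||| mask l

theorem testBit_mask (l : List ℕ) (k : ℕ) : (mask l).testBit k = true ↔ k ∈ l := by
  induction l with
  | nil => simp [mask]
  | cons a l ih =>
    rw [mask, Nat.testBit_or, Bool.or_eq_true, ih, Nat.testBit_two_pow, List.mem_cons]
    simp [eq_comm]

theorem land_mask (m : ℕ) (l : List ℕ) :
    m &&& mask l = mask l ↔ ∀ k ∈ l, m.testBit k = true := by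
  constructor
  · intro h k hk
    have := (testBit_mask l k).2 hk
    rw [← h, Nat.testBit_and, Bool.and_eq_true] at this
    exact this.1
  · intro h
    apply Nat.eq_of_testBit_eq
    intro k
    rw [Nat.testBit_and]
    by_cases hk : k ∈ l
    · rw [h k hk]; simp
    · have : (mask l).testBit k = false := by
        by_contra hh
        rw [Bool.not_eq_false] at hh
        exact hk ((testBit_mask l k).1 hh)
      rw [this]; simp

/-- every triple of codes is in exactly one or no block, as prescribed by `t` -/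
def triplesOK (n : ℕ) (Bl : List (List ℕ)) (t : ℕ → ℕ → ℕ → Bool) : Bool :=
  (List.range n).all fun a => (List.range a).all fun b => (List.range b).all fun c =>
    (Bl.countP fun l => Nat.beq (Nat.land (mask l) (mask [a, b, c])) (mask [a, b, c])) ==
      (if t a b c then 1 else 0)

def shapeOK (n : ℕ) (Bl : List (List ℕ)) : Bool :=
  Bl.all fun l => l.length == 5 && decide l.Nodup && l.all fun x => decide (x < n)

theorem exists_sorted {α : Type} [DecidableEq α] (n : ℕ) (enc : α → ℕ) (dec : ℕ → α)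
    (h1 : ∀ x, dec (enc x) = x) (h2 : ∀ x, enc x < n) (T : Finset α) (hT : T.card = 3) :
    ∃ a b c, a < n ∧ b < a ∧ c < b ∧ T = {dec a, dec b, dec c} := by
  obtain ⟨x, y, z, hxy, hxz, hyz, rfl⟩ := Finset.card_eq_three.1 hT
  have inj : ∀ u v, enc u = enc v → u = v := by
    intro u v h
    rw [← h1 u, h, h1 v]
  have exy : enc x ≠ enc y := fun h => hxy (inj _ _ h)
  have exz : enc x ≠ enc z := fun h => hxz (inj _ _ h)
  have eyz : enc y ≠ enc z := fun h => hyz (inj _ _ h)
  rcases lt_or_gt_of_ne exy with hxy' | hxy' <;> rcases lt_or_gt_of_ne exz with hxz' | hxz' <;>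
    rcases lt_or_gt_of_ne eyz with hyz' | hyz'
  · exact ⟨enc z, enc y, enc x, h2 z, hyz', hxy', by ext u; simp [h1]; tauto⟩
  · exact ⟨enc y, enc z, enc x, h2 y, hyz', hxz', by ext u; simp [h1]; tauto⟩
  · exfalso; omega
  · exact ⟨enc y, enc x, enc z, h2 y, hxy', hxz', by ext u; simp [h1]; tauto⟩
  · exact ⟨enc z, enc x, enc y, h2 z, hxz', hxy', by ext u; simp [h1]; tauto⟩
  · exfalso; omega
  · exact ⟨enc x, enc z, enc y, h2 x, hxz', hyz', by ext u; simp [h1]; tauto⟩
  · exact ⟨enc x, enc y, enc z, h2 x, hxy', hyz', by ext u; simp [h1]⟩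

theorem dec_of_check {α : Type} [DecidableEq α] (𝒯 : Finset α → Prop) [DecidablePred 𝒯] (n : ℕ)
    (enc : α → ℕ) (dec : ℕ → α)
    (h1 : ∀ x, dec (enc x) = x) (h2 : ∀ x, enc x < n) (h3 : ∀ k < n, enc (dec k) = k)
    (Bl : List (List ℕ)) (hs : shapeOK n Bl = true)
    (hc : triplesOK n Bl (fun a b c => decide (𝒯 {dec a, dec b, dec c})) = true) : Dec α 𝒯 := by
  simp only [shapeOK, List.all_eq_true, Bool.and_eq_true, decide_eq_true_eq, beq_iff_eq] at hs
  simp only [triplesOK, List.all_eq_true, List.mem_range, beq_iff_eq] at hc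
  have inj : ∀ k < n, ∀ k' < n, dec k = dec k' → k = k' := by
    intro k hk k' hk' h
    rw [← h3 k hk, h, h3 k' hk']
  have memdec : ∀ l ∈ Bl, ∀ k < n, (dec k ∈ (l.map dec).toFinset ↔ k ∈ l) := by
    intro l hl k hk
    rw [List.mem_toFinset, List.mem_map]
    constructor
    · rintro ⟨k', hk', e⟩
      have := inj _ ((hs l hl).2 k' hk') _ hk e
      rwa [← this]
    · intro h
      exact ⟨k, h, rfl⟩
  have sub : ∀ l ∈ Bl, ∀ a b c, a < n → b < a → c < b →
      (({dec a, dec b, dec c} : Finset α) ⊆ (l.map dec).toFinset ↔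
        Nat.beq (Nat.land (mask l) (mask [a, b, c])) (mask [a, b, c]) = true) := by
    intro l hl a b c ha hb hc'
    rw [Nat.beq_eq]
    have := land_mask (mask l) [a, b, c]
    rw [show (Nat.land (mask l) (mask [a, b, c]) = mask [a, b, c]) ↔ _ from this]
    simp only [List.mem_cons, List.not_mem_nil, or_false, forall_eq_or_imp, forall_eq,
      testBit_mask]
    rw [Finset.insert_subset_iff, Finset.insert_subset_iff, Finset.singleton_subset_iff,
      memdec l hl a ha, memdec l hl b (by omega), memdec l hl c (by omega)]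
  refine ⟨{S | ∃ l ∈ Bl, S = (l.map dec).toFinset}, ?_, ?_, ?_, ?_⟩
  · rintro _ ⟨l, hl, rfl⟩
    obtain ⟨⟨hlen, hnd⟩, hlt⟩ := hs l hl
    rw [List.toFinset_card_of_nodup, List.length_map, hlen]
    apply List.Nodup.map_on _ hnd
    intro x hx y hy h
    exact inj x (hlt x hx) y (hlt y hy) h
  · rintro _ ⟨l, hl, rfl⟩ T hT hT3
    obtain ⟨a, b, c, ha, hb, hc', rfl⟩ := exists_sorted n enc dec h1 h2 T hT3
    have hh := hc a ha b hb c hc'
    by_contra hn
    simp only [hn, decide_false, Bool.false_eq_true, if_false] at hh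
    rw [List.countP_eq_zero] at hh
    exact hh l hl ((sub l hl a b c ha hb hc').1 hT)
  · intro T hT3 hT
    obtain ⟨a, b, c, ha, hb, hc', rfl⟩ := exists_sorted n enc dec h1 h2 T hT3
    have hh := hc a ha b hb c hc'
    simp only [hT, decide_true, if_true] at hh
    have : 0 < Bl.countP fun l => Nat.beq (Nat.land (mask l) (mask [a, b, c])) (mask [a, b, c]) := by
      omega
    rw [List.countP_pos_iff] at this
    obtain ⟨l, hl, hl2⟩ := this
    exact ⟨_, ⟨l, hl, rfl⟩, (sub l hl a b c ha hb hc').2 hl2⟩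
  · rintro T hT3 _ ⟨l, hl, rfl⟩ _ ⟨l', hl', rfl⟩ hT hT'
    obtain ⟨a, b, c, ha, hb, hc', rfl⟩ := exists_sorted n enc dec h1 h2 T hT3
    have hh := hc a ha b hb c hc'
    have e1 := (sub l hl a b c ha hb hc').1 hT
    have e2 := (sub l' hl' a b c ha hb hc').1 hT'
    have hle : (Bl.countP fun l => Nat.beq (Nat.land (mask l) (mask [a, b, c])) (mask [a, b, c])) ≤ 1 := by
      rw [hh]; split_ifs <;> omega
    rw [List.countP_eq_length_filter] at hle
    have m1 : l ∈ Bl.filter fun l => Nat.beq (Nat.land (mask l) (mask [a, b, c])) (mask [a, b, c]) :=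
      List.mem_filter.2 ⟨hl, e1⟩
    have m2 : l' ∈ Bl.filter fun l => Nat.beq (Nat.land (mask l) (mask [a, b, c])) (mask [a, b, c]) :=
      List.mem_filter.2 ⟨hl', e2⟩
    generalize (Bl.filter fun l => Nat.beq (Nat.land (mask l) (mask [a, b, c])) (mask [a, b, c])) = X
      at hle m1 m2
    rcases X with _ | ⟨x, X⟩
    · simp at m1
    · rcases X with _ | ⟨y, X⟩
      · simp only [List.mem_singleton] at m1 m2
        rw [m1, m2]
      · simp at hle

end Pool.Agent.H53.S3
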