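import Mathlib
import Pool.Agent.H53.S3.Mask

namespace Pool.Agent.H53.S3

set_option linter.unusedSectionVars false

structure Coding (K : Type) [Field K] (q : ℕ) where
  enc : K → ℕ
  dec : ℕ → K
  add : ℕ → ℕ → ℕ
  mul : ℕ → ℕ → ℕ
  dec_enc : ∀ x, dec (enc x) = x
  enc_lt : ∀ x, enc x < q
  enc_dec : ∀ k < q, enc (dec k) = k
  add_spec : ∀ x y, enc (x + y) = add (enc x) (enc y)
  mul_spec : ∀ x y, enc (x * y) = mul (enc x) (enc y)
  enc_zero : enc 0 = 0

section raw
variable (q c : ℕ) (add mul : ℕ → ℕ → ℕ) (inv neg : ℕ → ℕ) (h : ℕ → Bool)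

def solM (j P Q : ℕ) : ℕ := mul j (inv (add (Q % q) (neg (P % q))))

def solA (j P Q : ℕ) : ℕ := neg (mul (solM q add mul inv neg j P Q) (P % q))

def img (m a s n : ℕ) : ℕ := add (mul m (n % q)) a + q * ((n / q + s) % c)

def verif (base : List (List ℕ)) (j : ℕ) : Bool :=
  base.all fun l => l.all fun P => l.all fun Q =>
    !(Nat.beq (P / q) (Q / q)) || (Nat.beq P Q) ||
      (Nat.beq (add (mul (solM q add mul inv neg j P Q) (P % q)) (solA q add mul inv neg j P Q)) 0 &&
       Nat.beq (add (mul (solM q add mul inv neg j P Q) (Q % q)) (solA q add mul inv neg j P Q)) j &&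
       Nat.ble (solM q add mul inv neg j P Q + 1) q &&
       Nat.ble (solA q add mul inv neg j P Q + 1) q)

def gens (base : List (List ℕ)) (j : ℕ) : List ℕ :=
  base.flatMap fun l => l.flatMap fun P => l.flatMap fun Q =>
    if (Nat.beq (P / q) (Q / q) && !(Nat.beq P Q) && h (solM q add mul inv neg j P Q)) then
      [mask (l.map (img q c add mul (solM q add mul inv neg j P Q)
        (solA q add mul inv neg j P Q) ((c - P / q) % c)))]
    else []

def pairOK (j : ℕ) (M : List ℕ) : Bool :=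
  M.all fun u => M.all fun w => Nat.beq u w || Nat.beq (Nat.land u w) (mask [0, j])

def jOK (J : List ℕ) : Bool :=
  (List.range q).all fun d => Nat.beq d 0 ||
    J.any fun j => Nat.beq (mul (mul j (inv d)) d) j && h (mul j (inv d)) &&
      Nat.ble (mul j (inv d) + 1) q

def baseOK (base : List (List ℕ)) : Bool :=
  base.all fun l => l.length == 5 && decide l.Nodup && l.all fun x => decide (x < q * c)

end raw

section
variable {K : Type} [Field K] {q : ℕ} (C : Coding K q) {c : ℕ} [NeZero c]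

def act (u : Kˣ) (a : K) (s : Fin c) : K × Fin c → K × Fin c := fun x => (u * x.1 + a, x.2 + s)

theorem act_inj (u : Kˣ) (a : K) (s : Fin c) : Function.Injective (act u a s) := by
  rintro ⟨x, i⟩ ⟨y, k⟩ h
  simp only [act, Prod.mk.injEq, add_left_inj, Units.mul_right_inj] at h
  rw [h.1, h.2]

theorem act_act (u u' : Kˣ) (a a' : K) (s s' : Fin c) (x : K × Fin c) :
    act u a s (act u' a' s' x) = act (u * u') (u * a' + a) (s' + s) x := by
  simp only [act, Units.val_mul, Prod.mk.injEq]
  constructor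
  · ring
  · rw [add_assoc]

def encX (x : K × Fin c) : ℕ := C.enc x.1 + q * x.2.val

def decX (n : ℕ) : K × Fin c := (C.dec (n % q), ⟨(n / q) % c, Nat.mod_lt _ (NeZero.pos c)⟩)

include C in
theorem qpos : 0 < q := lt_of_le_of_lt (Nat.zero_le _) (C.enc_lt 0)

theorem encX_mod (x : K × Fin c) : encX C x % q = C.enc x.1 := by
  rw [encX, Nat.add_mul_mod_self_left, Nat.mod_eq_of_lt (C.enc_lt _)]

theorem encX_div (x : K × Fin c) : encX C x / q = x.2.val := by
  rw [encX, Nat.add_mul_div_left _ _ (qpos C), Nat.div_eq_of_lt (C.enc_lt _), Nat.zero_add]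

theorem decX_encX (x : K × Fin c) : decX C (encX C x) = x := by
  rw [decX]
  apply Prod.ext
  · simp only [encX_mod, C.dec_enc]
  · apply Fin.ext
    simp only [encX_div]
    exact Nat.mod_eq_of_lt x.2.2

theorem encX_inj : Function.Injective (encX C (c := c)) := by
  intro x y h
  rw [← decX_encX C x, h, decX_encX]

theorem encX_lt (x : K × Fin c) : encX C x < q * c := by
  rw [encX]
  have h1 := C.enc_lt x.1
  have h2 := x.2.2
  calc C.enc x.1 + q * x.2.val < q + q * x.2.val := by omega
    _ = q * (x.2.val + 1) := by ring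
    _ ≤ q * c := Nat.mul_le_mul_left _ h2

theorem encX_decX (n : ℕ) (hn : n < q * c) : encX C (decX C n : K × Fin c) = n := by
  rw [encX, decX]
  simp only
  rw [C.enc_dec _ (Nat.mod_lt _ (qpos C)),
    Nat.mod_eq_of_lt (Nat.div_lt_of_lt_mul hn)]
  exact Nat.mod_add_div n q

theorem encX_act (u : Kˣ) (a : K) (s : Fin c) (n : ℕ) (hn : n < q * c) :
    encX C (act u a s (decX C n)) = img q c C.add C.mul (C.enc u) (C.enc a) s.val n := by
  rw [encX, act, img, decX]
  simp only [C.add_spec, C.mul_spec]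
  rw [C.enc_dec _ (Nat.mod_lt _ (qpos C)), Fin.val_add]
  simp only
  rw [Nat.mod_eq_of_lt (Nat.div_lt_of_lt_mul hn : n / q < c)]

/-- all images of the base blocks -/
def blocks (H : Subgroup Kˣ) (base : List (List ℕ)) : Set (Finset (K × Fin c)) :=
  {S | ∃ l ∈ base, ∃ u ∈ H, ∃ (a : K) (s : Fin c), ∀ x, x ∈ S ↔ ∃ n ∈ l, act u a s (decX C n) = x}

variable [DecidableEq K]

theorem blocks_map (H : Subgroup Kˣ) (base : List (List ℕ)) (S : Finset (K × Fin c))
    (hS : S ∈ blocks C H base) (u : Kˣ) (hu : u ∈ H) (a : K) (s : Fin c) :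
    S.image (act u a s) ∈ blocks C H base := by
  obtain ⟨l, hl, u', hu', a', s', h⟩ := hS
  refine ⟨l, hl, u * u', H.mul_mem hu hu', u * a' + a, s' + s, ?_⟩
  intro x
  rw [Finset.mem_image]
  constructor
  · rintro ⟨y, hy, rfl⟩
    obtain ⟨n, hn, rfl⟩ := (h y).1 hy
    exact ⟨n, hn, (act_act _ _ _ _ _ _ _).symm⟩
  · rintro ⟨n, hn, rfl⟩
    exact ⟨_, (h _).2 ⟨n, hn, rfl⟩, act_act _ _ _ _ _ _ _⟩

theorem act_inv (u : Kˣ) (a : K) (s : Fin c) (x : K × Fin c) :
    act u⁻¹ (-(u⁻¹ * a)) (-s) (act u a s x) = x := by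
  rw [act_act]
  apply Prod.ext
  · simp [act]
  · simp [act]

omit [NeZero c] in
theorem shift_eq (n s c : ℕ) (hn : n < c) (hs : s < c) (h : (n + s) % c = 0) :
    s = (c - n) % c := by
  obtain ⟨t, ht⟩ := Nat.dvd_of_mod_eq_zero h
  have ht2 : t < 2 := by
    by_contra hcon
    push Not at hcon
    have : c * 2 ≤ c * t := Nat.mul_le_mul_left _ hcon
    omega
  interval_cases t
  · have e1 : n = 0 := by omega
    have e2 : s = 0 := by omega
    rw [e1, e2]
    simp
  · by_cases hP0 : n = 0
    · omega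
    · rw [Nat.mod_eq_of_lt (by omega)]
      omega

theorem key1 (H : Subgroup Kˣ) (h : ℕ → Bool) (inv neg : ℕ → ℕ)
    (hh : ∀ u : Kˣ, h (C.enc u) = true ↔ u ∈ H)
    (base : List (List ℕ)) (hb : baseOK q c base = true) (j : ℕ) (hj : j < q) (hj0 : j ≠ 0)
    (hv : verif q C.add C.mul inv neg base j = true) (S : Finset (K × Fin c))
    (hS : S ∈ blocks C H base) (h0 : (0, 0) ∈ S) (h1 : (C.dec j, 0) ∈ S) :
    ∃ μ ∈ gens q c C.add C.mul inv neg h base j, ∀ x, x ∈ S ↔ μ.testBit (encX C x) = true := by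
  obtain ⟨l, hl, u, hu, a, s, hS⟩ := hS
  obtain ⟨P, hP, eP⟩ := (hS _).1 h0
  obtain ⟨Q, hQ, eQ⟩ := (hS _).1 h1
  simp only [baseOK, List.all_eq_true, Bool.and_eq_true, decide_eq_true_eq, beq_iff_eq] at hb
  have hlt := (hb l hl).2
  have hPq := Nat.div_lt_of_lt_mul (hlt P hP)
  have hQq := Nat.div_lt_of_lt_mul (hlt Q hQ)
  have hdj : C.dec j ≠ 0 := by
    intro hh0
    apply hj0
    rw [← C.enc_dec j hj, hh0, C.enc_zero]
  simp only [act, decX, Prod.mk.injEq] at eP eQ
  obtain ⟨eP1, eP2⟩ := eP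
  obtain ⟨eQ1, eQ2⟩ := eQ
  have hPQdiv : P / q = Q / q := by
    have := eP2.trans eQ2.symm
    have := add_right_cancel this
    simp only [Fin.mk.injEq] at this
    rwa [Nat.mod_eq_of_lt hPq, Nat.mod_eq_of_lt hQq] at this
  have hPQ : P ≠ Q := by
    rintro rfl
    exact hdj (eQ1.symm.trans eP1)
  have hver := hv
  simp only [verif, List.all_eq_true] at hver
  have hv1 := hver l hl P hP Q hQ
  have b1 : Nat.beq (P / q) (Q / q) = true := by rw [Nat.beq_eq]; exact hPQdiv
  have b2 : Nat.beq P Q = false := by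
    rw [← Bool.not_eq_true, Nat.beq_eq]; exact hPQ
  rw [b1, b2] at hv1
  simp only [Bool.not_true, Bool.false_or, Bool.and_eq_true, Nat.beq_eq, Nat.ble_eq] at hv1
  obtain ⟨⟨⟨v1, v2⟩, v3⟩, v4⟩ := hv1
  set m := solM q C.add C.mul inv neg j P Q with hm
  set a0 := solA q C.add C.mul inv neg j P Q with ha0
  have f1 : C.dec m * C.dec (P % q) + C.dec a0 = 0 := by
    rw [← C.dec_enc (C.dec m * C.dec (P % q) + C.dec a0), C.add_spec, C.mul_spec,
      C.enc_dec m (by omega), C.enc_dec _ (Nat.mod_lt _ (qpos C)), C.enc_dec a0 (by omega), v1,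
      ← C.enc_zero, C.dec_enc]
  have f2 : C.dec m * C.dec (Q % q) + C.dec a0 = C.dec j := by
    rw [← C.dec_enc (C.dec m * C.dec (Q % q) + C.dec a0), C.add_spec, C.mul_spec,
      C.enc_dec m (by omega), C.enc_dec _ (Nat.mod_lt _ (qpos C)), C.enc_dec a0 (by omega), v2]
  have hne : C.dec (Q % q) - C.dec (P % q) ≠ 0 := by
    intro h0
    apply hdj
    have : C.dec j = C.dec m * (C.dec (Q % q) - C.dec (P % q)) := by
      linear_combination f1 - f2
    rw [this, h0, mul_zero]
  have hmu : C.dec m = u := by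
    have : (C.dec m - u) * (C.dec (Q % q) - C.dec (P % q)) = 0 := by
      linear_combination f2 - f1 - eQ1 + eP1
    rcases mul_eq_zero.1 this with h' | h'
    · exact sub_eq_zero.1 h'
    · exact absurd h' hne
  have hau : C.dec a0 = a := by
    rw [hmu] at f1
    linear_combination f1 - eP1
  have hmh : h m = true := by
    have : m = C.enc u := by rw [← hmu, C.enc_dec m (by omega)]
    rw [this, hh]
    exact hu
  have hs : s.val = (c - P / q) % c := by
    have hv' : (P / q % c + s.val) % c = 0 := by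
      have := congrArg Fin.val eP2
      rw [Fin.val_add] at this
      simpa using this
    rw [Nat.mod_eq_of_lt hPq] at hv'
    exact shift_eq (P / q) s.val c hPq s.2 hv'
  refine ⟨mask (l.map (img q c C.add C.mul m a0 ((c - P / q) % c))), ?_, ?_⟩
  · rw [gens, List.mem_flatMap]
    refine ⟨l, hl, ?_⟩
    rw [List.mem_flatMap]
    refine ⟨P, hP, ?_⟩
    rw [List.mem_flatMap]
    refine ⟨Q, hQ, ?_⟩
    rw [b1, b2, ← hm, hmh]
    simp [← ha0]
  · intro x
    rw [testBit_mask, List.mem_map, hS]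
    have hmu2 : m = C.enc u := by rw [← hmu, C.enc_dec m (by omega)]
    have hau2 : a0 = C.enc a := by rw [← hau, C.enc_dec a0 (by omega)]
    constructor
    · rintro ⟨n, hn, rfl⟩
      refine ⟨n, hn, ?_⟩
      rw [encX_act C u a s n (hlt n hn), ← hmu2, ← hau2, hs]
    · rintro ⟨n, hn, e⟩
      refine ⟨n, hn, ?_⟩
      apply encX_inj C
      rw [encX_act C u a s n (hlt n hn), ← hmu2, ← hau2, hs]
      exact e

theorem key2 (H : Subgroup Kˣ) (h : ℕ → Bool) (inv neg : ℕ → ℕ)
    (hh : ∀ u : Kˣ, h (C.enc u) = true ↔ u ∈ H) (h0 : h 0 = false)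
    (base : List (List ℕ)) (hb : baseOK q c base = true) (j : ℕ)
    (hv : verif q C.add C.mul inv neg base j = true) (μ : ℕ)
    (hμ : μ ∈ gens q c C.add C.mul inv neg h base j) :
    ∃ S ∈ (blocks C H base : Set (Finset (K × Fin c))), (0, 0) ∈ S ∧ (C.dec j, 0) ∈ S ∧
      ∀ x, x ∈ S ↔ μ.testBit (encX C x) = true := by
  simp only [baseOK, List.all_eq_true, Bool.and_eq_true, decide_eq_true_eq, beq_iff_eq] at hb
  rw [gens, List.mem_flatMap] at hμ
  obtain ⟨l, hl, hμ⟩ := hμ
  rw [List.mem_flatMap] at hμ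
  obtain ⟨P, hP, hμ⟩ := hμ
  rw [List.mem_flatMap] at hμ
  obtain ⟨Q, hQ, hμ⟩ := hμ
  have hlt := (hb l hl).2
  have hPq := Nat.div_lt_of_lt_mul (hlt P hP)
  have hQq := Nat.div_lt_of_lt_mul (hlt Q hQ)
  simp only [verif, List.all_eq_true] at hv
  have hv1 := hv l hl P hP Q hQ
  set m := solM q C.add C.mul inv neg j P Q with hm
  set a0 := solA q C.add C.mul inv neg j P Q with ha0
  split_ifs at hμ with hcond
  · simp only [List.mem_singleton] at hμ
    simp only [Bool.and_eq_true] at hcond
    obtain ⟨⟨b1, b2⟩, hmh⟩ := hcond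
    have b2' : Nat.beq P Q = false := by simpa using b2
    rw [b1, b2'] at hv1
    simp only [Bool.not_true, Bool.false_or, Bool.and_eq_true, Nat.beq_eq, Nat.ble_eq] at hv1
    obtain ⟨⟨⟨v1, v2⟩, v3⟩, v4⟩ := hv1
    have hPQdiv : P / q = Q / q := Nat.beq_eq.symm ▸ b1
    have f1 : C.dec m * C.dec (P % q) + C.dec a0 = 0 := by
      rw [← C.dec_enc (C.dec m * C.dec (P % q) + C.dec a0), C.add_spec, C.mul_spec,
        C.enc_dec m (by omega), C.enc_dec _ (Nat.mod_lt _ (qpos C)), C.enc_dec a0 (by omega), v1,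
        ← C.enc_zero, C.dec_enc]
    have f2 : C.dec m * C.dec (Q % q) + C.dec a0 = C.dec j := by
      rw [← C.dec_enc (C.dec m * C.dec (Q % q) + C.dec a0), C.add_spec, C.mul_spec,
        C.enc_dec m (by omega), C.enc_dec _ (Nat.mod_lt _ (qpos C)), C.enc_dec a0 (by omega), v2]
    have hm0 : C.dec m ≠ 0 := by
      intro h'
      have : m = 0 := by rw [← C.enc_dec m (by omega), h', C.enc_zero]
      rw [this, h0] at hmh
      cases hmh
    have hu : Units.mk0 (C.dec m) hm0 ∈ H := by
      rw [← hh]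
      simp only [Units.val_mk0]
      rw [C.enc_dec m (by omega)]
      exact hmh
    have hs : ((c - P / q) % c) < c := Nat.mod_lt _ (NeZero.pos c)
    have hz : ∀ n : ℕ, n / q = P / q → ((⟨n / q % c, Nat.mod_lt _ (NeZero.pos c)⟩ : Fin c) +
        ⟨(c - P / q) % c, hs⟩) = 0 := by
      intro n hn
      apply Fin.ext
      rw [Fin.val_add]
      simp only [Fin.val_zero, hn]
      rw [Nat.mod_eq_of_lt hPq, Nat.add_mod_mod, Nat.add_sub_cancel' hPq.le, Nat.mod_self]
    have mem : ∀ x, x ∈ (l.map (fun n => act (Units.mk0 (C.dec m) hm0) (C.dec a0)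
        (⟨(c - P / q) % c, hs⟩ : Fin c) (decX C n))).toFinset ↔
        ∃ n ∈ l, act (Units.mk0 (C.dec m) hm0) (C.dec a0)
          (⟨(c - P / q) % c, hs⟩ : Fin c) (decX C n) = x := by
      intro x
      rw [List.mem_toFinset, List.mem_map]
    refine ⟨(l.map (fun n => act (Units.mk0 (C.dec m) hm0) (C.dec a0)
        (⟨(c - P / q) % c, hs⟩ : Fin c) (decX C n))).toFinset,
        ⟨l, hl, _, hu, _, _, mem⟩, ?_, ?_, ?_⟩
    · rw [mem]
      refine ⟨P, hP, ?_⟩
      apply Prod.ext
      · simp only [act, decX, Units.val_mk0]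
        exact f1
      · simp only [act, decX]
        exact hz P rfl
    · rw [mem]
      refine ⟨Q, hQ, ?_⟩
      apply Prod.ext
      · simp only [act, decX, Units.val_mk0]
        exact f2
      · simp only [act, decX]
        exact hz Q hPQdiv.symm
    · intro x
      rw [mem, hμ, testBit_mask, List.mem_map]
      constructor
      · rintro ⟨n, hn, rfl⟩
        refine ⟨n, hn, ?_⟩
        rw [encX_act C _ _ _ n (hlt n hn)]
        simp only [Units.val_mk0]
        rw [C.enc_dec m (by omega), C.enc_dec a0 (by omega)]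
      · rintro ⟨n, hn, e⟩
        refine ⟨n, hn, ?_⟩
        apply encX_inj C
        rw [encX_act C _ _ _ n (hlt n hn)]
        simp only [Units.val_mk0]
        rw [C.enc_dec m (by omega), C.enc_dec a0 (by omega)]
        exact e
  · simp at hμ

theorem cert (hc2 : c ≤ 2) (H : Subgroup Kˣ) (h : ℕ → Bool) (inv neg : ℕ → ℕ)
    (hh : ∀ u : Kˣ, h (C.enc u) = true ↔ u ∈ H) (h0 : h 0 = false)
    (base : List (List ℕ)) (J : List ℕ) (hb : baseOK q c base = true)
    (hJ : jOK q C.mul inv h J = true)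
    (hJ0 : ∀ j ∈ J, j < q ∧ j ≠ 0)
    (hv : ∀ j ∈ J, verif q C.add C.mul inv neg base j = true)
    (hp : ∀ j ∈ J, ∃ M : List ℕ, (∀ μ ∈ gens q c C.add C.mul inv neg h base j, μ ∈ M) ∧
      pairOK j M = true)
    (hu : ∀ j ∈ J, ∀ n < q * c, ∃ μ ∈ gens q c C.add C.mul inv neg h base j,
      μ.testBit n = true) : Dec (K × Fin c) (fun _ => True) := by
  have hb' := hb
  simp only [baseOK, List.all_eq_true, Bool.and_eq_true, decide_eq_true_eq, beq_iff_eq] at hb'
  have hpig : ∀ T : Finset (K × Fin c), T.card = 3 → ∃ P ∈ T, ∃ Q ∈ T, P ≠ Q ∧ P.2 = Q.2 := by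
    intro T hT
    obtain ⟨x, y, z, hxy, hxz, hyz, rfl⟩ := Finset.card_eq_three.1 hT
    have hx := x.2.2
    have hy := y.2.2
    have hz := z.2.2
    by_cases e1 : x.2 = y.2
    · exact ⟨x, by simp, y, by simp, hxy, e1⟩
    · by_cases e2 : x.2 = z.2
      · exact ⟨x, by simp, z, by simp, hxz, e2⟩
      · refine ⟨y, by simp, z, by simp, hyz, ?_⟩
        have e1' : x.2.val ≠ y.2.val := fun h => e1 (Fin.ext h)
        have e2' : x.2.val ≠ z.2.val := fun h => e2 (Fin.ext h)
        apply Fin.ext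
        omega
  have hnorm : ∀ T : Finset (K × Fin c), T.card = 3 → ∃ j ∈ J, ∃ u ∈ H, ∃ (a : K) (s : Fin c),
      (0, 0) ∈ T.image (act u a s) ∧ (C.dec j, 0) ∈ T.image (act u a s) := by
    intro T hT
    obtain ⟨P, hP, Q, hQ, hPQ, hPQ2⟩ := hpig T hT
    have hd : Q.1 - P.1 ≠ 0 := by
      intro h'
      apply hPQ
      exact Prod.ext (sub_eq_zero.1 h').symm hPQ2
    simp only [jOK, List.all_eq_true, List.mem_range, Bool.or_eq_true, List.any_eq_true,
      Bool.and_eq_true, Nat.beq_eq, Nat.ble_eq] at hJ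
    rcases hJ (C.enc (Q.1 - P.1)) (C.enc_lt _) with h1 | ⟨j, hj, ⟨⟨h1, h2⟩, h3⟩⟩
    · exfalso
      apply hd
      rw [← C.dec_enc (Q.1 - P.1), h1, ← C.enc_zero, C.dec_enc]
    · have hmne : C.dec (C.mul j (inv (C.enc (Q.1 - P.1)))) ≠ 0 := by
        intro h'
        have : C.mul j (inv (C.enc (Q.1 - P.1))) = 0 := by
          rw [← C.enc_dec (C.mul j (inv (C.enc (Q.1 - P.1)))) (by omega), h', C.enc_zero]
        rw [this, h0] at h2
        cases h2
      have hmul : C.dec (C.mul j (inv (C.enc (Q.1 - P.1)))) * (Q.1 - P.1) = C.dec j := by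
        rw [← C.dec_enc (C.dec (C.mul j (inv (C.enc (Q.1 - P.1)))) * (Q.1 - P.1)), C.mul_spec,
          C.enc_dec _ (by omega), h1]
      refine ⟨j, hj, Units.mk0 _ hmne, ?_, -(C.dec (C.mul j (inv (C.enc (Q.1 - P.1)))) * P.1),
        -P.2, ?_, ?_⟩
      · rw [← hh]
        simp only [Units.val_mk0]
        rw [C.enc_dec _ (by omega)]
        exact h2
      · rw [Finset.mem_image]
        refine ⟨P, hP, ?_⟩
        apply Prod.ext
        · simp [act]
        · simp [act]
      · rw [Finset.mem_image]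
        refine ⟨Q, hQ, ?_⟩
        apply Prod.ext
        · simp only [act, Units.val_mk0]
          linear_combination hmul
        · simp [act, hPQ2]
  refine ⟨blocks C H base, ?_, ?_, ?_, ?_⟩
  · rintro S ⟨l, hl, u, hu, a, s, hS⟩
    obtain ⟨⟨hlen, hnd⟩, hlt⟩ := hb' l hl
    have : S = (l.map (fun n => act u a s (decX C n))).toFinset := by
      ext x
      rw [hS, List.mem_toFinset, List.mem_map]
    rw [this, List.toFinset_card_of_nodup, List.length_map, hlen]
    apply List.Nodup.map_on _ hnd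
    intro x hx y hy e
    have := act_inj u a s e
    rw [← encX_decX C (c := c) x (hlt x hx), this, encX_decX C (c := c) y (hlt y hy)]
  · intro _ _ _ _ _
    trivial
  · intro T hT _
    obtain ⟨j, hj, u, hu', a, s, t1, t2⟩ := hnorm T hT
    obtain ⟨hjq, hj0⟩ := hJ0 j hj
    have hcard : (T.image (act u a s)).card = 3 := by
      rw [Finset.card_image_of_injective _ (act_inj u a s), hT]
    have hdj : ((0 : K), (0 : Fin c)) ≠ (C.dec j, 0) := by
      intro e
      simp only [Prod.mk.injEq, and_true] at e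
      apply hj0
      rw [← C.enc_dec j hjq, ← e, C.enc_zero]
    have hthird : ∃ x, T.image (act u a s) = {(0, 0), (C.dec j, 0), x} := by
      have hsub : ({((0 : K), (0 : Fin c)), (C.dec j, 0)} : Finset (K × Fin c)) ⊆
          T.image (act u a s) := by
        intro y hy
        simp only [Finset.mem_insert, Finset.mem_singleton] at hy
        rcases hy with rfl | rfl
        · exact t1
        · exact t2
      have hc' : (T.image (act u a s) \ {((0 : K), (0 : Fin c)), (C.dec j, 0)}).card = 1 := by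
        rw [Finset.card_sdiff_of_subset hsub, hcard, Finset.card_pair hdj]
      obtain ⟨x, hx⟩ := Finset.card_eq_one.1 hc'
      refine ⟨x, ?_⟩
      rw [← Finset.sdiff_union_of_subset hsub, hx]
      ext y
      simp only [Finset.mem_union, Finset.mem_singleton, Finset.mem_insert]
      tauto
    obtain ⟨x, hx⟩ := hthird
    obtain ⟨μ, hμ, hbit⟩ := hu j hj (encX C x) (encX_lt C x)
    obtain ⟨S, hS, s0, s1, hSx⟩ := key2 C H h inv neg hh h0 base hb j (hv j hj) μ hμ
    refine ⟨S.image (act u⁻¹ (-(u⁻¹ * a)) (-s)), blocks_map C H base S hS _ (H.inv_mem hu') _ _, ?_⟩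
    intro y hy
    rw [Finset.mem_image]
    refine ⟨act u a s y, ?_, act_inv u a s y⟩
    have : act u a s y ∈ T.image (act u a s) := Finset.mem_image_of_mem _ hy
    rw [hx] at this
    simp only [Finset.mem_insert, Finset.mem_singleton] at this
    rcases this with e | e | e
    · rw [e]; exact s0
    · rw [e]; exact s1
    · rw [e]; exact (hSx x).2 hbit
  · intro T hT S hS S' hS' hTS hTS'
    obtain ⟨j, hj, u, hu', a, s, t1, t2⟩ := hnorm T hT
    obtain ⟨hjq, hj0⟩ := hJ0 j hj
    have hcard : (T.image (act u a s)).card = 3 := by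
      rw [Finset.card_image_of_injective _ (act_inj u a s), hT]
    obtain ⟨x, hxT, hx⟩ : ∃ x ∈ T.image (act u a s), x ∉ ({((0 : K), (0 : Fin c)), (C.dec j, 0)} :
        Finset (K × Fin c)) := by
      by_contra hcon
      push Not at hcon
      have := Finset.card_le_card (fun x hx => hcon x hx :
        T.image (act u a s) ⊆ ({((0 : K), (0 : Fin c)), (C.dec j, 0)} : Finset (K × Fin c)))
      have h2 : ({((0 : K), (0 : Fin c)), (C.dec j, 0)} : Finset (K × Fin c)).card ≤ 2 :=
        Finset.card_le_two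
      omega
    have i1 : T.image (act u a s) ⊆ S.image (act u a s) := Finset.image_subset_image hTS
    have i2 : T.image (act u a s) ⊆ S'.image (act u a s) := Finset.image_subset_image hTS'
    obtain ⟨μ, hμ, e⟩ := key1 C H h inv neg hh base hb j hjq hj0 (hv j hj) _
      (blocks_map C H base S hS u hu' a s) (i1 t1) (i1 t2)
    obtain ⟨μ', hμ', e'⟩ := key1 C H h inv neg hh base hb j hjq hj0 (hv j hj) _
      (blocks_map C H base S' hS' u hu' a s) (i2 t1) (i2 t2)
    obtain ⟨M, hM, hpM⟩ := hp j hj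
    have hμμ : μ = μ' := by
      simp only [pairOK, List.all_eq_true, Bool.or_eq_true, Nat.beq_eq] at hpM
      rcases hpM μ (hM _ hμ) μ' (hM _ hμ') with h' | h'
      · exact h'
      · exfalso
        apply hx
        have b1 := (e x).1 (i1 hxT)
        have b2 := (e' x).1 (i2 hxT)
        have : (mask [0, j]).testBit (encX C x) = true := by
          rw [← h']
          show (μ &&& μ').testBit (encX C x) = true
          rw [Nat.testBit_and, b1, b2]
          rfl
        rw [testBit_mask] at this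
        simp only [List.mem_cons, List.not_mem_nil, or_false] at this
        simp only [Finset.mem_insert, Finset.mem_singleton]
        rcases this with h'' | h''
        · left
          apply encX_inj C
          rw [h'', encX]
          simp [C.enc_zero]
        · right
          apply encX_inj C
          rw [h'', encX]
          simp [C.enc_dec j hjq]
    have hSS : S.image (act u a s) = S'.image (act u a s) := by
      ext y
      rw [e y, e' y, hμμ]
    exact Finset.image_injective (act_inj u a s) hSS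

end

end Pool.Agent.H53.S3
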