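import Mathlib
import Pool.Agent.H53.S3.Cert

namespace Pool.Agent.H53.S3

theorem testBit_foldr (G : List ℕ) (n : ℕ) (h : (G.foldr Nat.lor 0).testBit n = true) :
    ∃ μ ∈ G, μ.testBit n = true := by
  induction G with
  | nil => simp at h
  | cons a G ih =>
    rw [List.foldr_cons, show Nat.lor a (G.foldr Nat.lor 0) = a ||| (G.foldr Nat.lor 0) from rfl,
      Nat.testBit_or, Bool.or_eq_true] at h
    rcases h with h | h
    · exact ⟨a, List.mem_cons_self, h⟩
    · obtain ⟨μ, h1, h2⟩ := ih h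
      exact ⟨μ, List.mem_cons_of_mem _ h1, h2⟩

def chk (v : ℕ) (G M : List ℕ) : Bool :=
  (G.all fun μ => M.any fun m => Nat.beq μ m) && Nat.beq (G.foldr Nat.lor 0) (2 ^ v - 1)

def fullOK (q c : ℕ) (add mul : ℕ → ℕ → ℕ) (inv neg : ℕ → ℕ) (h : ℕ → Bool)
    (base : List (List ℕ)) (JM : List (ℕ × List ℕ)) : Bool :=
  baseOK q c base && jOK q mul inv h (JM.map Prod.fst) && JM.all fun e =>
    Nat.ble (e.1 + 1) q && !(Nat.beq e.1 0) && verif q add mul inv neg base e.1 &&
      chk (q * c) (gens q c add mul inv neg h base e.1) e.2 && pairOK e.1 e.2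

theorem cert' {K : Type} [Field K] [DecidableEq K] {q : ℕ} (C : Coding K q) {c : ℕ} [NeZero c]
    (hc2 : c ≤ 2) (H : Subgroup Kˣ) (h : ℕ → Bool) (inv neg : ℕ → ℕ)
    (hh : ∀ u : Kˣ, h (C.enc u) = true ↔ u ∈ H) (h0 : h 0 = false)
    (base : List (List ℕ)) (JM : List (ℕ × List ℕ))
    (hf : fullOK q c C.add C.mul inv neg h base JM = true) : Dec (K × Fin c) (fun _ => True) := by
  simp only [fullOK, Bool.and_eq_true, List.all_eq_true, Nat.ble_eq, chk, Nat.beq_eq,
    List.any_eq_true] at hf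
  obtain ⟨⟨hb, hJ⟩, hall⟩ := hf
  have hmem : ∀ j ∈ JM.map Prod.fst, ∃ M, (j, M) ∈ JM := by
    intro j hj
    obtain ⟨e, he, rfl⟩ := List.mem_map.1 hj
    exact ⟨e.2, he⟩
  refine cert C hc2 H h inv neg hh h0 base (JM.map Prod.fst) hb hJ ?_ ?_ ?_ ?_
  · intro j hj
    obtain ⟨M, hM⟩ := hmem j hj
    obtain ⟨⟨⟨⟨h1, h2⟩, -⟩, -⟩, -⟩ := hall _ hM
    refine ⟨h1, ?_⟩
    rintro rfl
    simp at h2
  · intro j hj
    obtain ⟨M, hM⟩ := hmem j hj
    exact (hall _ hM).1.1.2
  · intro j hj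
    obtain ⟨M, hM⟩ := hmem j hj
    refine ⟨M, ?_, (hall _ hM).2⟩
    intro μ hμ
    obtain ⟨m, hm, e⟩ := (hall _ hM).1.2.1 μ hμ
    rw [e]
    exact hm
  · intro j hj n hn
    obtain ⟨M, hM⟩ := hmem j hj
    apply testBit_foldr
    rw [(hall _ hM).1.2.2, Nat.testBit_two_pow_sub_one]
    simpa using hn

def zmodCoding (p : ℕ) [Fact p.Prime] : Coding (ZMod p) p where
  enc := ZMod.val
  dec := fun n => (n : ZMod p)
  add := fun x y => (x + y) % p
  mul := fun x y => (x * y) % p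
  dec_enc := fun x => by simp
  enc_lt := fun x => ZMod.val_lt x
  enc_dec := fun k hk => ZMod.val_cast_of_lt hk
  add_spec := fun x y => ZMod.val_add x y
  mul_spec := fun x y => ZMod.val_mul x y
  enc_zero := ZMod.val_zero

theorem primeCert (p c N : ℕ) (hp : p.Prime) (hc0 : 0 < c) (hc2 : c ≤ 2) (hN : 0 < N)
    (base : List (List ℕ)) (JM : List (ℕ × List ℕ))
    (hf : fullOK p c (fun x y => (x + y) % p) (fun x y => (x * y) % p)
      (fun x => x ^ (p - 2) % p) (fun x => (p - x) % p) (fun x => Nat.beq (x ^ N % p) 1)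
      base JM = true) : Dec (Fin (p * c)) (fun _ => True) := by
  have : Fact p.Prime := ⟨hp⟩
  have : NeZero c := ⟨hc0.ne'⟩
  have hd := cert' (zmodCoding p) (c := c) hc2 (powMonoidHom N : (ZMod p)ˣ →* (ZMod p)ˣ).ker
    (fun x => Nat.beq (x ^ N % p) 1) (fun x => x ^ (p - 2) % p) (fun x => (p - x) % p) (by
      intro u
      rw [MonoidHom.mem_ker, powMonoidHom_apply, Nat.beq_eq, Units.ext_iff, Units.val_pow_eq_pow_val,
        Units.val_one]
      have e : ((u : ZMod p) ^ N).val = (u : ZMod p).val ^ N % p := by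
        rw [← ZMod.val_natCast, Nat.cast_pow, ZMod.natCast_zmod_val]
      constructor
      · intro h
        apply ZMod.val_injective p
        rw [e, ZMod.val_one]
        exact h
      · intro h
        have e2 := congrArg ZMod.val h
        rw [e, ZMod.val_one] at e2
        exact e2) (by
      rw [zero_pow hN.ne', Nat.zero_mod]
      rfl) base JM hf
  refine hd.equiv (Fintype.equivOfCardEq ?_)
  rw [Fintype.card_prod, ZMod.card, Fintype.card_fin, Fintype.card_fin]

end Pool.Agent.H53.S3
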