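import Mathlib
import Pool.Agent.H53.S3.PrimeCert

namespace Pool.Agent.H53.S3

def base137 : List (List ℕ) :=
  [[0, 1, 2, 53, 86], [0, 3, 27, 41, 59], [0, 1, 8, 42, 109], [0, 1, 3, 23, 111], [0, 3, 9, 78, 126]]

def jm137 : List (ℕ × List ℕ) :=
  [(1, [77371252464343466435936263, 39614081847427987951570649091,
  87112285931760285332250131674265880100867, 642241841670271816171523,
  83076750046042251895847408501784579, 10633823966279327057017432777082011651, 2450098934777905155,
  5070602400912917605986812826115, 19342813114959966706335747, 2478449045937441636794499075,
  2658455991569850635275797398955229187, 5192296858534837428363285487419395,
  332306998946233690592434634715332611, 765635325572111542792592866790197952515,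
  154742523357416608072073219, 649037107316853453570710087663875,
  1329552514338574336524078363720024067, 302379028873839156133891,
  1361129467762982016367762767321153667075, 35768487641091, 9444732965740364431363,
  10784933622254232954921170239491, 4563402883, 5316912300052313548672578615297179667,
  2722260314571360756020585687867233140739, 19807042990902247337815441411,
  21778071482940061661655974876732677226499, 2596148429267413814265248172998667,
  43556184504254991601932977995237099044867, 295183933976371791875, 72057594071482403,
  170141183460478904318835841466693058563, 10889046126063752736186522957325940031491, 281492156579907,
  5444517891018662959104949523130441793539, 1267650600228229471865447399427,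
  162259276829213651622091600953347, 40564819207307953096862883381251,
  166153499473114484112975882551821315, 21267647937510414123602434338959917059,
  43199910021466090897902404646199099395, 2535302409382278417624728600579, 2199023788035,
  619045577506416060362915843, 340303136108372602773888729417087188995]),    (3,
  [348170636049030794501423113, 73993, 21778071482940216404160886674067434766345,
  79228162514304869990190284809, 1237940039294387474153865289,
  5635926702128043301112141935588661002249, 39614082437723824698555367433, 576462951460896777,
  70540542869513, 140737488361481, 10385227544787621010990999359455241, 2252349569499273,
  50725831049757742144266514202633, 10889035744005951001304088930947438739465,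
  1020847100772718910704406864494497628169, 43556475272879069552280176265981354573833,
  18447025549760004105, 8796093546521, 2475880078570760549802442793,
  1298079166469421912379638002221065, 24178811540197762846949385,
  87114944387910272803398235791840310722569, 4722726770839834853385,
  2596148429267413814265248172998667, 1208925837629027684450313, 325786204258654956184652790890505,
  2305843009482162185, 166153499473114484112975883071913997, 10716900716015886586470185858332885001,
  144115465101246473, 5316911983217034745223486012909420553, 590295810358722560009,
  20769187434139310514123089123475465, 42540488161976447223460163739887599625,
  654107719389172928089332251623433, 85070591730234918097298555515235729929,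
  2722258935367507707711608545472573095945, 1361129548813392268607754078105754402825,
  1329248278194519598361207302369837065, 9444732965756470297609, 46116864582320390153,
  18889465931547301380105, 41700634145107834391635548646146057, 316912838951716665159984349193,
  664613997892457936451903538763661321])]

set_option maxRecDepth 100000 in
theorem dec137 : Dec (Fin 137) (fun _ => True) :=
  primeCert 137 1 68 (by norm_num) (by norm_num) (by norm_num) (by norm_num) base137 jm137
    (by decide +kernel)

end Pool.Agent.H53.S3
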