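import Mathlib
import Pool.Agent.H53.S3.PrimeCert

namespace Pool.Agent.H53.S3

def base146 : List (List ℕ) :=
  [[0, 1, 9, 52, 125], [0, 1, 2, 81, 140], [0, 1, 5, 29, 142], [5, 7, 73, 43, 81], [0, 3, 8, 29, 135],
  [0, 3, 7, 105, 126]]

def jm146 : List (ℕ × List ℕ) :=
  [(1, [42535295865117307932926329528598397443, 39614081294025656944195272707,
  18963252907773419062275, 9463179709812999979267, 1393796574908163948763834031269780943536135,
  11150372599265311570918974863776146838781955, 696898287454081974386639382117760116981763,
  87112287229834480623143920469223539736579, 5575186299632655785383929568162090913366051,
  83076749736557242056505567813304323, 9903520609431228853522530307, 302821750749200371417091,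
  1237940039285380274899386499, 348449143727040986586495598010130650636291,
  20282409603651670424498080841731, 1361129467683753854001144439910787186691,
  1267650600228229401496703242243, 170141183460469231731687303715951214659, 4835705593308725167259651,
  1329227995784915878091953831011155971, 2758407706096627177656826175422467,
  19807078407499073255454539779, 11033630824386508746656101718556675,
  22300745198530623296278223183320895868370963, 21267650467869525829476632991289573379,
  44601575467652976517687302388948580970790915, 10889035741470030907566442784448317489155,
  174225236477597613913698515246189008388099, 332306998946228968225951782384173059,
  633825300114114771119243264003, 340282366920938463463662837816509857795,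
  5070602400912917747823812804611, 20769187434139310514684935270318083,
  10633823966279326983230460880289267723, 2658455991569831745807622916922146819,
  81129638414607834617293645545475, 77371252455336542059233283, 4951760157141523298619817987,
  158456327389711916626205474819, 21778071482940061661656118990889960865795,
  41862893421937047757278926468022275, 2785365097615477655377805315,
  5232861677742130969378390840180739, 43561459877863262986803582993905961926659,
  6125082604576892342340742933771827808259, 316951335683285018507767447555,
  2787593315969827984776468539747065172852739, 2722258945508713113995741878742358687747])]

set_option maxRecDepth 100000 in
theorem dec146 : Dec (Fin 146) (fun _ => True) :=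
  primeCert 73 2 72 (by norm_num) (by norm_num) (by norm_num) (by norm_num) base146 jm146
    (by decide +kernel)

end Pool.Agent.H53.S3
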