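import Mathlib
import Pool.Agent.H53.S3.PrimeCert

namespace Pool.Agent.H53.S3

def base26 : List (List ℕ) :=
  [[0, 1, 3, 9, 13], [0, 1, 2, 17, 24]]

def jm26 : List (ℕ × List ℕ) :=
  [(1, [8715, 18467, 524371, 2098435, 16908295, 33587331, 8458243, 5505027])]

set_option maxRecDepth 100000 in
theorem dec26 : Dec (Fin 26) (fun _ => True) :=
  primeCert 13 2 12 (by norm_num) (by norm_num) (by norm_num) (by norm_num) base26 jm26
    (by decide +kernel)

end Pool.Agent.H53.S3
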