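import Mathlib
import Pool.Agent.H53.S3.PrimeCert

namespace Pool.Agent.H53.S3

set_option linter.unusedSectionVars false

namespace C2

section raw
variable (q c f : ℕ) (add mul : ℕ → ℕ → ℕ) (neg : ℕ → ℕ) (h : ℕ → Bool) (χ : ℕ → ℕ)

/-- image of the point with code `n` under `(m, a, s)` -/
def img (m a s n : ℕ) : ℕ :=
  if n < q * c then add (mul m (n % q)) a + q * ((n / q + s) % c)
  else q * c + (n - q * c + χ m) % f

def aOf (m P : ℕ) : ℕ := neg (mul m (P % q))
def sOf (P : ℕ) : ℕ := (c - P / q) % c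

theorem img_lt (m a s n : ℕ) (hn : n < q * c) : img q c f add mul χ m a s n =
    add (mul m (n % q)) a + q * ((n / q + s) % c) := if_pos hn

theorem img_ge (m a s n : ℕ) (hn : ¬ n < q * c) : img q c f add mul χ m a s n =
    q * c + (n - q * c + χ m) % f := if_neg hn

/-- the untrusted value `aOf` really sends `P` to the point `0` -/
def verif (base : List (List ℕ)) : Bool :=
  base.all fun l => l.all fun P => (List.range q).all fun m =>
    !(h m) || !(Nat.ble (P + 1) (q * c)) ||
      (Nat.beq (add (mul m (P % q)) (aOf q mul neg m P)) 0 && Nat.ble (aOf q mul neg m P + 1) q)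

def gens (base : List (List ℕ)) (Q0 : ℕ) : List ℕ :=
  base.flatMap fun l => l.flatMap fun P =>
    if Nat.ble (P + 1) (q * c) then
      l.flatMap fun Q => if Nat.beq P Q then [] else
        (List.range q).flatMap fun m =>
          if (h m && Nat.beq (img q c f add mul χ m (aOf q mul neg m P) (sOf q c P) Q) Q0) then
            [mask (l.map (img q c f add mul χ m (aOf q mul neg m P) (sOf q c P)))]
          else []
    else []

def baseOK (base : List (List ℕ)) : Bool :=
  base.all fun l => l.length == 5 && decide l.Nodup && l.all fun x => decide (x < q * c + f)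

/-- every point other than `0` is equivalent to a representative under the linear group -/
def repOK (R : List ℕ) : Bool :=
  (List.range (q * c + f)).all fun n => Nat.beq n 0 ||
    (List.range q).any fun m => h m && R.any fun r => Nat.beq (img q c f add mul χ m 0 0 n) r

def fullOK (base : List (List ℕ)) (RM : List (ℕ × List ℕ)) : Bool :=
  baseOK q c f base && verif q c add mul neg h base && repOK q c f add mul h χ (RM.map Prod.fst) &&
    RM.all fun e => Nat.ble (e.1 + 1) (q * c + f) && !(Nat.beq e.1 0) &&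
      chk (q * c + f) (gens q c f add mul neg h χ base e.1) e.2 && pairOK e.1 e.2

end raw

section
variable {K : Type} [Field K] {q : ℕ} (C : Coding K q) {c f : ℕ} [NeZero c]

/-- points -/
abbrev Pt (K : Type) (c f : ℕ) := (K × Fin c) ⊕ Fin f

variable (X : Kˣ → Fin f → Fin f)

def act (u : Kˣ) (a : K) (s : Fin c) : Pt K c f → Pt K c f
  | Sum.inl x => Sum.inl (u * x.1 + a, x.2 + s)
  | Sum.inr e => Sum.inr (X u e)

theorem act_act (hX : ∀ u v e, X (u * v) e = X u (X v e))
    (u u' : Kˣ) (a a' : K) (s s' : Fin c) (x : Pt K c f) :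
    act X u a s (act X u' a' s' x) = act X (u * u') (u * a' + a) (s' + s) x := by
  rcases x with x | e
  · simp only [act, Units.val_mul, Sum.inl.injEq, Prod.mk.injEq]
    constructor
    · ring
    · rw [add_assoc]
  · simp only [act, hX]

theorem act_inv (hX : ∀ u v e, X (u * v) e = X u (X v e)) (hX1 : ∀ e, X 1 e = e)
    (u : Kˣ) (a : K) (s : Fin c) (x : Pt K c f) :
    act X u⁻¹ (-(u⁻¹ * a)) (-s) (act X u a s x) = x := by
  rw [act_act X hX]
  rcases x with x | e
  · simp [act]
  · simp [act, hX1]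

theorem act_inj (hX : ∀ u v e, X (u * v) e = X u (X v e)) (hX1 : ∀ e, X 1 e = e)
    (u : Kˣ) (a : K) (s : Fin c) : Function.Injective (act (c := c) X u a s) := by
  intro x y h
  rw [← act_inv X hX hX1 u a s x, h, act_inv X hX hX1]

def encX : Pt K c f → ℕ
  | Sum.inl x => C.enc x.1 + q * x.2.val
  | Sum.inr e => q * c + e.val

theorem encl_lt (x : K × Fin c) : C.enc x.1 + q * x.2.val < q * c := by
  have h1 := C.enc_lt x.1
  have h2 := x.2.2
  calc C.enc x.1 + q * x.2.val < q + q * x.2.val := by omega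
    _ = q * (x.2.val + 1) := by ring
    _ ≤ q * c := Nat.mul_le_mul_left _ h2

theorem encX_lt (x : Pt K c f) : encX C x < q * c + f := by
  rcases x with x | e
  · have := encl_lt C x
    simp only [encX]
    omega
  · have := e.2
    simp only [encX]
    omega

theorem encX_inj : Function.Injective (encX C (c := c) (f := f)) := by
  intro x y h
  rcases x with x | e <;> rcases y with y | e'
  · simp only [encX] at h
    have h1 : C.enc x.1 = C.enc y.1 := by
      have := congrArg (· % q) h
      simp only [Nat.add_mul_mod_self_left] at this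
      rwa [Nat.mod_eq_of_lt (C.enc_lt _), Nat.mod_eq_of_lt (C.enc_lt _)] at this
    have h2 : x.2.val = y.2.val := by
      rw [h1] at h
      have := Nat.add_left_cancel h
      exact Nat.eq_of_mul_eq_mul_left (qpos C) this
    congr 1
    apply Prod.ext
    · rw [← C.dec_enc x.1, h1, C.dec_enc]
    · exact Fin.ext h2
  · exfalso
    simp only [encX] at h
    have := encl_lt C x
    omega
  · exfalso
    simp only [encX] at h
    have := encl_lt C y
    omega
  · simp only [encX] at h
    congr 1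
    apply Fin.ext
    omega

/-- `x` has code `n` -/
theorem exists_pt (n : ℕ) (hn : n < q * c + f) : ∃ x : Pt K c f, encX C x = n := by
  by_cases h : n < q * c
  · refine ⟨Sum.inl (C.dec (n % q), ⟨(n / q) % c, Nat.mod_lt _ (NeZero.pos c)⟩), ?_⟩
    simp only [encX]
    rw [C.enc_dec _ (Nat.mod_lt _ (qpos C)),
      Nat.mod_eq_of_lt (Nat.div_lt_of_lt_mul h)]
    exact Nat.mod_add_div n q
  · refine ⟨Sum.inr ⟨n - q * c, by omega⟩, ?_⟩
    simp only [encX]
    omega

theorem encX_act (χ : ℕ → ℕ) (hχ : ∀ u e, (X u e).val = (e.val + χ (C.enc (u : K))) % f)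
    (u : Kˣ) (a : K) (s : Fin c) (x : Pt K c f) :
    encX C (act X u a s x) =
      img q c f C.add C.mul χ (C.enc u) (C.enc a) s.val (encX C x) := by
  rcases x with x | e
  · have hx := encl_lt C x
    have e1 : (C.enc x.1 + q * x.2.val) % q = C.enc x.1 := by
      rw [Nat.add_mul_mod_self_left, Nat.mod_eq_of_lt (C.enc_lt _)]
    have e2 : (C.enc x.1 + q * x.2.val) / q = x.2.val := by
      rw [Nat.add_mul_div_left _ _ (qpos C), Nat.div_eq_of_lt (C.enc_lt _), Nat.zero_add]
    have e3 : encX C (Sum.inl x : Pt K c f) = C.enc x.1 + q * x.2.val := rfl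
    have e4 : encX C (act X u a s (Sum.inl x : Pt K c f)) =
      C.enc (u * x.1 + a) + q * (x.2 + s).val := rfl
    rw [e3, e4, img_lt _ _ _ _ _ _ _ _ _ _ hx, e1, e2, C.add_spec, C.mul_spec, Fin.val_add]
  · have e3 : encX C (Sum.inr e : Pt K c f) = q * c + e.val := rfl
    have e4 : encX C (act X u a s (Sum.inr e : Pt K c f)) = q * c + (X u e).val := rfl
    rw [e3, e4, img_ge _ _ _ _ _ _ _ _ _ _ (by omega), hχ, Nat.add_sub_cancel_left]

/-- all images of the base blocks -/
def blocks (H : Subgroup Kˣ) (base : List (List ℕ)) : Set (Finset (Pt K c f)) :=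
  {S | ∃ l ∈ base, ∃ u ∈ H, ∃ (a : K) (s : Fin c),
    ∀ x, x ∈ S ↔ ∃ y : Pt K c f, encX C y ∈ l ∧ act X u a s y = x}

variable [DecidableEq K]

theorem blocks_map (hX : ∀ u v e, X (u * v) e = X u (X v e)) (H : Subgroup Kˣ)
    (base : List (List ℕ)) (S : Finset (Pt K c f))
    (hS : S ∈ blocks C X H base) (u : Kˣ) (hu : u ∈ H) (a : K) (s : Fin c) :
    S.image (act X u a s) ∈ blocks C X H base := by
  obtain ⟨l, hl, u', hu', a', s', h⟩ := hS
  refine ⟨l, hl, u * u', H.mul_mem hu hu', u * a' + a, s' + s, ?_⟩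
  intro x
  rw [Finset.mem_image]
  constructor
  · rintro ⟨y, hy, rfl⟩
    obtain ⟨z, hz, rfl⟩ := (h y).1 hy
    exact ⟨z, hz, (act_act X hX _ _ _ _ _ _ _).symm⟩
  · rintro ⟨z, hz, rfl⟩
    exact ⟨_, (h _).2 ⟨z, hz, rfl⟩, act_act X hX _ _ _ _ _ _ _⟩

/-- the origin -/
def O : Pt K c f := Sum.inl (0, 0)

theorem encX_O : encX C (O : Pt K c f) = 0 := by
  simp [encX, O, C.enc_zero]

theorem key1 (H : Subgroup Kˣ) (h : ℕ → Bool) (neg : ℕ → ℕ) (χ : ℕ → ℕ)
    (hχ : ∀ u e, (X u e).val = (e.val + χ (C.enc (u : K))) % f)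
    (hh : ∀ u : Kˣ, h (C.enc u) = true ↔ u ∈ H)
    (base : List (List ℕ)) (hb : baseOK q c f base = true)
    (hv : verif q c C.add C.mul neg h base = true) (Y : Pt K c f) (hY : Y ≠ O)
    (S : Finset (Pt K c f))
    (hS : S ∈ blocks C X H base) (h0 : O ∈ S) (h1 : Y ∈ S) :
    ∃ μ ∈ gens q c f C.add C.mul neg h χ base (encX C Y),
      ∀ x, x ∈ S ↔ μ.testBit (encX C x) = true := by
  obtain ⟨l, hl, u, hu, a, s, hS⟩ := hS
  obtain ⟨P, hP, eP⟩ := (hS _).1 h0
  obtain ⟨Q, hQ, eQ⟩ := (hS _).1 h1
  simp only [baseOK, List.all_eq_true, Bool.and_eq_true, decide_eq_true_eq, beq_iff_eq] at hb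
  have hlt := (hb l hl).2
  have hPQ : P ≠ Q := by
    rintro rfl
    exact hY (eQ.symm.trans eP)
  have hPQ' : encX C P ≠ encX C Q := fun h => hPQ (encX_inj C h)
  rcases P with ⟨p, i⟩ | e
  swap
  · simp [act, O] at eP
  simp only [act, O, Sum.inl.injEq, Prod.mk.injEq] at eP
  obtain ⟨eP1, eP2⟩ := eP
  have hcode := encl_lt C (p, i)
  simp only at hcode
  have hmod : (C.enc p + q * i.val) % q = C.enc p := by
    rw [Nat.add_mul_mod_self_left, Nat.mod_eq_of_lt (C.enc_lt _)]
  have hdiv : (C.enc p + q * i.val) / q = i.val := by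
    rw [Nat.add_mul_div_left _ _ (qpos C), Nat.div_eq_of_lt (C.enc_lt _), Nat.zero_add]
  have hhu : h (C.enc u) = true := (hh u).2 hu
  have hver := hv
  simp only [verif, List.all_eq_true] at hver
  have hv1 := hver l hl _ hP (C.enc u) (List.mem_range.2 (C.enc_lt _))
  simp only [encX] at hv1 hP
  have b1 : Nat.ble (C.enc p + q * i.val + 1) (q * c) = true := by
    rw [Nat.ble_eq]; omega
  rw [b1, hhu] at hv1
  simp only [Bool.not_true, Bool.false_or, Bool.and_eq_true, Nat.beq_eq, Nat.ble_eq] at hv1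
  obtain ⟨v1, v2⟩ := hv1
  rw [hmod] at v1
  have ha0 : C.dec (aOf q C.mul neg (C.enc u) (C.enc p + q * i.val)) = a := by
    have : (u : K) * p + C.dec (aOf q C.mul neg (C.enc u) (C.enc p + q * i.val)) = 0 := by
      rw [← C.dec_enc ((u : K) * p + C.dec (aOf q C.mul neg (C.enc u) (C.enc p + q * i.val))),
        C.add_spec, C.mul_spec, C.enc_dec _ (by omega), v1, ← C.enc_zero, C.dec_enc]
    linear_combination this - eP1
  have ha1 : aOf q C.mul neg (C.enc u) (C.enc p + q * i.val) = C.enc a := by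
    rw [← ha0, C.enc_dec _ (by omega)]
  have hs : s.val = sOf q c (C.enc p + q * i.val) := by
    rw [sOf, hdiv]
    apply shift_eq i.val s.val c i.2 s.2
    have := congrArg Fin.val eP2
    rw [Fin.val_add] at this
    simpa using this
  refine ⟨mask (l.map (img q c f C.add C.mul χ (C.enc u)
    (aOf q C.mul neg (C.enc u) (C.enc p + q * i.val)) (sOf q c (C.enc p + q * i.val)))), ?_, ?_⟩
  · rw [gens, List.mem_flatMap]
    refine ⟨l, hl, ?_⟩
    rw [List.mem_flatMap]
    refine ⟨_, hP, ?_⟩
    rw [if_pos b1, List.mem_flatMap]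
    refine ⟨_, hQ, ?_⟩
    have b2 : Nat.beq (C.enc p + q * i.val) (encX C Q) = false := by
      rw [← Bool.not_eq_true, Nat.beq_eq]
      exact hPQ'
    rw [b2, if_neg (by simp), List.mem_flatMap]
    refine ⟨C.enc u, List.mem_range.2 (C.enc_lt _), ?_⟩
    have b3 : Nat.beq (img q c f C.add C.mul χ (C.enc u)
        (aOf q C.mul neg (C.enc u) (C.enc p + q * i.val))
        (sOf q c (C.enc p + q * i.val)) (encX C Q)) (encX C Y) = true := by
      rw [Nat.beq_eq, ha1, ← hs, ← encX_act C X χ hχ u a s Q, eQ]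
    rw [b3, hhu]
    simp
  · intro x
    rw [testBit_mask, List.mem_map, hS, ha1, ← hs]
    constructor
    · rintro ⟨y, hy, rfl⟩
      exact ⟨_, hy, (encX_act C X χ hχ u a s y).symm⟩
    · rintro ⟨n, hn, e⟩
      obtain ⟨y, rfl⟩ := exists_pt C (c := c) (f := f) n (hlt n hn)
      refine ⟨y, hn, ?_⟩
      apply encX_inj C
      rw [encX_act C X χ hχ u a s y]
      exact e

theorem key2 (H : Subgroup Kˣ) (h : ℕ → Bool) (neg : ℕ → ℕ) (χ : ℕ → ℕ)
    (hχ : ∀ u e, (X u e).val = (e.val + χ (C.enc (u : K))) % f)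
    (hh : ∀ u : Kˣ, h (C.enc u) = true ↔ u ∈ H) (hh0 : h 0 = false)
    (base : List (List ℕ)) (hb : baseOK q c f base = true)
    (hv : verif q c C.add C.mul neg h base = true) (Y : Pt K c f)
    (μ : ℕ) (hμ : μ ∈ gens q c f C.add C.mul neg h χ base (encX C Y)) :
    ∃ S ∈ (blocks C X H base : Set (Finset (Pt K c f))), O ∈ S ∧ Y ∈ S ∧
      ∀ x, x ∈ S ↔ μ.testBit (encX C x) = true := by
  simp only [baseOK, List.all_eq_true, Bool.and_eq_true, decide_eq_true_eq, beq_iff_eq] at hb
  rw [gens, List.mem_flatMap] at hμ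
  obtain ⟨l, hl, hμ⟩ := hμ
  rw [List.mem_flatMap] at hμ
  obtain ⟨P, hP, hμ⟩ := hμ
  have hlt := (hb l hl).2
  split_ifs at hμ with b1
  swap
  · simp at hμ
  rw [List.mem_flatMap] at hμ
  obtain ⟨Q, hQ, hμ⟩ := hμ
  split_ifs at hμ with b2
  · simp at hμ
  rw [List.mem_flatMap] at hμ
  obtain ⟨m, hm, hμ⟩ := hμ
  split_ifs at hμ with b3
  swap
  · simp at hμ
  simp only [List.mem_singleton] at hμ
  simp only [Bool.and_eq_true, Nat.beq_eq] at b3
  obtain ⟨hmh, hQ0⟩ := b3
  rw [List.mem_range] at hm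
  rw [Nat.ble_eq] at b1
  have hm0 : C.dec m ≠ 0 := by
    intro h'
    have : m = 0 := by rw [← C.enc_dec m hm, h', C.enc_zero]
    rw [this, hh0] at hmh
    cases hmh
  set u : Kˣ := Units.mk0 (C.dec m) hm0 with hu
  have hum : C.enc (u : K) = m := by
    rw [hu, Units.val_mk0, C.enc_dec m hm]
  have huH : u ∈ H := by
    rw [← hh, hum]
    exact hmh
  simp only [verif, List.all_eq_true] at hv
  have hv1 := hv l hl P hP m (List.mem_range.2 hm)
  have b1' : Nat.ble (P + 1) (q * c) = true := by rw [Nat.ble_eq]; exact b1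
  rw [b1', hmh] at hv1
  simp only [Bool.not_true, Bool.false_or, Bool.and_eq_true, Nat.beq_eq, Nat.ble_eq] at hv1
  obtain ⟨v1, v2⟩ := hv1
  set a : K := C.dec (aOf q C.mul neg m P) with ha
  have haa : C.enc a = aOf q C.mul neg m P := by
    rw [ha, C.enc_dec _ (by omega)]
  have hs : sOf q c P < c := Nat.mod_lt _ (NeZero.pos c)
  set s : Fin c := ⟨sOf q c P, hs⟩ with hs'
  have mem : ∀ x, x ∈ (l.toFinset.attach.image (fun n => act X u a s
      (exists_pt C (c := c) (f := f) n.1 (hlt n.1 (List.mem_toFinset.1 n.2))).choose)) ↔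
      ∃ y : Pt K c f, encX C y ∈ l ∧ act X u a s y = x := by
    intro x
    rw [Finset.mem_image]
    constructor
    · rintro ⟨n, -, rfl⟩
      refine ⟨_, ?_, rfl⟩
      rw [(exists_pt C (c := c) (f := f) n.1 (hlt n.1 (List.mem_toFinset.1 n.2))).choose_spec]
      exact List.mem_toFinset.1 n.2
    · rintro ⟨y, hy, rfl⟩
      refine ⟨⟨encX C y, List.mem_toFinset.2 hy⟩, Finset.mem_attach _ _, ?_⟩
      congr 1
      apply encX_inj C
      exact (exists_pt C (c := c) (f := f) (encX C y) (hlt _ hy)).choose_spec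
  refine ⟨_, ⟨l, hl, u, huH, a, s, mem⟩, ?_, ?_, ?_⟩
  · rw [mem]
    obtain ⟨y, hy⟩ := exists_pt C (c := c) (f := f) P (hlt P hP)
    refine ⟨y, by rw [hy]; exact hP, ?_⟩
    apply encX_inj C
    rw [encX_act C X χ hχ, encX_O, hy, hum, haa, img, if_pos (by omega), v1]
    simp only [hs', sOf]
    have hPq : P / q < c := Nat.div_lt_of_lt_mul (by omega)
    rw [Nat.add_mod_mod, Nat.add_sub_cancel' hPq.le, Nat.mod_self]
    simp
  · rw [mem]
    obtain ⟨y, hy⟩ := exists_pt C (c := c) (f := f) Q (hlt Q hQ)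
    refine ⟨y, by rw [hy]; exact hQ, ?_⟩
    apply encX_inj C
    rw [encX_act C X χ hχ, hy, hum, haa]
    exact hQ0
  · intro x
    rw [mem, hμ, testBit_mask, List.mem_map]
    constructor
    · rintro ⟨y, hy, rfl⟩
      refine ⟨_, hy, ?_⟩
      rw [encX_act C X χ hχ, hum, haa]
    · rintro ⟨n, hn, e⟩
      obtain ⟨y, rfl⟩ := exists_pt C (c := c) (f := f) n (hlt n hn)
      refine ⟨y, hn, ?_⟩
      apply encX_inj C
      rw [encX_act C X χ hχ, hum, haa]
      exact e

theorem cert (hf : f ≤ 2) (hX : ∀ u v e, X (u * v) e = X u (X v e)) (hX1 : ∀ e, X 1 e = e)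
    (H : Subgroup Kˣ) (h : ℕ → Bool) (neg : ℕ → ℕ) (χ : ℕ → ℕ)
    (hχ : ∀ u e, (X u e).val = (e.val + χ (C.enc (u : K))) % f)
    (hh : ∀ u : Kˣ, h (C.enc u) = true ↔ u ∈ H) (hh0 : h 0 = false)
    (base : List (List ℕ)) (RM : List (ℕ × List ℕ))
    (hfull : fullOK q c f C.add C.mul neg h χ base RM = true) :
    Dec (Pt K c f) (fun _ => True) := by
  simp only [fullOK, Bool.and_eq_true, List.all_eq_true, Nat.ble_eq, chk, Nat.beq_eq,
    List.any_eq_true] at hfull
  obtain ⟨⟨⟨hb, hv⟩, hR⟩, hall⟩ := hfull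
  have hb' := hb
  simp only [baseOK, List.all_eq_true, Bool.and_eq_true, decide_eq_true_eq, beq_iff_eq] at hb'
  -- normal form of a 3-set
  have hnorm : ∀ T : Finset (Pt K c f), T.card = 3 → ∃ e ∈ RM, ∃ u ∈ H, ∃ (a : K) (s : Fin c),
      ∃ Y : Pt K c f, encX C Y = e.1 ∧ Y ≠ O ∧ O ∈ T.image (act X u a s) ∧
        Y ∈ T.image (act X u a s) := by
    intro T hT
    have hex : ∃ x : K × Fin c, Sum.inl x ∈ T := by
      by_contra hcon
      push Not at hcon
      have hsub : T ⊆ Finset.univ.image (Sum.inr : Fin f → Pt K c f) := by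
        intro y hy
        rcases y with y | y
        · exact absurd hy (hcon y)
        · simp
      have := Finset.card_le_card hsub
      have h2 : (Finset.univ.image (Sum.inr : Fin f → Pt K c f)).card ≤ f := by
        calc _ ≤ (Finset.univ : Finset (Fin f)).card := Finset.card_image_le
          _ = f := by simp
      omega
    obtain ⟨⟨p, i⟩, hp⟩ := hex
    have : 1 < T.card := by omega
    obtain ⟨Q, hQ, hQp⟩ := Finset.exists_mem_ne this (Sum.inl (p, i))
    -- move p to the origin
    set Z := act X 1 (-p) (-i) Q with hZ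
    have hO : act X 1 (-p) (-i) (Sum.inl (p, i) : Pt K c f) = O := by
      simp [act, O]
    have hZO : Z ≠ O := by
      intro h
      apply hQp
      apply act_inj X hX hX1 1 (-p) (-i)
      rw [hO, ← h]
    have hZn : encX C Z ≠ 0 := by
      intro h
      apply hZO
      apply encX_inj C
      rw [h, encX_O]
    simp only [repOK, List.all_eq_true, List.mem_range, Bool.or_eq_true, Nat.beq_eq,
      List.any_eq_true, Bool.and_eq_true, List.mem_map] at hR
    rcases hR (encX C Z) (encX_lt C Z) with h' | ⟨m, hm, hmh, r, ⟨e, he, rfl⟩, hr⟩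
    · exact absurd h' hZn
    have hm0 : C.dec m ≠ 0 := by
      intro h'
      have : m = 0 := by rw [← C.enc_dec m hm, h', C.enc_zero]
      rw [this, hh0] at hmh
      cases hmh
    have hum : C.enc ((Units.mk0 (C.dec m) hm0 : Kˣ) : K) = m := by
      rw [Units.val_mk0, C.enc_dec m hm]
    have hact : encX C (act X (Units.mk0 (C.dec m) hm0) 0 0 Z) = e.1 := by
      rw [encX_act C X χ hχ, hum, C.enc_zero]
      exact hr
    have hO2 : act X (Units.mk0 (C.dec m) hm0) 0 0 (O : Pt K c f) = O := by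
      simp [act, O]
    refine ⟨e, he, Units.mk0 (C.dec m) hm0, ?_, (C.dec m) * (-p), -i,
      act X (Units.mk0 (C.dec m) hm0) 0 0 Z, hact, ?_, ?_, ?_⟩
    · rw [← hh, hum]
      exact hmh
    · intro h'
      apply hZO
      apply act_inj X hX hX1 (Units.mk0 (C.dec m) hm0) 0 0
      rw [h', hO2]
    · rw [Finset.mem_image]
      refine ⟨_, hp, ?_⟩
      rw [← hO2, ← hO, act_act X hX]
      simp
    · rw [Finset.mem_image]
      refine ⟨_, hQ, ?_⟩
      rw [hZ, act_act X hX]
      simp
  refine ⟨blocks C X H base, ?_, ?_, ?_, ?_⟩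
  · rintro S ⟨l, hl, u, hu, a, s, hS⟩
    obtain ⟨⟨hlen, hnd⟩, hlt⟩ := hb' l hl
    have hcard : (S.image (encX C)).card = S.card :=
      Finset.card_image_of_injective _ (encX_inj C)
    have : S.image (encX C) =
        (l.map (img q c f C.add C.mul χ (C.enc u) (C.enc a) s.val)).toFinset := by
      ext n
      rw [Finset.mem_image, List.mem_toFinset, List.mem_map]
      constructor
      · rintro ⟨x, hx, rfl⟩
        obtain ⟨y, hy, rfl⟩ := (hS x).1 hx
        exact ⟨_, hy, (encX_act C X χ hχ u a s y).symm⟩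
      · rintro ⟨k, hk, rfl⟩
        obtain ⟨y, rfl⟩ := exists_pt C (c := c) (f := f) k (hlt k hk)
        exact ⟨act X u a s y, (hS _).2 ⟨y, hk, rfl⟩, encX_act C X χ hχ u a s y⟩
    rw [← hcard, this, List.toFinset_card_of_nodup, List.length_map, hlen]
    apply List.Nodup.map_on _ hnd
    intro x hx y hy e
    obtain ⟨x', rfl⟩ := exists_pt C (c := c) (f := f) x (hlt x hx)
    obtain ⟨y', rfl⟩ := exists_pt C (c := c) (f := f) y (hlt y hy)
    rw [← encX_act C X χ hχ u a s, ← encX_act C X χ hχ u a s] at e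
    rw [act_inj X hX hX1 u a s (encX_inj C e)]
  · intro _ _ _ _ _
    trivial
  · intro T hT _
    obtain ⟨e, he, u, hu', a, s, Y, hYe, hYO, t1, t2⟩ := hnorm T hT
    obtain ⟨⟨⟨he1, he2⟩, ⟨hchk1, hchk2⟩⟩, hpair⟩ := hall e he
    have hcard : (T.image (act X u a s)).card = 3 := by
      rw [Finset.card_image_of_injective _ (act_inj X hX hX1 u a s), hT]
    have hthird : ∃ x, T.image (act X u a s) = {O, Y, x} := by
      have hsub : ({O, Y} : Finset (Pt K c f)) ⊆ T.image (act X u a s) := by
        intro y hy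
        simp only [Finset.mem_insert, Finset.mem_singleton] at hy
        rcases hy with rfl | rfl
        · exact t1
        · exact t2
      have hc' : (T.image (act X u a s) \ {O, Y}).card = 1 := by
        rw [Finset.card_sdiff_of_subset hsub, hcard, Finset.card_pair hYO.symm]
      obtain ⟨x, hx⟩ := Finset.card_eq_one.1 hc'
      refine ⟨x, ?_⟩
      rw [← Finset.sdiff_union_of_subset hsub, hx]
      ext y
      simp only [Finset.mem_union, Finset.mem_singleton, Finset.mem_insert]
      tauto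
    obtain ⟨x, hx⟩ := hthird
    have hbit0 : ((gens q c f C.add C.mul neg h χ base e.1).foldr Nat.lor 0).testBit
        (encX C x) = true := by
      rw [hchk2, Nat.testBit_two_pow_sub_one]
      simpa using encX_lt C x
    obtain ⟨μ, hμ, hbit⟩ := testBit_foldr _ _ hbit0
    rw [← hYe] at hμ
    obtain ⟨S, hS, s0, s1, hSx⟩ := key2 C X H h neg χ hχ hh hh0 base hb hv Y μ hμ
    refine ⟨S.image (act X u⁻¹ (-(u⁻¹ * a)) (-s)),
      blocks_map C X hX H base S hS _ (H.inv_mem hu') _ _, ?_⟩
    intro y hy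
    rw [Finset.mem_image]
    refine ⟨act X u a s y, ?_, act_inv X hX hX1 u a s y⟩
    have : act X u a s y ∈ T.image (act X u a s) := Finset.mem_image_of_mem _ hy
    rw [hx] at this
    simp only [Finset.mem_insert, Finset.mem_singleton] at this
    rcases this with e | e | e
    · rw [e]; exact s0
    · rw [e]; exact s1
    · rw [e]; exact (hSx x).2 hbit
  · intro T hT S hS S' hS' hTS hTS'
    obtain ⟨e, he, u, hu', a, s, Y, hYe, hYO, t1, t2⟩ := hnorm T hT
    obtain ⟨⟨⟨he1, he2⟩, ⟨hchk1, hchk2⟩⟩, hpair⟩ := hall e he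
    have hcard : (T.image (act X u a s)).card = 3 := by
      rw [Finset.card_image_of_injective _ (act_inj X hX hX1 u a s), hT]
    obtain ⟨x, hxT, hx⟩ : ∃ x ∈ T.image (act X u a s), x ∉ ({O, Y} : Finset (Pt K c f)) := by
      by_contra hcon
      push Not at hcon
      have := Finset.card_le_card (fun x hx => hcon x hx :
        T.image (act X u a s) ⊆ ({O, Y} : Finset (Pt K c f)))
      have h2 : ({O, Y} : Finset (Pt K c f)).card ≤ 2 := Finset.card_le_two
      omega
    have i1 : T.image (act X u a s) ⊆ S.image (act X u a s) := Finset.image_subset_image hTS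
    have i2 : T.image (act X u a s) ⊆ S'.image (act X u a s) := Finset.image_subset_image hTS'
    obtain ⟨μ, hμ, em⟩ := key1 C X H h neg χ hχ hh base hb hv Y hYO _
      (blocks_map C X hX H base S hS u hu' a s) (i1 t1) (i1 t2)
    obtain ⟨μ', hμ', em'⟩ := key1 C X H h neg χ hχ hh base hb hv Y hYO _
      (blocks_map C X hX H base S' hS' u hu' a s) (i2 t1) (i2 t2)
    rw [hYe] at hμ hμ'
    obtain ⟨m1, hm1, e1⟩ := hchk1 μ hμ
    obtain ⟨m2, hm2, e2⟩ := hchk1 μ' hμ'
    subst e1 e2
    have hμμ : μ = μ' := by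
      simp only [pairOK, List.all_eq_true, Bool.or_eq_true, Nat.beq_eq] at hpair
      rcases hpair μ hm1 μ' hm2 with h' | h'
      · exact h'
      · exfalso
        apply hx
        have b1 := (em x).1 (i1 hxT)
        have b2 := (em' x).1 (i2 hxT)
        have : (mask [0, e.1]).testBit (encX C x) = true := by
          rw [← h']
          show (μ &&& μ').testBit (encX C x) = true
          rw [Nat.testBit_and, b1, b2]
          rfl
        rw [testBit_mask] at this
        simp only [List.mem_cons, List.not_mem_nil, or_false] at this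
        simp only [Finset.mem_insert, Finset.mem_singleton]
        rcases this with h'' | h''
        · left
          apply encX_inj C
          rw [h'', encX_O]
        · right
          apply encX_inj C
          rw [h'', hYe]
    have hSS : S.image (act X u a s) = S'.image (act X u a s) := by
      ext y
      rw [em y, em' y, hμμ]
    exact Finset.image_injective (act_inj X hX hX1 u a s) hSS

end

end C2

end Pool.Agent.H53.S3
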