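import Mathlib
import Pool.Agent.H53.S3.Cert2

namespace Pool.Agent.H53.S3

set_option linter.unusedSectionVars false

/-- if every 3-set is covered and there are not too many blocks, then every 3-set is covered
exactly once -/
theorem once {α : Type} [Fintype α] [DecidableEq α] (v : ℕ) (hv : Fintype.card α = v)
    (𝓑 : Finset (Finset α)) (h5 : ∀ b ∈ 𝓑, b.card = 5)
    (hcov : ∀ T : Finset α, T.card = 3 → ∃ b ∈ 𝓑, T ⊆ b)
    (hcnt : 60 * 𝓑.card ≤ v * (v - 1) * (v - 2)) :
    ∀ T : Finset α, T.card = 3 → ∀ b ∈ 𝓑, ∀ b' ∈ 𝓑, T ⊆ b → T ⊆ b' → b = b' := by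
  classical
  set P : Finset (Finset α) := Finset.powersetCard 3 Finset.univ with hP
  have hPm : ∀ T : Finset α, T ∈ P ↔ T.card = 3 := by
    intro T
    rw [hP, Finset.mem_powersetCard]
    simp
  have hPc : 6 * P.card = v * (v - 1) * (v - 2) := by
    rw [hP, Finset.card_powersetCard, Finset.card_univ, hv]
    have := Nat.descFactorial_eq_factorial_mul_choose v 3
    rw [show (6 : ℕ) = Nat.factorial 3 from rfl, ← this]
    simp only [Nat.descFactorial_succ, Nat.descFactorial_zero, Nat.sub_zero, mul_one]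
    ring
  have hdc : ∑ T ∈ P, (𝓑.filter fun b => T ⊆ b).card = 10 * 𝓑.card := by
    have h1 : ∑ T ∈ P, (𝓑.filter fun b => T ⊆ b).card =
        ∑ b ∈ 𝓑, (P.filter fun T => T ⊆ b).card := by
      simp only [Finset.card_filter]
      exact Finset.sum_comm
    rw [h1, Finset.sum_congr rfl (g := fun _ => 10), Finset.sum_const, smul_eq_mul, mul_comm]
    intro b hb
    have : (P.filter fun T => T ⊆ b) = Finset.powersetCard 3 b := by
      ext T
      rw [Finset.mem_filter, hPm, Finset.mem_powersetCard, and_comm]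
    rw [this, Finset.card_powersetCard, h5 b hb]
    rfl
  have hge : ∀ T ∈ P, 1 ≤ (𝓑.filter fun b => T ⊆ b).card := by
    intro T hT
    obtain ⟨b, hb, hTb⟩ := hcov T ((hPm T).1 hT)
    exact Finset.card_pos.2 ⟨b, Finset.mem_filter.2 ⟨hb, hTb⟩⟩
  have hle : ∑ T ∈ P, (𝓑.filter fun b => T ⊆ b).card ≤ ∑ T ∈ P, 1 := by
    rw [hdc, Finset.sum_const, smul_eq_mul, mul_one]
    omega
  have heq : ∑ T ∈ P, 1 = ∑ T ∈ P, (𝓑.filter fun b => T ⊆ b).card :=
    le_antisymm (Finset.sum_le_sum hge) hle
  have hone := (Finset.sum_eq_sum_iff_of_le hge).1 heq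
  intro T hT b hb b' hb' h1 h2
  have := hone T ((hPm T).2 hT)
  have hle1 : (𝓑.filter fun b => T ⊆ b).card ≤ 1 := by omega
  exact Finset.card_le_one.1 hle1 b (Finset.mem_filter.2 ⟨hb, h1⟩) b'
    (Finset.mem_filter.2 ⟨hb', h2⟩)

namespace C3



/-- a base block with a list of group elements that stabilise it -/
abbrev BB := List ℕ × List (ℕ × ℕ)

section raw
variable (q c f : ℕ) (add mul : ℕ → ℕ → ℕ) (h : ℕ → Bool) (χ : ℕ → ℕ)

def baseOK (base : List BB) : Bool :=
  base.all fun l => l.1.length == 5 && decide l.1.Nodup && l.1.all fun x => decide (x < q * c + f)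

def stabOK (base : List BB) : Bool :=
  base.all fun l => decide l.2.Nodup && l.2.all fun g =>
    Nat.ble (g.1 + 1) q && Nat.ble (g.2 + 1) q && h g.1 &&
      l.1.all fun x => l.1.any fun y => Nat.beq (C2.img q c f add mul χ g.1 g.2 0 x) y

/-- union of the listed images of the base blocks that contain both given points -/
def orAll (pm : ℕ) (base : List BB) (L : List (List (ℕ × ℕ))) : ℕ :=
  ((base.zip L).flatMap fun e => e.2.map fun g =>
    if Nat.ble (g.1 + 1) q && Nat.ble (g.2 + 1) q && h g.1 &&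
      Nat.beq (Nat.land (mask (e.1.1.map (C2.img q c f add mul χ g.1 g.2 0))) pm) pm then
        mask (e.1.1.map (C2.img q c f add mul χ g.1 g.2 0)) else 0).foldr Nat.lor 0

def covOK (base : List BB) (CV : List (ℕ × ℕ × List (List (ℕ × ℕ)))) : Bool :=
  CV.all fun e => Nat.beq
    (orAll q c f add mul h χ (mask [q * e.1, e.2.1]) base e.2.2) (2 ^ (q * c + f) - 1)

def repOK (mt : ℕ → ℕ) (CV : List (ℕ × ℕ × List (List (ℕ × ℕ)))) : Bool :=
  (List.range c).all fun i => (List.range (q * c + f)).all fun n =>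
    Nat.beq n (q * i) || (Nat.ble (mt n + 1) q && h (mt n) &&
      CV.any fun e => Nat.beq e.1 i && Nat.beq e.2.1 (C2.img q c f add mul χ (mt n) 0 0 n))

def cntOK (base : List BB) : Bool :=
  (base.all fun l => Nat.ble 1 l.2.length) &&
  Nat.ble (60 * (base.map fun l => (List.range q).countP h * q / l.2.length).sum)
    ((q * c + f) * (q * c + f - 1) * (q * c + f - 2))

def fullOK (mt : ℕ → ℕ) (base : List BB) (CV : List (ℕ × ℕ × List (List (ℕ × ℕ)))) : Bool :=
  baseOK q c f base && stabOK q c f add mul h χ base && covOK q c f add mul h χ base CV &&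
    repOK q c f add mul h χ mt CV && cntOK q c f h base

end raw

section
variable {K : Type} [Field K] [Fintype K] [DecidableEq K] {q : ℕ} (C : Coding K q) {c f : ℕ}
  [NeZero c]

variable (X : Kˣ → Fin f → Fin f)

/-- the block with a given list of codes -/
def blk (l : List ℕ) : Finset (C2.Pt K c f) := Finset.univ.filter fun x => C2.encX C x ∈ l

theorem mem_blk (l : List ℕ) (x : C2.Pt K c f) : x ∈ (blk C l : Finset (C2.Pt K c f)) ↔
    C2.encX C x ∈ l := by
  simp [blk]

theorem blk_card (l : List ℕ) (hl : l.length = 5) (hn : l.Nodup)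
    (hlt : ∀ x ∈ l, x < q * c + f) : (blk C l : Finset (C2.Pt K c f)).card = 5 := by
  have : (blk C l : Finset (C2.Pt K c f)).image (C2.encX C) = l.toFinset := by
    ext n
    rw [Finset.mem_image, List.mem_toFinset]
    constructor
    · rintro ⟨x, hx, rfl⟩
      exact (mem_blk C l x).1 hx
    · intro hn
      obtain ⟨x, rfl⟩ := C2.exists_pt C (c := c) (f := f) n (hlt n hn)
      exact ⟨x, (mem_blk C l x).2 hn, rfl⟩
  rw [← Finset.card_image_of_injective _ (C2.encX_inj C), this, List.toFinset_card_of_nodup hn, hl]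

/-- the group elements -/
def grp (h : ℕ → Bool) : Finset (Kˣ × K) := Finset.univ.filter fun g => h (C.enc (g.1 : K)) = true

theorem mem_grp (h : ℕ → Bool) (g : Kˣ × K) : g ∈ grp C h ↔ h (C.enc (g.1 : K)) = true := by
  simp [grp]

include C in
theorem card_K : Fintype.card K ≤ q := by
  have : (Finset.univ.image C.enc).card = Fintype.card K := by
    rw [Finset.card_image_of_injective, Finset.card_univ]
    intro x y hxy
    rw [← C.dec_enc x, hxy, C.dec_enc]
  rw [← this]
  calc _ ≤ (Finset.range q).card := Finset.card_le_card (by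
        intro n hn
        obtain ⟨x, -, rfl⟩ := Finset.mem_image.1 hn
        exact Finset.mem_range.2 (C.enc_lt x))
    _ = q := Finset.card_range q

theorem card_grp (h : ℕ → Bool) : (grp C h).card ≤ (List.range q).countP h * q := by
  have h1 : grp C h ⊆ (Finset.univ.filter fun u : Kˣ => h (C.enc (u : K)) = true) ×ˢ
      (Finset.univ : Finset K) := by
    intro g hg
    rw [Finset.mem_product, Finset.mem_filter]
    exact ⟨⟨Finset.mem_univ _, (mem_grp C h g).1 hg⟩, Finset.mem_univ _⟩
  refine (Finset.card_le_card h1).trans ?_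
  rw [Finset.card_product, Finset.card_univ]
  refine Nat.mul_le_mul ?_ (card_K C)
  have h2 : ((Finset.univ.filter fun u : Kˣ => h (C.enc (u : K)) = true).image
      fun u : Kˣ => C.enc (u : K)) ⊆ ((List.range q).filter h).toFinset := by
    intro n hn
    obtain ⟨u, hu, rfl⟩ := Finset.mem_image.1 hn
    rw [List.mem_toFinset, List.mem_filter, List.mem_range]
    exact ⟨C.enc_lt _, (Finset.mem_filter.1 hu).2⟩
  have h3 := Finset.card_le_card h2
  rw [Finset.card_image_of_injective] at h3
  · refine h3.trans ?_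
    rw [List.countP_eq_length_filter]
    exact List.toFinset_card_le _
  · intro u v huv
    apply Units.ext
    have huv' : C.enc (u : K) = C.enc (v : K) := huv
    rw [← C.dec_enc (u : K), huv', C.dec_enc]

/-- all images of a base block -/
def orb (h : ℕ → Bool) (l : List ℕ) : Finset (Finset (C2.Pt K c f)) :=
  (grp C h).image fun g => (blk C l).image (C2.act X g.1 g.2 0)

theorem mk_unit (h : ℕ → Bool) (hh0 : h 0 = false) (m : ℕ) (hm : m < q) (hmh : h m = true) :
    ∃ u : Kˣ, C.enc (u : K) = m := by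
  have hm0 : C.dec m ≠ 0 := by
    intro h'
    have : m = 0 := by rw [← C.enc_dec m hm, h', C.enc_zero]
    rw [this, hh0] at hmh
    cases hmh
  exact ⟨Units.mk0 (C.dec m) hm0, by rw [Units.val_mk0, C.enc_dec m hm]⟩

theorem image_image_act (hX : ∀ u v e, X (u * v) e = X u (X v e)) (u u' : Kˣ) (a a' : K)
    (S : Finset (C2.Pt K c f)) : (S.image (C2.act X u' a' 0)).image (C2.act X u a 0) =
      S.image (C2.act X (u * u') (u * a' + a) 0) := by
  rw [Finset.image_image]
  apply Finset.image_congr
  intro x _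
  simp only [Function.comp]
  rw [C2.act_act X hX, add_zero]

theorem card_orb (hX : ∀ u v e, X (u * v) e = X u (X v e)) (hX1 : ∀ e, X 1 e = e)
    (H : Subgroup Kˣ) (h : ℕ → Bool) (χ : ℕ → ℕ)
    (hχ : ∀ u e, (X u e).val = (e.val + χ (C.enc (u : K))) % f)
    (hh : ∀ u : Kˣ, h (C.enc u) = true ↔ u ∈ H) (hh0 : h 0 = false)
    (l : BB) (hs : (decide l.2.Nodup && l.2.all fun g =>
      Nat.ble (g.1 + 1) q && Nat.ble (g.2 + 1) q && h g.1 &&
        l.1.all fun x => l.1.any fun y => Nat.beq (C2.img q c f C.add C.mul χ g.1 g.2 0 x) y) = true)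
    (hpos : 1 ≤ l.2.length) :
    (orb C X h l.1 : Finset (Finset (C2.Pt K c f))).card ≤
      (List.range q).countP h * q / l.2.length := by
  simp only [Bool.and_eq_true, decide_eq_true_eq, List.all_eq_true, List.any_eq_true,
    Nat.beq_eq, Nat.ble_eq] at hs
  obtain ⟨hnd, hst⟩ := hs
  set S : Finset (Kˣ × K) := (grp C h).filter fun g =>
    (blk C l.1 : Finset (C2.Pt K c f)).image (C2.act X g.1 g.2 0) = blk C l.1 with hS
  have hSc : l.2.length ≤ S.card := by
    have h1 : l.2.toFinset ⊆ S.image (fun g => (C.enc (g.1 : K), C.enc g.2)) := by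
      intro g hg
      rw [List.mem_toFinset] at hg
      obtain ⟨⟨⟨g1, g2⟩, g3⟩, g4⟩ := hst g hg
      obtain ⟨u, hu⟩ := mk_unit C h hh0 g.1 (by omega) g3
      rw [Finset.mem_image]
      refine ⟨(u, C.dec g.2), ?_, ?_⟩
      · rw [hS, Finset.mem_filter, mem_grp]
        refine ⟨by rw [hu]; exact g3, ?_⟩
        apply Finset.eq_of_subset_of_card_le
        · intro x hx
          obtain ⟨y, hy, rfl⟩ := Finset.mem_image.1 hx
          rw [mem_blk] at hy ⊢
          rw [C2.encX_act C X χ hχ]
          obtain ⟨z, hz, e⟩ := g4 _ hy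
          have hg2 : C.enc (C.dec g.2) = g.2 := C.enc_dec _ (by omega)
          rw [hu, hg2]
          have hz0 : ((0 : Fin c) : ℕ) = 0 := Fin.val_zero c
          rw [hz0, e]
          exact hz
        · rw [Finset.card_image_of_injective _ (C2.act_inj X hX hX1 _ _ _)]
      · have hg2 : C.enc (C.dec g.2) = g.2 := C.enc_dec _ (by omega)
        rw [hu, hg2]
    calc l.2.length = l.2.toFinset.card := (List.toFinset_card_of_nodup hnd).symm
      _ ≤ _ := Finset.card_le_card h1
      _ ≤ S.card := Finset.card_image_le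
  rw [Nat.le_div_iff_mul_le (by omega)]
  refine le_trans ?_ (card_grp C h)
  rw [mul_comm]
  apply Finset.mul_card_image_le_card
  intro b hb
  refine hSc.trans ?_
  obtain ⟨g0, hg0, rfl⟩ := Finset.mem_image.1 hb
  apply Finset.card_le_card_of_injOn (fun g => (g0.1 * g.1, g0.1 * g.2 + g0.2))
  · intro g hg
    rw [Finset.mem_coe, hS, Finset.mem_filter, mem_grp] at hg
    rw [mem_grp] at hg0
    rw [Finset.mem_coe, Finset.mem_filter, mem_grp]
    refine ⟨?_, ?_⟩
    · show h (C.enc ((g0.1 * g.1 : Kˣ) : K)) = true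
      rw [hh] at hg0 hg ⊢
      exact H.mul_mem hg0 hg.1
    · show (blk C l.1 : Finset (C2.Pt K c f)).image (C2.act X (g0.1 * g.1) (g0.1 * g.2 + g0.2) 0) = _
      rw [← image_image_act X hX, hg.2]
  · intro g hg g' hg' e
    simp only [Prod.mk.injEq, mul_right_inj, add_left_inj] at e
    apply Prod.ext
    · exact e.1
    · have := e.2
      exact mul_left_cancel₀ g0.1.ne_zero this

/-- all blocks -/
def allB (h : ℕ → Bool) (base : List BB) : Finset (Finset (C2.Pt K c f)) :=
  base.foldr (fun l s => orb C X h l.1 ∪ s) ∅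

theorem mem_allB (h : ℕ → Bool) (base : List BB) (S : Finset (C2.Pt K c f)) :
    S ∈ allB C X h base ↔ ∃ l ∈ base, S ∈ orb C X h l.1 := by
  induction base with
  | nil => simp [allB]
  | cons l base ih =>
    rw [allB, List.foldr_cons, Finset.mem_union]
    rw [show base.foldr (fun l s => orb C X h l.1 ∪ s) ∅ = allB C X h base from rfl, ih]
    simp

theorem card_allB (h : ℕ → Bool) (base : List BB) (F : BB → ℕ)
    (hF : ∀ l ∈ base, (orb C X h l.1 : Finset (Finset (C2.Pt K c f))).card ≤ F l) :
    (allB C X h base : Finset (Finset (C2.Pt K c f))).card ≤ (base.map F).sum := by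
  induction base with
  | nil => simp [allB]
  | cons l base ih =>
    rw [allB, List.foldr_cons]
    rw [show base.foldr (fun l s => orb C X h l.1 ∪ s) ∅ = allB C X h base from rfl]
    refine (Finset.card_union_le _ _).trans ?_
    rw [List.map_cons, List.sum_cons]
    exact Nat.add_le_add (hF l List.mem_cons_self)
      (ih fun l' hl' => hF l' (List.mem_cons_of_mem _ hl'))

/-- the base point of the copy `i` -/
def Oi (i : Fin c) : C2.Pt K c f := Sum.inl (0, i)

theorem encX_Oi (i : Fin c) : C2.encX C (Oi i : C2.Pt K c f) = q * i.val := by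
  simp [C2.encX, Oi, C.enc_zero]

theorem cert3 (hf : f ≤ 2) (hX : ∀ u v e, X (u * v) e = X u (X v e)) (hX1 : ∀ e, X 1 e = e)
    (H : Subgroup Kˣ) (h : ℕ → Bool) (χ : ℕ → ℕ)
    (hχ : ∀ u e, (X u e).val = (e.val + χ (C.enc (u : K))) % f)
    (hh : ∀ u : Kˣ, h (C.enc u) = true ↔ u ∈ H) (hh0 : h 0 = false) (hq : Fintype.card K = q)
    (mt : ℕ → ℕ) (base : List BB) (CV : List (ℕ × ℕ × List (List (ℕ × ℕ))))
    (hfull : fullOK q c f C.add C.mul h χ mt base CV = true) :
    Dec (C2.Pt K c f) (fun _ => True) := by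
  simp only [fullOK, Bool.and_eq_true] at hfull
  obtain ⟨⟨⟨⟨hb, hs⟩, hcov⟩, hrep⟩, hcnt⟩ := hfull
  simp only [baseOK, List.all_eq_true, Bool.and_eq_true, decide_eq_true_eq, beq_iff_eq] at hb
  rw [stabOK, List.all_eq_true] at hs
  simp only [covOK, List.all_eq_true, Nat.beq_eq] at hcov
  simp only [repOK, List.all_eq_true, List.mem_range, Bool.or_eq_true, Nat.beq_eq,
    List.any_eq_true, Bool.and_eq_true, Nat.ble_eq] at hrep
  rw [cntOK, Bool.and_eq_true, List.all_eq_true, Nat.ble_eq] at hcnt
  obtain ⟨hpos, hcnt⟩ := hcnt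
  have h5 : ∀ b ∈ (allB C X h base : Finset (Finset (C2.Pt K c f))), b.card = 5 := by
    intro b hb'
    rw [mem_allB] at hb'
    obtain ⟨l, hl, hbl⟩ := hb'
    obtain ⟨g, -, rfl⟩ := Finset.mem_image.1 hbl
    obtain ⟨⟨hlen, hnd⟩, hlt⟩ := hb l hl
    rw [Finset.card_image_of_injective _ (C2.act_inj X hX hX1 _ _ _)]
    exact blk_card C l.1 hlen hnd hlt
  have hcard : (allB C X h base : Finset (Finset (C2.Pt K c f))).card ≤
      (base.map fun l => (List.range q).countP h * q / l.2.length).sum := by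
    apply card_allB
    intro l hl
    exact card_orb C X hX hX1 H h χ hχ hh hh0 l (hs l hl)
      (by have := hpos l hl; rwa [Nat.ble_eq] at this)
  have hcovT : ∀ T : Finset (C2.Pt K c f), T.card = 3 →
      ∃ b ∈ (allB C X h base : Finset (Finset (C2.Pt K c f))), T ⊆ b := by
    intro T hT
    have hex : ∃ x : K × Fin c, Sum.inl x ∈ T := by
      by_contra hcon
      push Not at hcon
      have hsub : T ⊆ Finset.univ.image (Sum.inr : Fin f → C2.Pt K c f) := by
        intro y hy
        rcases y with y | y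
        · exact absurd hy (hcon y)
        · simp
      have := Finset.card_le_card hsub
      have h2 : (Finset.univ.image (Sum.inr : Fin f → C2.Pt K c f)).card ≤ f := by
        calc _ ≤ (Finset.univ : Finset (Fin f)).card := Finset.card_image_le
          _ = f := by simp
      omega
    obtain ⟨⟨p, i⟩, hp⟩ := hex
    have : 1 < T.card := by omega
    obtain ⟨Q, hQ, hQp⟩ := Finset.exists_mem_ne this (Sum.inl (p, i))
    set Z := C2.act X 1 (-p) (0 : Fin c) Q with hZ
    have hO : C2.act X 1 (-p) (0 : Fin c) (Sum.inl (p, i) : C2.Pt K c f) = Oi i := by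
      simp [C2.act, Oi]
    have hZO : Z ≠ Oi i := by
      intro h
      apply hQp
      apply C2.act_inj X hX hX1 1 (-p) (0 : Fin c)
      rw [hO, ← h]
    rcases hrep i.val i.2 (C2.encX C Z) (C2.encX_lt C Z) with h' | ⟨⟨hm, hmh⟩, e, he, he1, he2⟩
    · exfalso
      apply hZO
      apply C2.encX_inj C
      rw [h', encX_Oi]
    obtain ⟨w, hw⟩ := mk_unit C h hh0 _ (by omega) hmh
    have hact : C2.encX C (C2.act X w 0 (0 : Fin c) Z) = e.2.1 := by
      rw [C2.encX_act C X χ hχ, hw, C.enc_zero, he2, Fin.val_zero]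
    have hO2 : C2.act X w 0 (0 : Fin c) (Oi i : C2.Pt K c f) = Oi i := by
      simp [C2.act, Oi]
    -- the group element `g` moves `T` to a set containing the two given points
    set u : Kˣ := w with hu
    set a : K := w * (-p) with ha
    have hcomp : ∀ x : C2.Pt K c f, C2.act X u a (0 : Fin c) x = C2.act X w 0 0 (C2.act X 1 (-p) 0 x) := by
      intro x
      rw [C2.act_act X hX]
      simp [hu, ha]
    have huH : u ∈ H := by
      rw [← hh, hw]
      exact hmh
    have t1 : Oi i ∈ T.image (C2.act X u a (0 : Fin c)) := by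
      rw [Finset.mem_image]
      exact ⟨_, hp, by rw [hcomp, hO, hO2]⟩
    set Y := C2.act X w 0 (0 : Fin c) Z with hY
    have t2 : Y ∈ T.image (C2.act X u a (0 : Fin c)) := by
      rw [Finset.mem_image]
      exact ⟨_, hQ, by rw [hcomp]⟩
    have hYO : Y ≠ Oi i := by
      intro h'
      apply hZO
      apply C2.act_inj X hX hX1 w 0 (0 : Fin c)
      rw [hO2]
      exact h'
    have hcardT : (T.image (C2.act X u a (0 : Fin c))).card = 3 := by
      rw [Finset.card_image_of_injective _ (C2.act_inj X hX hX1 u a (0 : Fin c)), hT]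
    have hthird : ∃ x, T.image (C2.act X u a (0 : Fin c)) = {Oi i, Y, x} := by
      have hsub : ({Oi i, Y} : Finset (C2.Pt K c f)) ⊆ T.image (C2.act X u a (0 : Fin c)) := by
        intro y hy
        simp only [Finset.mem_insert, Finset.mem_singleton] at hy
        rcases hy with rfl | rfl
        · exact t1
        · exact t2
      have hc' : (T.image (C2.act X u a (0 : Fin c)) \ {Oi i, Y}).card = 1 := by
        rw [Finset.card_sdiff_of_subset hsub, hcardT, Finset.card_pair hYO.symm]
      obtain ⟨x, hx⟩ := Finset.card_eq_one.1 hc'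
      refine ⟨x, ?_⟩
      rw [← Finset.sdiff_union_of_subset hsub, hx]
      ext y
      simp only [Finset.mem_union, Finset.mem_singleton, Finset.mem_insert]
      tauto
    obtain ⟨x, hx⟩ := hthird
    have hbit0 : (orAll q c f C.add C.mul h χ (mask [q * e.1, e.2.1]) base e.2.2).testBit
        (C2.encX C x) = true := by
      rw [hcov e he, Nat.testBit_two_pow_sub_one]
      simpa using C2.encX_lt C x
    rw [orAll] at hbit0
    obtain ⟨μ, hμ, hbit⟩ := testBit_foldr _ _ hbit0
    rw [List.mem_flatMap] at hμ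
    obtain ⟨⟨l, L⟩, hlL, hμ⟩ := hμ
    rw [List.mem_map] at hμ
    obtain ⟨g, hg, rfl⟩ := hμ
    have hl : l ∈ base := (List.of_mem_zip hlL).1
    split_ifs at hbit with hif
    swap
    · simp at hbit
    simp only [Bool.and_eq_true, Nat.ble_eq, Nat.beq_eq] at hif
    obtain ⟨⟨⟨g1, g2⟩, g3⟩, g4⟩ := hif
    rw [show ∀ m n : ℕ, Nat.land m n = m &&& n from fun _ _ => rfl, land_mask] at g4
    simp only [List.mem_cons, List.not_mem_nil, or_false, forall_eq_or_imp, forall_eq] at g4
    obtain ⟨s0, s1⟩ := g4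
    obtain ⟨k, hk⟩ := mk_unit C h hh0 g.1 (by omega) g3
    have hg2 : C.enc (C.dec g.2) = g.2 := C.enc_dec _ (by omega)
    have hS : ∀ z : C2.Pt K c f, (mask (l.1.map (C2.img q c f C.add C.mul χ g.1 g.2 0))).testBit
        (C2.encX C z) = true → z ∈ (blk C l.1 : Finset (C2.Pt K c f)).image
          (C2.act X k (C.dec g.2) (0 : Fin c)) := by
      intro z hz
      rw [testBit_mask, List.mem_map] at hz
      obtain ⟨n, hn, en⟩ := hz
      obtain ⟨y, rfl⟩ := C2.exists_pt C (c := c) (f := f) n ((hb l hl).2 n hn)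
      rw [Finset.mem_image]
      refine ⟨y, (mem_blk C _ _).2 hn, ?_⟩
      apply C2.encX_inj C
      rw [C2.encX_act C X χ hχ, hk, hg2, Fin.val_zero]
      exact en
    refine ⟨((blk C l.1 : Finset (C2.Pt K c f)).image (C2.act X k (C.dec g.2) (0 : Fin c))).image
      (C2.act X u⁻¹ (-(u⁻¹ * a)) (0 : Fin c)), ?_, ?_⟩
    · rw [mem_allB]
      refine ⟨l, hl, ?_⟩
      rw [image_image_act X hX]
      refine Finset.mem_image.2 ⟨(u⁻¹ * k, u⁻¹ * C.dec g.2 + -(u⁻¹ * a)), ?_, rfl⟩
      rw [mem_grp]
      show h (C.enc ((u⁻¹ * k : Kˣ) : K)) = true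
      rw [hh]
      refine H.mul_mem (H.inv_mem huH) ?_
      rw [← hh, hk]
      exact g3
    · intro y hy
      rw [Finset.mem_image]
      refine ⟨C2.act X u a (0 : Fin c) y, ?_, ?_⟩
      · have : C2.act X u a (0 : Fin c) y ∈ T.image (C2.act X u a (0 : Fin c)) :=
          Finset.mem_image_of_mem _ hy
        rw [hx] at this
        simp only [Finset.mem_insert, Finset.mem_singleton] at this
        rcases this with e' | e' | e'
        · rw [e']
          apply hS
          rw [encX_Oi, ← he1]
          exact s0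
        · rw [e']
          apply hS
          rw [hact]
          exact s1
        · rw [e']
          exact hS _ hbit
      · have := C2.act_inv X hX hX1 u a (0 : Fin c) y
        rwa [neg_zero] at this
  have hv : Fintype.card (C2.Pt K c f) = q * c + f := by
    rw [Fintype.card_sum, Fintype.card_prod, hq, Fintype.card_fin, Fintype.card_fin]
  refine ⟨(allB C X h base : Finset (Finset (C2.Pt K c f))), ?_, ?_, ?_, ?_⟩
  · intro b hb'
    exact h5 b (Finset.mem_coe.1 hb')
  · intro _ _ _ _ _
    trivial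
  · intro T hT _
    obtain ⟨b, hb', hTb⟩ := hcovT T hT
    exact ⟨b, Finset.mem_coe.2 hb', hTb⟩
  · intro T hT b hb' b' hb'' h1 h2
    exact once (q * c + f) hv _ h5 hcovT ((Nat.mul_le_mul_left 60 hcard).trans hcnt) T hT b
      (Finset.mem_coe.1 hb') b' (Finset.mem_coe.1 hb'') h1 h2

end

end C3

end Pool.Agent.H53.S3
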