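import Mathlib
import Pool.Agent.H53.S3.Cert3

namespace Pool.Agent.H53.S3

namespace C3

/-- entry number `x` of a table with entries below `1024` -/
def tbl (T x : ℕ) : ℕ := Nat.shiftRight T (10 * x) % 1024

/-- the multiplier that moves the point `n` to a representative -/
def mtT (q c T T' n : ℕ) : ℕ := if Nat.ble (n + 1) (q * c) then tbl T (n % q) else tbl T' (n - q * c)

/-- `c` copies of the prime field and `f` further fixed points -/
theorem primeCert3 (p c f N T T' : ℕ) (hp : p.Prime) (hc0 : 0 < c) (hf2 : f ≤ 2) (hN : 0 < N)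
    (base : List BB) (CV : List (ℕ × ℕ × List (List (ℕ × ℕ))))
    (hf : fullOK p c f (fun x y => (x + y) % p) (fun x y => (x * y) % p)
      (fun x => Nat.beq (x ^ N % p) 1) (fun _ => 0) (mtT p c T T') base CV = true) :
    Dec (Fin (p * c + f)) (fun _ => True) := by
  have : Fact p.Prime := ⟨hp⟩
  have : NeZero c := ⟨hc0.ne'⟩
  have epow : ∀ (u : (ZMod p)ˣ) (k : ℕ), ((u : ZMod p) ^ k).val = (u : ZMod p).val ^ k % p := by
    intro u k
    rw [← ZMod.val_natCast, Nat.cast_pow, ZMod.natCast_zmod_val]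
  have hiff : ∀ (u : (ZMod p)ˣ) (k : ℕ), Nat.beq ((u : ZMod p).val ^ k % p) 1 = true ↔
      (u : ZMod p) ^ k = 1 := by
    intro u k
    rw [Nat.beq_eq, ← epow]
    constructor
    · intro h
      apply ZMod.val_injective p
      rw [h, ZMod.val_one]
    · intro h
      rw [h, ZMod.val_one]
  have hd := cert3 (c := c) (f := f) (zmodCoding p) (fun _ e => e) hf2 (by intro _ _ _; rfl)
    (by intro _; rfl) (powMonoidHom N : (ZMod p)ˣ →* (ZMod p)ˣ).ker
    (fun x => Nat.beq (x ^ N % p) 1) (fun _ => 0) (by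
      intro _ e
      rw [Nat.add_zero, Nat.mod_eq_of_lt e.2]) (by
      intro u
      rw [MonoidHom.mem_ker, powMonoidHom_apply, Units.ext_iff, Units.val_pow_eq_pow_val,
        Units.val_one]
      exact hiff u N) (by
      rw [zero_pow hN.ne', Nat.zero_mod]
      rfl) (ZMod.card p) (mtT p c T T') base CV hf
  refine hd.equiv (Fintype.equivOfCardEq ?_)
  rw [Fintype.card_sum, Fintype.card_prod, ZMod.card, Fintype.card_fin, Fintype.card_fin,
    Fintype.card_fin]

end C3

end Pool.Agent.H53.S3
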