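import Mathlib
import Pool.Agent.H53.S3.PrimeCert3

namespace Pool.Agent.H53.S3

def base302 : List C3.BB :=
  [([0, 4, 9, 23, 160], [(1, 0), (32, 23), (118, 4)]), ([0, 1, 2, 177, 278], [(1, 0), (150, 2)]),
  ([0, 2, 7, 40, 135], [(1, 0), (8, 135), (19, 2), (59, 40), (64, 7)]), ([0, 1, 3, 49, 138], [(1,
  0)]), ([0, 1, 4, 18, 225], [(1, 0)]), ([0, 1, 5, 158, 237], [(1, 0)]), ([0, 1, 7, 190, 238],
  [(1, 0)]), ([0, 4, 11, 245, 276], [(1, 0)]), ([0, 3, 8, 244, 260], [(1, 0)]), ([0, 2, 5, 235,
  247], [(1, 0)]), ([0, 1, 11, 192, 242], [(1, 0)]), ([0, 5, 12, 231, 269], [(1, 0)]), ([9, 151,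
  155, 160, 174], [(1, 0), (32, 23), (118, 4)]), ([26, 127, 151, 152, 153], [(1, 0), (150, 2)]),
  ([151, 153, 158, 191, 286], [(1, 0), (8, 135), (19, 2), (59, 40), (64, 7)]), ([151, 152, 154,
  200, 289], [(1, 0)]), ([74, 151, 152, 155, 169], [(1, 0)]), ([7, 86, 151, 152, 156], [(1, 0)]),
  ([39, 87, 151, 152, 158], [(1, 0)]), ([94, 125, 151, 155, 162], [(1, 0)]), ([93, 109, 151, 154,
  159], [(1, 0)]), ([84, 96, 151, 153, 156], [(1, 0)]), ([41, 91, 151, 152, 162], [(1, 0)]),
  ([80, 118, 151, 156, 163], [(1, 0)])]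

def cv302 : List (ℕ × ℕ × List (List (ℕ × ℕ))) :=
  [(0, 1, [[(8, 119), (30, 32), (46, 0), (84, 0)], [(1, 0), (1, 150), (75, 1)], [(4, 143), (30,
  92), (34, 0), (46, 132)], [(1, 0), (22, 130), (23, 82), (37, 0), (50, 1), (54, 98), (56, 125),
  (58, 0), (66, 104), (75, 77), (76, 75), (85, 48), (93, 1), (95, 27), (97, 54), (101, 0), (114,
  1), (128, 70), (129, 22), (150, 1)], [(1, 0), (38, 0), (42, 0), (50, 102), (54, 86), (71, 81),
  (80, 71), (97, 66), (101, 50), (109, 1), (113, 1), (150, 1)], [(1, 0), (30, 1), (38, 113),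
  (113, 39), (121, 0), (150, 1)], [(1, 0), (25, 127), (43, 1), (108, 0), (126, 25), (150, 1)],
  [(38, 0), (43, 131), (55, 0), (96, 1), (108, 21), (113, 1)], [(19, 0), (30, 62), (50, 1), (101,
  0), (121, 90), (132, 1)], [(30, 1), (50, 52), (75, 1), (76, 0), (101, 100), (121, 0)], [(1, 0),
  (15, 137), (55, 0), (96, 1), (136, 15), (150, 1)], [(30, 1), (43, 88), (63, 0), (88, 1), (108,
  64), (121, 0)], [], [(3, 73)], [], [], [], [(65, 149), (86, 3)], [(22, 49), (129, 103)], [(39,
  109), (112, 43)], [(66, 54), (85, 98)], [(63, 144), (88, 8)], [(3, 29), (148, 123)], [(4, 133),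
  (147, 19)]]), (0, 151, [[(1, 142), (2, 133), (3, 124), (4, 115), (5, 106), (6, 97), (7, 88),
  (8, 79), (10, 61), (11, 52), (12, 43), (13, 34), (14, 25), (15, 16), (16, 7), (17, 149), (20,
  122), (21, 113), (22, 104), (23, 95), (25, 77), (26, 68), (28, 50), (30, 32), (31, 23), (33,
  5), (35, 138), (37, 120), (39, 102), (42, 75), (44, 57), (46, 39), (47, 30), (51, 145), (55,
  109), (56, 100), (60, 64), (61, 55), (65, 19), (66, 10), (69, 134), (70, 125), (74, 89), (75,
  80), (78, 53), (79, 44), (83, 8), (84, 150), (88, 114), (93, 69)], [], [], [], [], [], [], [],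
  [], [], [], [], [(1, 142), (2, 133), (3, 124), (4, 115), (5, 106), (6, 97), (7, 88), (8, 79),
  (10, 61), (11, 52), (12, 43), (13, 34), (14, 25), (15, 16), (16, 7), (17, 149), (20, 122), (21,
  113), (22, 104), (23, 95), (25, 77), (26, 68), (28, 50), (30, 32), (31, 23), (33, 5), (35,
  138), (37, 120), (39, 102), (42, 75), (44, 57), (46, 39), (47, 30), (51, 145), (55, 109), (56,
  100), (60, 64), (61, 55), (65, 19), (66, 10), (69, 134), (70, 125), (74, 89), (75, 80), (78,
  53), (79, 44), (83, 8), (84, 150), (88, 114), (93, 69)], [], [], [], [], [], [], [], [], [],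
  [], []]), (0, 152, [[(84, 0)], [(6, 145), (29, 93), (44, 0)], [], [], [(41, 138), (60, 91),
  (89, 59), (100, 0)], [(16, 135), (72, 0), (76, 73), (108, 0), (110, 54), (126, 25)], [(4, 147),
  (17, 32), (31, 0), (72, 79), (92, 0), (118, 80)], [(5, 131), (29, 0), (98, 0), (99, 57), (102,
  86), (131, 69)], [(3, 127), (13, 0), (16, 23), (99, 5), (104, 141), (133, 0)], [(9, 0), (35,
  81), (65, 128), (78, 63), (98, 106), (140, 0)], [(17, 115), (34, 117), (70, 0), (78, 0), (99,
  52), (146, 55)], [(17, 0), (20, 62), (32, 0), (104, 111), (147, 20), (149, 10)], [(30, 32)],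
  [(6, 146), (29, 1), (44, 64)], [], [], [(51, 1), (62, 93), (91, 61), (110, 14)], [(25, 127),
  (41, 98), (43, 1), (75, 79), (79, 1), (135, 17)], [(33, 72), (59, 1), (79, 73), (120, 1), (134,
  120), (147, 5)], [(20, 83), (49, 66), (52, 95), (53, 1), (122, 1), (146, 21)], [(18, 1), (47,
  11), (52, 147), (135, 129), (138, 1), (148, 25)], [(11, 1), (53, 46), (73, 89), (86, 24), (116,
  71), (142, 1)], [(5, 97), (52, 100), (73, 1), (81, 1), (117, 35), (134, 37)], [(2, 142), (4,
  132), (47, 41), (119, 1), (131, 90), (134, 1)]]), (1, 0, [[(1, 142), (2, 133), (3, 124), (4,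
  115), (5, 106), (6, 97), (7, 88), (8, 79), (10, 61), (11, 52), (12, 43), (13, 34), (14, 25),
  (15, 16), (16, 7), (17, 149), (20, 122), (21, 113), (22, 104), (23, 95), (25, 77), (26, 68),
  (28, 50), (30, 32), (31, 23), (33, 5), (35, 138), (37, 120), (39, 102), (42, 75), (44, 57),
  (46, 39), (47, 30), (51, 145), (55, 109), (56, 100), (60, 64), (61, 55), (65, 19), (66, 10),
  (69, 134), (70, 125), (74, 89), (75, 80), (78, 53), (79, 44), (83, 8), (84, 150), (88, 114),
  (93, 69)], [], [], [], [], [], [], [], [], [], [], [], [(1, 142), (2, 133), (3, 124), (4, 115),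
  (5, 106), (6, 97), (7, 88), (8, 79), (10, 61), (11, 52), (12, 43), (13, 34), (14, 25), (15,
  16), (16, 7), (17, 149), (20, 122), (21, 113), (22, 104), (23, 95), (25, 77), (26, 68), (28,
  50), (30, 32), (31, 23), (33, 5), (35, 138), (37, 120), (39, 102), (42, 75), (44, 57), (46,
  39), (47, 30), (51, 145), (55, 109), (56, 100), (60, 64), (61, 55), (65, 19), (66, 10), (69,
  134), (70, 125), (74, 89), (75, 80), (78, 53), (79, 44), (83, 8), (84, 150), (88, 114), (93,
  69)], [], [], [], [], [], [], [], [], [], [], []]), (1, 1, [[(30, 32)], [(6, 146), (29, 1),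
  (44, 64)], [], [], [(51, 1), (62, 93), (91, 61), (110, 14)], [(25, 127), (41, 98), (43, 1),
  (75, 79), (79, 1), (135, 17)], [(33, 72), (59, 1), (79, 73), (120, 1), (134, 120), (147, 5)],
  [(20, 83), (49, 66), (52, 95), (53, 1), (122, 1), (146, 21)], [(18, 1), (47, 11), (52, 147),
  (135, 129), (138, 1), (148, 25)], [(11, 1), (53, 46), (73, 89), (86, 24), (116, 71), (142, 1)],
  [(5, 97), (52, 100), (73, 1), (81, 1), (117, 35), (134, 37)], [(2, 142), (4, 132), (47, 41),
  (119, 1), (131, 90), (134, 1)], [(84, 0)], [(6, 145), (29, 93), (44, 0)], [], [], [(41, 138),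
  (60, 91), (89, 59), (100, 0)], [(16, 135), (72, 0), (76, 73), (108, 0), (110, 54), (126, 25)],
  [(4, 147), (17, 32), (31, 0), (72, 79), (92, 0), (118, 80)], [(5, 131), (29, 0), (98, 0), (99,
  57), (102, 86), (131, 69)], [(3, 127), (13, 0), (16, 23), (99, 5), (104, 141), (133, 0)], [(9,
  0), (35, 81), (65, 128), (78, 63), (98, 106), (140, 0)], [(17, 115), (34, 117), (70, 0), (78,
  0), (99, 52), (146, 55)], [(17, 0), (20, 62), (32, 0), (104, 111), (147, 20), (149, 10)]]), (1,
  152, [[], [(3, 73)], [], [], [], [(65, 149), (86, 3)], [(22, 49), (129, 103)], [(39, 109),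
  (112, 43)], [(66, 54), (85, 98)], [(63, 144), (88, 8)], [(3, 29), (148, 123)], [(4, 133), (147,
  19)], [(8, 119), (30, 32), (46, 0), (84, 0)], [(1, 0), (1, 150), (75, 1)], [(4, 143), (30, 92),
  (34, 0), (46, 132)], [(1, 0), (22, 130), (23, 82), (37, 0), (50, 1), (54, 98), (56, 125), (58,
  0), (66, 104), (75, 77), (76, 75), (85, 48), (93, 1), (95, 27), (97, 54), (101, 0), (114, 1),
  (128, 70), (129, 22), (150, 1)], [(1, 0), (38, 0), (42, 0), (50, 102), (54, 86), (71, 81), (80,
  71), (97, 66), (101, 50), (109, 1), (113, 1), (150, 1)], [(1, 0), (30, 1), (38, 113), (113,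
  39), (121, 0), (150, 1)], [(1, 0), (25, 127), (43, 1), (108, 0), (126, 25), (150, 1)], [(38,
  0), (43, 131), (55, 0), (96, 1), (108, 21), (113, 1)], [(19, 0), (30, 62), (50, 1), (101, 0),
  (121, 90), (132, 1)], [(30, 1), (50, 52), (75, 1), (76, 0), (101, 100), (121, 0)], [(1, 0),
  (15, 137), (55, 0), (96, 1), (136, 15), (150, 1)], [(30, 1), (43, 88), (63, 0), (88, 1), (108,
  64), (121, 0)]])]

set_option maxRecDepth 100000 in
theorem dec302 : Dec (Fin 302) (fun _ => True) :=
  C3.primeCert3 151 2 0 150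
    5263769937726313903953867274869619401260537868357584933542914801413505287642711836167798301151059886723109782280154544328848044662010808809617778286786571373236011029099156447730021234782623913800132729438221661580973186851043780409771252750104153119620245416008010606720925037568465767248670681427498870754655832290343661637362137088606454910646677794117273961044135111668683087910939072116281882745367528961770109384232961114067527029524539817423012865
    0
    (by norm_num) (by norm_num) (by norm_num) (by norm_num) base302 cv302 (by decide +kernel)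

end Pool.Agent.H53.S3
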