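import Mathlib
import Pool.Agent.H53.S3.PrimeCert3

namespace Pool.Agent.H53.S3

def base317 : List C3.BB :=
  [([0, 1, 2, 121, 198], [(1, 0), (316, 2)]), ([0, 2, 10, 190, 202], [(1, 0)]), ([0, 1, 3, 10,
  129], [(1, 0)]), ([0, 2, 8, 106, 122], [(1, 0)]), ([0, 1, 6, 97, 181], [(1, 0)]), ([0, 1, 9,
  186, 202], [(1, 0)]), ([0, 1, 4, 26, 62], [(1, 0)]), ([0, 1, 7, 150, 253], [(1, 0)]), ([0, 1,
  5, 15, 209], [(1, 0)]), ([0, 3, 7, 87, 222], [(1, 0)]), ([0, 1, 11, 117, 216], [(1, 0)])]

def cv317 : List (ℕ × ℕ × List (List (ℕ × ℕ))) :=
  [(0, 1, [[(1, 0), (1, 316), (70, 89), (131, 0), (131, 56)], [(95, 1), (222, 0)], [(1, 0), (95,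
  1), (136, 226), (141, 176), (176, 142), (181, 92), (222, 0), (316, 1)], [(53, 211), (64, 190),
  (99, 285), (218, 33), (253, 128), (264, 107)], [(1, 0), (7, 1), (53, 0), (96, 59), (142, 175),
  (175, 143), (221, 259), (264, 1), (310, 0), (316, 1)], [(1, 0), (23, 110), (99, 290), (121, 1),
  (141, 0), (176, 1), (196, 0), (218, 28), (294, 208), (316, 1)], [(1, 0), (26, 291), (38, 280),
  (44, 125), (61, 0), (79, 1), (82, 306), (235, 12), (238, 0), (256, 1), (273, 193), (279, 38),
  (291, 27), (316, 1)], [(1, 0), (39, 278), (40, 24), (53, 264), (100, 217), (104, 0), (112, 1),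
  (136, 0), (181, 1), (205, 0), (213, 1), (217, 101), (264, 54), (277, 294), (278, 40), (316,
  1)], [(1, 0), (67, 263), (79, 239), (95, 160), (101, 130), (148, 0), (169, 1), (216, 188),
  (222, 158), (238, 79), (250, 55), (316, 1)], [(10, 0), (51, 1), (54, 58), (79, 81), (136, 0),
  (181, 1), (238, 237), (263, 260), (266, 0), (307, 1)], [(1, 0), (16, 31), (95, 223), (113, 1),
  (144, 1), (150, 252), (167, 66), (173, 0), (204, 0), (222, 95), (301, 287), (316, 1)]]), (0, 2,
  [[(1, 0), (16, 2), (16, 285), (37, 280), (37, 282)], [(1, 0), (10, 2), (53, 74), (79, 161),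
  (81, 143), (113, 0), (142, 165), (145, 29), (149, 19), (168, 300), (172, 290), (175, 154),
  (204, 2), (236, 176), (238, 158), (264, 245), (307, 0), (316, 2)], [(1, 316), (16, 157), (104,
  215), (105, 2), (145, 0), (156, 166), (161, 153), (172, 2), (212, 0), (213, 104), (301, 162),
  (316, 3)], [(1, 0), (6, 0), (26, 0), (37, 243), (79, 2), (89, 239), (110, 71), (207, 248),
  (228, 80), (238, 0), (280, 76), (291, 2), (311, 2), (316, 2)], [(49, 2), (63, 256), (81, 238),
  (83, 193), (101, 30), (216, 289), (234, 126), (236, 81), (254, 63), (268, 0)], [(24, 293), (77,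
  260), (79, 240), (82, 237), (113, 0), (204, 2), (235, 82), (238, 79), (240, 59), (293, 26)],
  [(92, 2), (105, 214), (144, 60), (173, 259), (212, 105), (225, 0)], [(51, 277), (67, 167),
  (250, 152), (266, 42)], [(63, 2), (64, 255), (135, 0), (136, 181), (181, 138), (182, 2), (253,
  64), (254, 0)], [(83, 70), (87, 25), (103, 232), (105, 2), (110, 306), (207, 13), (212, 0),
  (214, 87), (230, 294), (234, 249)], [(6, 251), (82, 235), (87, 230), (149, 2), (168, 0), (230,
  89), (235, 84), (311, 68)]])]

set_option maxRecDepth 100000 in
theorem dec317 : Dec (Fin 317) (fun _ => True) :=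
  C3.primeCert3 317 1 0 158
    568718593464764604936859665297799712536871773108044434368748775043929492125077264974340423459743502586905138718584984525582141036461740728048858766629347784392744865188048326125658390234817619126577186263437909156296245824426782187522520729675649086251741005763773028301895944226974800001142009735751848929296873000501273731836552259543404069154094556541302551378861107967987605193638405440099024351290092088133317179587185600409821892772820510454304330372286366520943635487870548913336350461843907836080838088571077509401088569807182905864434702382310287147610066344309166717508312919598431341472947729276369201600781622774645592678147769805724005887351169351421195018050619074490782918168124268098026360106393755168102818522274809780051949321320466676228150296878580971118402411290768486535143844734624485886225553599939587697938854129402885919406955903433524520730120707017250618810834406627156240775661777105418290992867426800006378663210178260763649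
    0
    (by norm_num) (by norm_num) (by norm_num) (by norm_num) base317 cv317 (by decide +kernel)

end Pool.Agent.H53.S3
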