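import Mathlib
import Pool.Agent.H53.S3.PrimeCert3

namespace Pool.Agent.H53.S3

def base326 : List C3.BB :=
  [([0, 3, 11, 149, 163], [(1, 0), (58, 0), (104, 0)]), ([0, 1, 2, 189, 302], [(1, 0), (162,
  2)]), ([0, 1, 3, 22, 102], [(1, 0)]), ([0, 1, 4, 19, 228], [(1, 0)]), ([0, 2, 11, 216, 247],
  [(1, 0)]), ([0, 4, 11, 219, 309], [(1, 0)]), ([0, 1, 5, 11, 312], [(1, 0)]), ([0, 1, 7, 272,
  297], [(1, 0)]), ([0, 2, 13, 192, 197], [(1, 0)]), ([0, 3, 7, 230, 319], [(1, 0)]), ([0, 1, 10,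
  212, 264], [(1, 0)]), ([0, 1, 12, 292, 299], [(1, 0)]), ([0, 163, 166, 174, 312], [(1, 0), (58,
  0), (104, 0)]), ([26, 139, 163, 164, 165], [(1, 0), (162, 2)]), ([163, 164, 166, 185, 265],
  [(1, 0)]), ([65, 163, 164, 167, 182], [(1, 0)]), ([53, 84, 163, 165, 174], [(1, 0)]), ([56,
  146, 163, 167, 174], [(1, 0)]), ([149, 163, 164, 168, 174], [(1, 0)]), ([109, 134, 163, 164,
  170], [(1, 0)]), ([29, 34, 163, 165, 176], [(1, 0)]), ([67, 156, 163, 166, 170], [(1, 0)]),
  ([49, 101, 163, 164, 173], [(1, 0)]), ([129, 136, 163, 164, 175], [(1, 0)])]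

def cv326 : List (ℕ × ℕ × List (List (ℕ × ℕ))) :=
  [(0, 1, [[(13, 20), (35, 1), (61, 144), (89, 0)], [(1, 0), (1, 162), (81, 1)], [(1, 0), (8, 0),
  (28, 79), (31, 133), (37, 1), (54, 1), (55, 95), (60, 147), (71, 93), (81, 83), (82, 81), (92,
  71), (103, 17), (108, 69), (109, 0), (126, 0), (132, 31), (135, 85), (155, 1), (162, 1)], [(1,
  0), (9, 155), (41, 0), (54, 110), (60, 1), (76, 23), (87, 141), (103, 0), (109, 54), (122, 1),
  (154, 9), (162, 1)], [(18, 128), (74, 1), (81, 1), (82, 0), (89, 0), (145, 36)], [(41, 0), (70,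
  46), (74, 1), (89, 0), (93, 118), (122, 1)], [(1, 0), (27, 29), (41, 122), (49, 114), (65, 1),
  (74, 1), (89, 0), (98, 0), (114, 50), (122, 42), (136, 135), (162, 1)], [(1, 0), (27, 137),
  (70, 0), (93, 1), (136, 27), (162, 1)], [(25, 1), (74, 16), (81, 1), (82, 0), (89, 148), (138,
  0)], [(41, 40), (54, 1), (70, 0), (93, 1), (109, 0), (122, 124)], [(1, 0), (18, 146), (49, 0),
  (114, 1), (145, 18), (162, 1)], [(1, 0), (68, 0), (74, 90), (89, 74), (95, 1), (162, 1)], [],
  [(75, 7)], [], [], [(21, 29), (142, 135)], [(67, 161), (96, 3)], [], [(13, 51), (150, 113)],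
  [(65, 72), (98, 92)], [(11, 78), (152, 86)], [(47, 143), (116, 21)], [(70, 98), (93, 66)]]),
  (0, 163, [[(1, 0), (2, 0), (3, 0), (4, 0), (5, 0), (6, 0), (7, 0), (8, 0), (9, 0), (10, 0),
  (12, 0), (13, 0), (14, 0), (15, 0), (16, 0), (18, 0), (19, 0), (21, 0), (23, 0), (24, 0), (25,
  0), (26, 0), (27, 0), (28, 0), (29, 0), (32, 0), (35, 0), (36, 0), (38, 0), (39, 0), (42, 0),
  (43, 0), (46, 0), (47, 0), (50, 0), (53, 0), (56, 0), (59, 0), (61, 0), (64, 0), (67, 0), (70,
  0), (72, 0), (73, 0), (75, 0), (78, 0), (81, 0), (83, 0), (84, 0), (86, 0), (89, 0), (92, 0),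
  (95, 0), (103, 0)], [], [], [], [], [], [], [], [], [], [], [], [(1, 0), (2, 0), (3, 0), (4,
  0), (5, 0), (6, 0), (7, 0), (8, 0), (9, 0), (10, 0), (12, 0), (13, 0), (14, 0), (15, 0), (16,
  0), (18, 0), (19, 0), (21, 0), (23, 0), (24, 0), (25, 0), (26, 0), (27, 0), (28, 0), (29, 0),
  (32, 0), (35, 0), (36, 0), (38, 0), (39, 0), (42, 0), (43, 0), (46, 0), (47, 0), (50, 0), (53,
  0), (56, 0), (59, 0), (61, 0), (64, 0), (67, 0), (70, 0), (72, 0), (73, 0), (75, 0), (78, 0),
  (81, 0), (83, 0), (84, 0), (86, 0), (89, 0), (92, 0), (95, 0), (103, 0)], [], [], [], [], [],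
  [], [], [], [], [], []]), (0, 164, [[(35, 1)], [(13, 150), (34, 95), (69, 0)], [], [(39, 74),
  (135, 28), (155, 32), (158, 0)], [(2, 159), (16, 131), (33, 0), (40, 0), (66, 89), (67, 78)],
  [(29, 7), (31, 39), (64, 111), (115, 0), (116, 25), (131, 0)], [(13, 20), (60, 26), (76, 87),
  (128, 0)], [(3, 0), (8, 107), (38, 125), (80, 83), (86, 50), (118, 0)], [(24, 0), (45, 0), (51,
  152), (107, 112), (132, 77), (157, 12)], [(73, 0), (93, 0), (114, 147), (128, 82), (135, 84),
  (144, 133)], [(10, 0), (17, 146), (43, 59), (46, 29), (92, 0), (119, 44)], [(6, 0), (64, 99),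
  (117, 63), (124, 142), (139, 0), (149, 14)], [(89, 0)], [(13, 151), (34, 1), (69, 26)], [],
  [(5, 1), (8, 132), (28, 136), (124, 90)], [(96, 86), (97, 75), (123, 1), (130, 1), (147, 33),
  (161, 5)], [(32, 1), (47, 139), (48, 1), (99, 53), (132, 125), (134, 157)], [(35, 1), (87, 77),
  (103, 138), (150, 144)], [(45, 1), (77, 114), (83, 81), (125, 39), (155, 57), (160, 1)], [(6,
  152), (31, 87), (56, 52), (112, 12), (118, 1), (139, 1)], [(19, 31), (28, 80), (35, 82), (49,
  17), (70, 1), (90, 1)], [(44, 120), (71, 1), (117, 135), (120, 105), (146, 18), (153, 1)],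
  [(14, 150), (24, 1), (39, 22), (46, 101), (99, 65), (157, 1)]]), (1, 0, [[(1, 0), (2, 0), (3,
  0), (4, 0), (5, 0), (6, 0), (7, 0), (8, 0), (9, 0), (10, 0), (12, 0), (13, 0), (14, 0), (15,
  0), (16, 0), (18, 0), (19, 0), (21, 0), (23, 0), (24, 0), (25, 0), (26, 0), (27, 0), (28, 0),
  (29, 0), (32, 0), (35, 0), (36, 0), (38, 0), (39, 0), (42, 0), (43, 0), (46, 0), (47, 0), (50,
  0), (53, 0), (56, 0), (59, 0), (61, 0), (64, 0), (67, 0), (70, 0), (72, 0), (73, 0), (75, 0),
  (78, 0), (81, 0), (83, 0), (84, 0), (86, 0), (89, 0), (92, 0), (95, 0), (103, 0)], [], [], [],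
  [], [], [], [], [], [], [], [], [(1, 0), (2, 0), (3, 0), (4, 0), (5, 0), (6, 0), (7, 0), (8,
  0), (9, 0), (10, 0), (12, 0), (13, 0), (14, 0), (15, 0), (16, 0), (18, 0), (19, 0), (21, 0),
  (23, 0), (24, 0), (25, 0), (26, 0), (27, 0), (28, 0), (29, 0), (32, 0), (35, 0), (36, 0), (38,
  0), (39, 0), (42, 0), (43, 0), (46, 0), (47, 0), (50, 0), (53, 0), (56, 0), (59, 0), (61, 0),
  (64, 0), (67, 0), (70, 0), (72, 0), (73, 0), (75, 0), (78, 0), (81, 0), (83, 0), (84, 0), (86,
  0), (89, 0), (92, 0), (95, 0), (103, 0)], [], [], [], [], [], [], [], [], [], [], []]), (1, 1,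
  [[(89, 0)], [(13, 151), (34, 1), (69, 26)], [], [(5, 1), (8, 132), (28, 136), (124, 90)], [(96,
  86), (97, 75), (123, 1), (130, 1), (147, 33), (161, 5)], [(32, 1), (47, 139), (48, 1), (99,
  53), (132, 125), (134, 157)], [(35, 1), (87, 77), (103, 138), (150, 144)], [(45, 1), (77, 114),
  (83, 81), (125, 39), (155, 57), (160, 1)], [(6, 152), (31, 87), (56, 52), (112, 12), (118, 1),
  (139, 1)], [(19, 31), (28, 80), (35, 82), (49, 17), (70, 1), (90, 1)], [(44, 120), (71, 1),
  (117, 135), (120, 105), (146, 18), (153, 1)], [(14, 150), (24, 1), (39, 22), (46, 101), (99,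
  65), (157, 1)], [(35, 1)], [(13, 150), (34, 95), (69, 0)], [], [(39, 74), (135, 28), (155, 32),
  (158, 0)], [(2, 159), (16, 131), (33, 0), (40, 0), (66, 89), (67, 78)], [(29, 7), (31, 39),
  (64, 111), (115, 0), (116, 25), (131, 0)], [(13, 20), (60, 26), (76, 87), (128, 0)], [(3, 0),
  (8, 107), (38, 125), (80, 83), (86, 50), (118, 0)], [(24, 0), (45, 0), (51, 152), (107, 112),
  (132, 77), (157, 12)], [(73, 0), (93, 0), (114, 147), (128, 82), (135, 84), (144, 133)], [(10,
  0), (17, 146), (43, 59), (46, 29), (92, 0), (119, 44)], [(6, 0), (64, 99), (117, 63), (124,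
  142), (139, 0), (149, 14)]]), (1, 164, [[], [(75, 7)], [], [], [(21, 29), (142, 135)], [(67,
  161), (96, 3)], [], [(13, 51), (150, 113)], [(65, 72), (98, 92)], [(11, 78), (152, 86)], [(47,
  143), (116, 21)], [(70, 98), (93, 66)], [(13, 20), (35, 1), (61, 144), (89, 0)], [(1, 0), (1,
  162), (81, 1)], [(1, 0), (8, 0), (28, 79), (31, 133), (37, 1), (54, 1), (55, 95), (60, 147),
  (71, 93), (81, 83), (82, 81), (92, 71), (103, 17), (108, 69), (109, 0), (126, 0), (132, 31),
  (135, 85), (155, 1), (162, 1)], [(1, 0), (9, 155), (41, 0), (54, 110), (60, 1), (76, 23), (87,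
  141), (103, 0), (109, 54), (122, 1), (154, 9), (162, 1)], [(18, 128), (74, 1), (81, 1), (82,
  0), (89, 0), (145, 36)], [(41, 0), (70, 46), (74, 1), (89, 0), (93, 118), (122, 1)], [(1, 0),
  (27, 29), (41, 122), (49, 114), (65, 1), (74, 1), (89, 0), (98, 0), (114, 50), (122, 42), (136,
  135), (162, 1)], [(1, 0), (27, 137), (70, 0), (93, 1), (136, 27), (162, 1)], [(25, 1), (74,
  16), (81, 1), (82, 0), (89, 148), (138, 0)], [(41, 40), (54, 1), (70, 0), (93, 1), (109, 0),
  (122, 124)], [(1, 0), (18, 146), (49, 0), (114, 1), (145, 18), (162, 1)], [(1, 0), (68, 0),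
  (74, 90), (89, 74), (95, 1), (162, 1)]])]

set_option maxRecDepth 100000 in
theorem dec326 : Dec (Fin 326) (fun _ => True) :=
  C3.primeCert3 163 2 0 162
    7556490393764232353509967590708148949991658937207177563129665656125277640678173744386656858907160727620352919101945027433307111613631462114186847568035595409355768141484258642676979152436265990691282632713297703027725425803216476399093174607264574244848802293763360106465541776881173290816920008867905329082127270607502710416426718488470565565938301648099241104633914515355303116714562779056557698177420448411507030660163180803354054075095578964286217591035430335664415307226923338437755905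
    0
    (by norm_num) (by norm_num) (by norm_num) (by norm_num) base326 cv326 (by decide +kernel)

end Pool.Agent.H53.S3
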