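import Mathlib
import Pool.Agent.H53.S3.PrimeCert3

namespace Pool.Agent.H53.S3

def base362 : List C3.BB :=
  [([0, 1, 48, 132, 181], [(1, 0), (48, 0), (132, 0)]), ([0, 1, 2, 264, 281], [(1, 0), (180,
  2)]), ([0, 1, 4, 126, 139], [(1, 0), (42, 139), (59, 126), (125, 1), (135, 4)]), ([0, 1, 5, 26,
  94], [(1, 0)]), ([0, 1, 3, 76, 326], [(1, 0)]), ([0, 1, 11, 70, 294], [(1, 0)]), ([0, 1, 8,
  315, 317], [(1, 0)]), ([0, 1, 24, 235, 241], [(1, 0)]), ([0, 1, 12, 277, 324], [(1, 0)]), ([0,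
  1, 41, 320, 359], [(1, 0)]), ([0, 1, 47, 318, 335], [(1, 0)]), ([0, 1, 62, 215, 293], [(1,
  0)]), ([0, 1, 9, 213, 248], [(1, 0)]), ([0, 1, 39, 356, 360], [(1, 0)]), ([0, 181, 182, 229,
  313], [(1, 0), (48, 0), (132, 0)]), ([83, 100, 181, 182, 183], [(1, 0), (180, 2)]), ([181, 182,
  185, 307, 320], [(1, 0), (42, 139), (59, 126), (125, 1), (135, 4)]), ([181, 182, 186, 207,
  275], [(1, 0)]), ([145, 181, 182, 184, 257], [(1, 0)]), ([113, 181, 182, 192, 251], [(1, 0)]),
  ([134, 136, 181, 182, 189], [(1, 0)]), ([54, 60, 181, 182, 205], [(1, 0)]), ([96, 143, 181,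
  182, 193], [(1, 0)]), ([139, 178, 181, 182, 222], [(1, 0)]), ([137, 154, 181, 182, 228], [(1,
  0)]), ([34, 112, 181, 182, 243], [(1, 0)]), ([32, 67, 181, 182, 190], [(1, 0)]), ([175, 179,
  181, 182, 220], [(1, 0)])]

def cv362 : List (ℕ × ℕ × List (List (ℕ × ℕ))) :=
  [(0, 1, [[(1, 0), (28, 105), (49, 1), (104, 77)], [(1, 0), (1, 180), (90, 1)], [(1, 0), (14,
  46), (46, 178), (60, 122)], [(1, 0), (7, 0), (8, 154), (29, 152), (36, 1), (45, 137), (52, 0),
  (61, 58), (69, 17), (72, 110), (109, 72), (112, 165), (120, 124), (129, 1), (136, 45), (145,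
  0), (152, 30), (173, 28), (174, 1), (180, 1)], [(1, 0), (50, 1), (60, 1), (62, 176), (70, 111),
  (90, 92), (91, 90), (111, 71), (119, 6), (121, 0), (131, 0), (180, 1)], [(1, 0), (18, 164),
  (21, 160), (33, 0), (46, 38), (75, 0), (106, 1), (135, 144), (148, 1), (160, 22), (163, 18),
  (180, 1)], [(1, 0), (26, 155), (68, 0), (113, 1), (155, 27), (180, 1)], [(1, 0), (63, 118),
  (83, 0), (98, 1), (118, 64), (180, 1)], [(1, 0), (15, 1), (33, 148), (148, 34), (166, 0), (180,
  1)], [(1, 0), (53, 0), (86, 95), (95, 87), (128, 1), (180, 1)], [(1, 0), (59, 123), (77, 1),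
  (104, 0), (122, 59), (180, 1)], [(1, 0), (73, 0), (89, 93), (92, 89), (108, 1), (180, 1)], [(1,
  0), (20, 1), (68, 113), (113, 69), (161, 0), (180, 1)], [(1, 0), (65, 0), (81, 100), (100, 82),
  (116, 1), (180, 1)], [], [(32, 59)], [], [], [], [], [(90, 68), (91, 114)], [(30, 10), (151,
  172)], [(77, 30), (104, 152)], [(65, 15), (116, 167)], [(32, 141), (149, 41)], [(58, 20), (123,
  162)], [(31, 95), (150, 87)], [(45, 90), (136, 92)]]), (0, 181, [[(1, 0), (2, 0), (3, 0), (4,
  0), (5, 0), (6, 0), (7, 0), (8, 0), (9, 0), (10, 0), (12, 0), (13, 0), (14, 0), (15, 0), (16,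
  0), (17, 0), (18, 0), (20, 0), (21, 0), (24, 0), (25, 0), (26, 0), (27, 0), (28, 0), (30, 0),
  (31, 0), (32, 0), (35, 0), (36, 0), (37, 0), (39, 0), (41, 0), (43, 0), (45, 0), (47, 0), (49,
  0), (52, 0), (54, 0), (56, 0), (60, 0), (63, 0), (64, 0), (67, 0), (71, 0), (74, 0), (75, 0),
  (78, 0), (79, 0), (82, 0), (85, 0), (86, 0), (89, 0), (90, 0), (93, 0), (94, 0), (97, 0), (101,
  0), (104, 0), (108, 0), (112, 0)], [], [], [], [], [], [], [], [], [], [], [], [], [], [(1, 0),
  (2, 0), (3, 0), (4, 0), (5, 0), (6, 0), (7, 0), (8, 0), (9, 0), (10, 0), (12, 0), (13, 0), (14,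
  0), (15, 0), (16, 0), (17, 0), (18, 0), (20, 0), (21, 0), (24, 0), (25, 0), (26, 0), (27, 0),
  (28, 0), (30, 0), (31, 0), (32, 0), (35, 0), (36, 0), (37, 0), (39, 0), (41, 0), (43, 0), (45,
  0), (47, 0), (49, 0), (52, 0), (54, 0), (56, 0), (60, 0), (63, 0), (64, 0), (67, 0), (71, 0),
  (74, 0), (75, 0), (78, 0), (79, 0), (82, 0), (85, 0), (86, 0), (89, 0), (90, 0), (93, 0), (94,
  0), (97, 0), (101, 0), (104, 0), (108, 0), (112, 0)], [], [], [], [], [], [], [], [], [], [],
  [], [], []]), (0, 182, [[(49, 1)], [(24, 0), (38, 105), (64, 117)], [], [], [(5, 0), (21, 33),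
  (44, 137), (116, 14)], [(80, 11), (126, 62), (160, 21), (173, 0)], [(4, 0), (49, 132), (59,
  122), (77, 0), (102, 89), (140, 147)], [(41, 140), (57, 0), (135, 46), (175, 144), (176, 120),
  (178, 0)], [(66, 0), (76, 174), (100, 0), (116, 65), (141, 40), (153, 155)], [(37, 112), (45,
  136), (56, 0), (60, 0), (101, 80), (157, 79)], [(4, 177), (22, 52), (37, 0), (67, 0), (84, 97),
  (179, 94)], [(11, 170), (16, 0), (84, 41), (105, 6), (106, 75), (160, 0)], [(17, 0), (63, 157),
  (96, 85), (103, 159), (146, 35), (154, 0)], [(4, 25), (30, 0), (60, 121), (90, 0), (128, 76),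
  (155, 26)], [(1, 0)], [(24, 134), (38, 1), (64, 118)], [], [], [(65, 168), (137, 45), (160,
  149), (176, 1)], [(8, 1), (21, 161), (55, 120), (101, 171)], [(41, 35), (79, 93), (104, 1),
  (122, 60), (132, 50), (177, 1)], [(3, 1), (5, 62), (6, 38), (46, 136), (124, 1), (140, 42)],
  [(28, 27), (40, 142), (65, 117), (81, 1), (105, 8), (115, 1)], [(24, 103), (80, 102), (121, 1),
  (125, 1), (136, 46), (144, 70)], [(2, 88), (97, 85), (114, 1), (144, 1), (159, 130), (177, 5)],
  [(21, 1), (75, 107), (76, 176), (97, 141), (165, 1), (170, 12)], [(27, 1), (35, 147), (78, 23),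
  (85, 97), (118, 25), (164, 1)], [(26, 156), (53, 106), (91, 1), (121, 61), (151, 1), (177,
  157)]]), (1, 0, [[(1, 0), (2, 0), (3, 0), (4, 0), (5, 0), (6, 0), (7, 0), (8, 0), (9, 0), (10,
  0), (12, 0), (13, 0), (14, 0), (15, 0), (16, 0), (17, 0), (18, 0), (20, 0), (21, 0), (24, 0),
  (25, 0), (26, 0), (27, 0), (28, 0), (30, 0), (31, 0), (32, 0), (35, 0), (36, 0), (37, 0), (39,
  0), (41, 0), (43, 0), (45, 0), (47, 0), (49, 0), (52, 0), (54, 0), (56, 0), (60, 0), (63, 0),
  (64, 0), (67, 0), (71, 0), (74, 0), (75, 0), (78, 0), (79, 0), (82, 0), (85, 0), (86, 0), (89,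
  0), (90, 0), (93, 0), (94, 0), (97, 0), (101, 0), (104, 0), (108, 0), (112, 0)], [], [], [],
  [], [], [], [], [], [], [], [], [], [], [(1, 0), (2, 0), (3, 0), (4, 0), (5, 0), (6, 0), (7,
  0), (8, 0), (9, 0), (10, 0), (12, 0), (13, 0), (14, 0), (15, 0), (16, 0), (17, 0), (18, 0),
  (20, 0), (21, 0), (24, 0), (25, 0), (26, 0), (27, 0), (28, 0), (30, 0), (31, 0), (32, 0), (35,
  0), (36, 0), (37, 0), (39, 0), (41, 0), (43, 0), (45, 0), (47, 0), (49, 0), (52, 0), (54, 0),
  (56, 0), (60, 0), (63, 0), (64, 0), (67, 0), (71, 0), (74, 0), (75, 0), (78, 0), (79, 0), (82,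
  0), (85, 0), (86, 0), (89, 0), (90, 0), (93, 0), (94, 0), (97, 0), (101, 0), (104, 0), (108,
  0), (112, 0)], [], [], [], [], [], [], [], [], [], [], [], [], []]), (1, 1, [[(1, 0)], [(24,
  134), (38, 1), (64, 118)], [], [], [(65, 168), (137, 45), (160, 149), (176, 1)], [(8, 1), (21,
  161), (55, 120), (101, 171)], [(41, 35), (79, 93), (104, 1), (122, 60), (132, 50), (177, 1)],
  [(3, 1), (5, 62), (6, 38), (46, 136), (124, 1), (140, 42)], [(28, 27), (40, 142), (65, 117),
  (81, 1), (105, 8), (115, 1)], [(24, 103), (80, 102), (121, 1), (125, 1), (136, 46), (144, 70)],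
  [(2, 88), (97, 85), (114, 1), (144, 1), (159, 130), (177, 5)], [(21, 1), (75, 107), (76, 176),
  (97, 141), (165, 1), (170, 12)], [(27, 1), (35, 147), (78, 23), (85, 97), (118, 25), (164, 1)],
  [(26, 156), (53, 106), (91, 1), (121, 61), (151, 1), (177, 157)], [(49, 1)], [(24, 0), (38,
  105), (64, 117)], [], [], [(5, 0), (21, 33), (44, 137), (116, 14)], [(80, 11), (126, 62), (160,
  21), (173, 0)], [(4, 0), (49, 132), (59, 122), (77, 0), (102, 89), (140, 147)], [(41, 140),
  (57, 0), (135, 46), (175, 144), (176, 120), (178, 0)], [(66, 0), (76, 174), (100, 0), (116,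
  65), (141, 40), (153, 155)], [(37, 112), (45, 136), (56, 0), (60, 0), (101, 80), (157, 79)],
  [(4, 177), (22, 52), (37, 0), (67, 0), (84, 97), (179, 94)], [(11, 170), (16, 0), (84, 41),
  (105, 6), (106, 75), (160, 0)], [(17, 0), (63, 157), (96, 85), (103, 159), (146, 35), (154,
  0)], [(4, 25), (30, 0), (60, 121), (90, 0), (128, 76), (155, 26)]]), (1, 182, [[], [(32, 59)],
  [], [], [], [], [(90, 68), (91, 114)], [(30, 10), (151, 172)], [(77, 30), (104, 152)], [(65,
  15), (116, 167)], [(32, 141), (149, 41)], [(58, 20), (123, 162)], [(31, 95), (150, 87)], [(45,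
  90), (136, 92)], [(1, 0), (28, 105), (49, 1), (104, 77)], [(1, 0), (1, 180), (90, 1)], [(1, 0),
  (14, 46), (46, 178), (60, 122)], [(1, 0), (7, 0), (8, 154), (29, 152), (36, 1), (45, 137), (52,
  0), (61, 58), (69, 17), (72, 110), (109, 72), (112, 165), (120, 124), (129, 1), (136, 45),
  (145, 0), (152, 30), (173, 28), (174, 1), (180, 1)], [(1, 0), (50, 1), (60, 1), (62, 176), (70,
  111), (90, 92), (91, 90), (111, 71), (119, 6), (121, 0), (131, 0), (180, 1)], [(1, 0), (18,
  164), (21, 160), (33, 0), (46, 38), (75, 0), (106, 1), (135, 144), (148, 1), (160, 22), (163,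
  18), (180, 1)], [(1, 0), (26, 155), (68, 0), (113, 1), (155, 27), (180, 1)], [(1, 0), (63,
  118), (83, 0), (98, 1), (118, 64), (180, 1)], [(1, 0), (15, 1), (33, 148), (148, 34), (166, 0),
  (180, 1)], [(1, 0), (53, 0), (86, 95), (95, 87), (128, 1), (180, 1)], [(1, 0), (59, 123), (77,
  1), (104, 0), (122, 59), (180, 1)], [(1, 0), (73, 0), (89, 93), (92, 89), (108, 1), (180, 1)],
  [(1, 0), (20, 1), (68, 113), (113, 69), (161, 0), (180, 1)], [(1, 0), (65, 0), (81, 100), (100,
  82), (116, 1), (180, 1)]])]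

set_option maxRecDepth 100000 in
theorem dec362 : Dec (Fin 362) (fun _ => True) :=
  C3.primeCert3 181 2 0 180
    12866986475127070378723330771559875530379630811500033637085075341796550994077440674173281743970366343924907176890879757187115645150991614896242971653730431170245078575446759650013058792723604808653828282984182738179182111379331450592011207547252722194530016626072236014317153336583892530038640288462743791462045980325364592152465625784117724729262910085703329203717139385336690071409349408582646570064627281772704215168532590906261224758822628289966408310083938561579465722331866241209190243249797931121198390168613513487843397598091419453490177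
    0
    (by norm_num) (by norm_num) (by norm_num) (by norm_num) base362 cv362 (by decide +kernel)

end Pool.Agent.H53.S3
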