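import Mathlib
import Pool.Agent.H53.S3.PrimeCert

namespace Pool.Agent.H53.S3

/-- the field with 125 elements, as polynomials `a + b x + c x²` with `x³ = 3 + 4 x²` -/
@[ext] structure F125 where
  a : ZMod 5
  b : ZMod 5
  c : ZMod 5
  deriving DecidableEq

namespace F125

instance : Zero F125 := ⟨⟨0, 0, 0⟩⟩
instance : One F125 := ⟨⟨1, 0, 0⟩⟩
instance : Add F125 := ⟨fun x y => ⟨x.a + y.a, x.b + y.b, x.c + y.c⟩⟩
instance : Neg F125 := ⟨fun x => ⟨-x.a, -x.b, -x.c⟩⟩
instance : Mul F125 := ⟨fun x y =>
  ⟨x.a * y.a + 3 * (x.b * y.c + x.c * y.b) + 12 * (x.c * y.c),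
   x.a * y.b + x.b * y.a + 3 * (x.c * y.c),
   x.a * y.c + x.b * y.b + x.c * y.a + 4 * (x.b * y.c + x.c * y.b) + 16 * (x.c * y.c)⟩⟩

@[simp] theorem zero_a : (0 : F125).a = 0 := rfl
@[simp] theorem zero_b : (0 : F125).b = 0 := rfl
@[simp] theorem zero_c : (0 : F125).c = 0 := rfl
@[simp] theorem one_a : (1 : F125).a = 1 := rfl
@[simp] theorem one_b : (1 : F125).b = 0 := rfl
@[simp] theorem one_c : (1 : F125).c = 0 := rfl
@[simp] theorem add_a (x y : F125) : (x + y).a = x.a + y.a := rfl
@[simp] theorem add_b (x y : F125) : (x + y).b = x.b + y.b := rfl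
@[simp] theorem add_c (x y : F125) : (x + y).c = x.c + y.c := rfl
@[simp] theorem neg_a (x : F125) : (-x).a = -x.a := rfl
@[simp] theorem neg_b (x : F125) : (-x).b = -x.b := rfl
@[simp] theorem neg_c (x : F125) : (-x).c = -x.c := rfl
@[simp] theorem mul_a (x y : F125) : (x * y).a =
  x.a * y.a + 3 * (x.b * y.c + x.c * y.b) + 12 * (x.c * y.c) := rfl
@[simp] theorem mul_b (x y : F125) : (x * y).b =
  x.a * y.b + x.b * y.a + 3 * (x.c * y.c) := rfl
@[simp] theorem mul_c (x y : F125) : (x * y).c =
  x.a * y.c + x.b * y.b + x.c * y.a + 4 * (x.b * y.c + x.c * y.b) + 16 * (x.c * y.c) := rfl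

instance : CommRing F125 where
  add_assoc x y z := by ext <;> simp <;> ring
  zero_add x := by ext <;> simp
  add_zero x := by ext <;> simp
  add_comm x y := by ext <;> simp <;> ring
  neg_add_cancel x := by ext <;> simp
  mul_assoc x y z := by ext <;> simp <;> ring
  one_mul x := by ext <;> simp
  mul_one x := by ext <;> simp
  left_distrib x y z := by ext <;> simp <;> ring
  right_distrib x y z := by ext <;> simp <;> ring
  mul_comm x y := by ext <;> simp <;> ring
  zero_mul x := by ext <;> simp
  mul_zero x := by ext <;> simp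
  nsmul := nsmulRec
  zsmul := zsmulRec

def enc (x : F125) : ℕ := x.a.val + 5 * x.b.val + 25 * x.c.val
def dec (n : ℕ) : F125 := ⟨(n : ZMod 5), ((n / 5 : ℕ) : ZMod 5), ((n / 25 : ℕ) : ZMod 5)⟩

theorem dec_enc (x : F125) : dec (enc x) = x := by
  have ha := ZMod.val_lt x.a
  have hb := ZMod.val_lt x.b
  have hc := ZMod.val_lt x.c
  have e1 : (x.a.val + 5 * x.b.val + 25 * x.c.val) % 5 = x.a.val := by omega
  have e2 : ((x.a.val + 5 * x.b.val + 25 * x.c.val) / 5) % 5 = x.b.val := by omega
  have e3 : ((x.a.val + 5 * x.b.val + 25 * x.c.val) / 25) % 5 = x.c.val := by omega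
  ext
  · simp only [dec, enc]
    rw [← ZMod.natCast_mod, e1, ZMod.natCast_zmod_val]
  · simp only [dec, enc]
    rw [← ZMod.natCast_mod, e2, ZMod.natCast_zmod_val]
  · simp only [dec, enc]
    rw [← ZMod.natCast_mod, e3, ZMod.natCast_zmod_val]

theorem enc_lt (x : F125) : enc x < 125 := by
  have ha := ZMod.val_lt x.a
  have hb := ZMod.val_lt x.b
  have hc := ZMod.val_lt x.c
  rw [enc]
  omega

theorem enc_dec (n : ℕ) (hn : n < 125) : enc (dec n) = n := by
  simp only [enc, dec, ZMod.val_natCast]
  omega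

def addc (m n : ℕ) : ℕ :=
  (m % 5 + n % 5) % 5 + 5 * ((m / 5 % 5 + n / 5 % 5) % 5) + 25 * ((m / 25 + n / 25) % 5)

def mulc (m n : ℕ) : ℕ :=
  ((m % 5) * (n % 5) + 3 * ((m / 5 % 5) * (n / 25) + (m / 25) * (n / 5 % 5)) +
      12 * ((m / 25) * (n / 25))) % 5 +
  5 * (((m % 5) * (n / 5 % 5) + (m / 5 % 5) * (n % 5) + 3 * ((m / 25) * (n / 25))) % 5) +
  25 * (((m % 5) * (n / 25) + (m / 5 % 5) * (n / 5 % 5) + (m / 25) * (n % 5) +
      4 * ((m / 5 % 5) * (n / 25) + (m / 25) * (n / 5 % 5)) + 16 * ((m / 25) * (n / 25))) % 5)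

theorem dig (x : F125) : enc x % 5 = x.a.val ∧ enc x / 5 % 5 = x.b.val ∧ enc x / 25 = x.c.val := by
  have ha := ZMod.val_lt x.a
  have hb := ZMod.val_lt x.b
  have hc := ZMod.val_lt x.c
  rw [enc]
  omega

theorem add_spec (x y : F125) : enc (x + y) = addc (enc x) (enc y) := by
  obtain ⟨a1, a2, a3⟩ := dig x
  obtain ⟨b1, b2, b3⟩ := dig y
  rw [addc, a1, a2, a3, b1, b2, b3, enc]
  simp only [add_a, add_b, add_c, ZMod.val_add]

theorem val_of_nat (z : ZMod 5) (n : ℕ) (h : z = (n : ZMod 5)) : z.val = n % 5 := by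
  rw [h, ZMod.val_natCast]

theorem mul_spec (x y : F125) : enc (x * y) = mulc (enc x) (enc y) := by
  obtain ⟨a1, a2, a3⟩ := dig x
  obtain ⟨b1, b2, b3⟩ := dig y
  rw [mulc, a1, a2, a3, b1, b2, b3, enc]
  congr 1
  · congr 1
    · apply val_of_nat
      push_cast
      simp
    · congr 1
      apply val_of_nat
      push_cast
      simp
  · congr 1
    apply val_of_nat
    push_cast
    simp

def invTable : List ℕ :=
  [0, 1, 3, 2, 4, 60, 50, 86, 41, 37, 30, 98, 25, 81, 108, 120, 47, 74, 100, 57, 90, 118, 114, 69, 75,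
  12, 70, 33, 105, 56, 10, 58, 84, 27, 46, 52, 113, 9, 91, 89, 68, 8, 119, 53, 62, 102, 34, 16, 82,
  55, 6, 65, 35, 43, 94, 49, 29, 19, 31, 72, 5, 76, 44, 88, 117, 51, 116, 92, 40, 23, 26, 123, 59,
  107, 17, 24, 61, 112, 115, 85, 104, 13, 48, 96, 32, 79, 7, 110, 63, 39, 20, 38, 67, 111, 54, 106,
  83, 124, 11, 101, 18, 99, 45, 122, 80, 28, 95, 73, 14, 121, 87, 93, 77, 36, 22, 78, 66, 64, 21, 42,
  15, 109, 103, 71, 97]

def invc (n : ℕ) : ℕ := invTable.getD n 0

def negc (x : ℕ) : ℕ := ((5 - x % 5) % 5) + 5 * ((5 - x / 5 % 5) % 5) + 25 * ((5 - x / 25) % 5)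

theorem inv_check : ∀ n < 125, n ≠ 0 → mulc n (invc n) = 1 ∧ invc n < 125 := by
  decide +kernel

theorem enc_one : enc 1 = 1 := rfl
theorem enc_zero : enc 0 = 0 := rfl

theorem enc_inj (x y : F125) (h : enc x = enc y) : x = y := by
  rw [← dec_enc x, h, dec_enc]

instance : Inv F125 := ⟨fun x => dec (invc (enc x))⟩

theorem mul_inv (x : F125) (hx : x ≠ 0) : x * x⁻¹ = 1 := by
  apply enc_inj
  have h0 : enc x ≠ 0 := fun h => hx (enc_inj x 0 (h.trans enc_zero.symm))
  obtain ⟨h1, h2⟩ := inv_check (enc x) (enc_lt x) h0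
  show enc (x * dec (invc (enc x))) = _
  rw [mul_spec, enc_dec _ h2, h1, enc_one]

instance : Field F125 where
  inv := Inv.inv
  exists_pair_ne := ⟨0, 1, fun h => by
    have := congrArg enc h
    rw [enc_one, enc_zero] at this
    cases this⟩
  mul_inv_cancel := mul_inv
  inv_zero := by
    apply enc_inj
    show enc (dec (invc (enc 0))) = _
    rw [enc_zero]
    rfl
  nnqsmul := _
  nnqsmul_def := fun _ _ => rfl
  qsmul := _
  qsmul_def := fun _ _ => rfl

def coding : Coding F125 125 where
  enc := enc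
  dec := dec
  add := addc
  mul := mulc
  dec_enc := dec_enc
  enc_lt := enc_lt
  enc_dec := enc_dec
  add_spec := add_spec
  mul_spec := mul_spec
  enc_zero := enc_zero

end F125

def base125 : List (List ℕ) := [[0, 1, 2, 3, 4], [0, 1, 5, 75, 83], [1, 2, 5, 51, 68]]

def jm125 : List (ℕ × List ℕ) :=
  [(1, [31, 9709185488779990559359011, 1152991873351057411, 1329552514338574299630590216317698051,
  79228162514264337610723835907, 9444735217539106209795, 332306998946228972837637783564582915,
  1208962713120368779853827, 182541686434045625436242672877571, 40567295087381911608444300822531,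
  1287457640856795486169967099907, 2658456308482481802882978893245972483,
  649037107316853453566312309850115, 281477124194435, 5192296935908441267108198333022211,
  151116015682205872291843, 10633823966284162686508914998941582339,
  5316911983139663491651257038140473347, 2417851639792208437051395, 10141204801825835352711114006531,
  18889465931487170854915, 147575078489583256067, 648518483780304899, 302231454903657830547523,
  41538379820043500536247939875471363, 619045577506416051777175555,
  20769187434139384301098280155090947, 83076749736557244362333149504471043, 549789368579,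
  664614195962864222112747514000048131, 38685626227672531637633027, 81129948504079412848172317278211,
  21267647932558653975828400189416144899, 5070602400912926613186068611075,
  1298075452573746192512933341167619, 295152443963352285187, 154742504910682429967040515,
  19342831560578209224327171, 166156034774314940571778875949842435, 643728820428397742951839563779,
  12980742146337659367136599528701955])]

set_option maxRecDepth 100000 in
theorem full125 : fullOK 125 1 F125.addc F125.mulc F125.invc F125.negc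
    (fun n => !(Nat.beq n 0)) base125 jm125 = true := by
  decide +kernel

theorem dec125 : Dec (Fin 125) (fun _ => True) := by
  have hd := cert' F125.coding (c := 1) (by norm_num) ⊤ (fun n => !(Nat.beq n 0)) F125.invc
    F125.negc (by
      intro u
      simp only [Subgroup.mem_top, iff_true, Bool.not_eq_true', ← Bool.not_eq_true, Nat.beq_eq]
      intro h
      exact u.ne_zero (F125.enc_inj _ _ (h.trans F125.enc_zero.symm))) rfl base125 jm125 full125
  have e : F125 × Fin 1 ≃ Fin 125 :=
    { toFun := fun x => ⟨F125.enc x.1, F125.enc_lt x.1⟩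
      invFun := fun n => (F125.dec n.val, 0)
      left_inv := fun x => by
        apply Prod.ext
        · exact F125.dec_enc x.1
        · exact Subsingleton.elim _ _
      right_inv := fun n => Fin.ext (F125.enc_dec n.val n.2) }
  exact hd.equiv e

end Pool.Agent.H53.S3
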