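import Mathlib
import Pool.Agent.H53.S3.F125
import Pool.Agent.H53.S3.PrimeCert3

namespace Pool.Agent.H53.S3

namespace F125

def equivFin : F125 ≃ Fin 125 where
  toFun := fun x => ⟨enc x, enc_lt x⟩
  invFun := fun n => dec n.val
  left_inv := fun x => dec_enc x
  right_inv := fun n => Fin.ext (enc_dec n.val n.2)

instance : Fintype F125 := Fintype.ofEquiv _ equivFin.symm

theorem card_eq : Fintype.card F125 = 125 := by
  rw [Fintype.card_congr equivFin, Fintype.card_fin]

def p62 (x : ℕ) : ℕ :=
  let a := mulc x x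
  let b := mulc a a
  let c := mulc b b
  let d := mulc c c
  let e := mulc (mulc (mulc (mulc x a) b) c) d
  mulc e e

theorem enc_p62 (x : F125) : enc (x ^ 62) = p62 (enc x) := by
  have e : x ^ 62 = (x * (x * x) * ((x * x) * (x * x)) *
      (((x * x) * (x * x)) * ((x * x) * (x * x))) *
      ((((x * x) * (x * x)) * ((x * x) * (x * x))) *
        (((x * x) * (x * x)) * ((x * x) * (x * x))))) ^ 2 := by
    ring
  rw [e, pow_two]
  simp only [mul_spec]
  rfl

/-- bit `n` tells whether `n` is the code of a nonsquare -/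
def nsq (S n : ℕ) : ℕ := Nat.shiftRight S n % 2

def chkS (S : ℕ) : Bool := (List.range 125).all fun n => Nat.beq n 0 ||
  if Nat.beq (p62 n) 1 then Nat.beq (nsq S n) 0 else Nat.beq (nsq S n) 1

/-- `c` copies of the field with 125 elements and two points that nonsquares interchange -/
theorem f125Cert3 (c S T T' : ℕ) (hc0 : 0 < c) (hS : chkS S = true)
    (base : List C3.BB) (CV : List (ℕ × ℕ × List (List (ℕ × ℕ))))
    (hf : C3.fullOK 125 c 2 addc mulc (fun x => !(Nat.beq x 0)) (nsq S) (C3.mtT 125 c T T')
      base CV = true) : Dec (Fin (125 * c + 2)) (fun _ => True) := by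
  have : NeZero c := ⟨hc0.ne'⟩
  simp only [chkS, List.all_eq_true, List.mem_range, Bool.or_eq_true, Nat.beq_eq] at hS
  have key : ∀ u : F125ˣ, (u : F125) ^ 62 = 1 ∧ nsq S (enc (u : F125)) = 0 ∨
      (u : F125) ^ 62 ≠ 1 ∧ nsq S (enc (u : F125)) = 1 := by
    intro u
    have h0 : enc (u : F125) ≠ 0 := fun h => u.ne_zero (enc_inj _ _ (h.trans enc_zero.symm))
    have h1 := (hS _ (enc_lt (u : F125))).resolve_left h0
    by_cases h : (u : F125) ^ 62 = 1
    · left
      refine ⟨h, ?_⟩
      have h2 : p62 (enc (u : F125)) = 1 := by rw [← enc_p62, h, enc_one]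
      rw [h2] at h1
      simpa using h1
    · right
      refine ⟨h, ?_⟩
      have h2 : p62 (enc (u : F125)) ≠ 1 := by
        rw [← enc_p62]
        intro h'
        exact h (enc_inj _ _ (h'.trans enc_one.symm))
      rw [if_neg h2, Nat.beq_eq] at h1
      exact h1
  have hsgn : ∀ u : F125ˣ, (u : F125) ^ 62 = 1 ∨ (u : F125) ^ 62 = -1 := by
    intro u
    have h1 : ((u : F125) ^ 62) ^ 2 = 1 := by
      rw [← pow_mul]
      have := FiniteField.pow_card_sub_one_eq_one (u : F125) u.ne_zero
      rw [card_eq] at this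
      exact this
    have h2 : ((u : F125) ^ 62 - 1) * ((u : F125) ^ 62 + 1) = 0 := by
      linear_combination h1
    rcases mul_eq_zero.1 h2 with h3 | h3
    · exact Or.inl (sub_eq_zero.1 h3)
    · exact Or.inr (eq_neg_of_add_eq_zero_left h3)
  have hne : (-1 : F125) ≠ 1 := by decide
  have hd := C3.cert3 (c := c) (f := 2) coding
    (fun u e => if (u : F125) ^ 62 = 1 then e else e + 1) le_rfl (by
      intro u v e
      have e2 : ∀ e : Fin 2, e + 1 + 1 = e := by decide
      simp only [Units.val_mul, mul_pow]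
      rcases hsgn u with hu | hu <;> rcases hsgn v with hv | hv
      · simp [hu, hv]
      · simp [hu, hv]
      · simp [hu, hv]
      · simp [hu, hv, hne, e2]) (by intro e; simp)
    ⊤ (fun x => !(Nat.beq x 0)) (nsq S) (by
      intro u e
      show (if (u : F125) ^ 62 = 1 then e else e + 1 : Fin 2).val =
        (e.val + nsq S (enc (u : F125))) % 2
      rcases key u with ⟨h1, h2⟩ | ⟨h1, h2⟩
      · rw [if_pos h1, h2]
        omega
      · rw [if_neg h1, h2, Fin.val_add]
        rfl) (by
      intro u
      simp only [Subgroup.mem_top, iff_true, Bool.not_eq_true', ← Bool.not_eq_true, Nat.beq_eq]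
      intro h
      exact u.ne_zero (enc_inj _ _ (h.trans enc_zero.symm))) rfl card_eq
    (C3.mtT 125 c T T') base CV hf
  refine hd.equiv (Fintype.equivOfCardEq ?_)
  rw [Fintype.card_sum, Fintype.card_prod, card_eq, Fintype.card_fin, Fintype.card_fin,
    Fintype.card_fin]

end F125

end Pool.Agent.H53.S3
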