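import Mathlib
import Pool.Agent.H53.S3.F125Cert3

namespace Pool.Agent.H53.S3

def base377 : List C3.BB :=
  [([0, 1, 2, 3, 4], [(1, 0), (1, 1), (1, 2), (1, 3), (1, 4), (2, 0), (2, 1), (2, 2), (2, 3), (2,
  4), (3, 0), (3, 1), (3, 2), (3, 3), (3, 4), (4, 0), (4, 1), (4, 2), (4, 3), (4, 4)]), ([0, 1,
  125, 126, 253], [(1, 0), (4, 1)]), ([0, 5, 140, 250, 255], [(1, 0), (4, 5)]), ([3, 125, 126,
  250, 251], [(1, 0), (4, 1)]), ([125, 126, 127, 128, 129], [(1, 0), (1, 1), (1, 2), (1, 3), (1,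
  4), (2, 0), (2, 1), (2, 2), (2, 3), (2, 4), (3, 0), (3, 1), (3, 2), (3, 3), (3, 4), (4, 0), (4,
  1), (4, 2), (4, 3), (4, 4)]), ([250, 255, 260, 265, 270], [(1, 0), (1, 5), (1, 10), (1, 15),
  (1, 20), (2, 0), (2, 5), (2, 10), (2, 15), (2, 20), (3, 0), (3, 5), (3, 10), (3, 15), (3, 20),
  (4, 0), (4, 5), (4, 10), (4, 15), (4, 20)]), ([0, 125, 250, 375, 376], [(1, 0), (2, 0), (3, 0),
  (4, 0), (5, 0), (6, 0), (7, 0), (8, 0), (9, 0), (10, 0), (11, 0), (12, 0), (13, 0), (14, 0),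
  (15, 0), (16, 0), (17, 0), (18, 0), (19, 0), (20, 0), (21, 0), (22, 0), (23, 0), (24, 0), (25,
  0), (26, 0), (27, 0), (28, 0), (29, 0), (30, 0), (31, 0), (32, 0), (33, 0), (34, 0), (35, 0),
  (36, 0), (37, 0), (38, 0), (39, 0), (40, 0), (41, 0), (42, 0), (43, 0), (44, 0), (45, 0), (46,
  0), (47, 0), (48, 0), (49, 0), (50, 0), (51, 0), (52, 0), (53, 0), (54, 0), (55, 0), (56, 0),
  (57, 0), (58, 0), (59, 0), (60, 0), (61, 0), (62, 0), (63, 0), (64, 0), (65, 0), (66, 0), (67,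
  0), (68, 0), (69, 0), (70, 0), (71, 0), (72, 0), (73, 0), (74, 0), (75, 0), (76, 0), (77, 0),
  (78, 0), (79, 0), (80, 0), (81, 0), (82, 0), (83, 0), (84, 0), (85, 0), (86, 0), (87, 0), (88,
  0), (89, 0), (90, 0), (91, 0), (92, 0), (93, 0), (94, 0), (95, 0), (96, 0), (97, 0), (98, 0),
  (99, 0), (100, 0), (101, 0), (102, 0), (103, 0), (104, 0), (105, 0), (106, 0), (107, 0), (108,
  0), (109, 0), (110, 0), (111, 0), (112, 0), (113, 0), (114, 0), (115, 0), (116, 0), (117, 0),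
  (118, 0), (119, 0), (120, 0), (121, 0), (122, 0), (123, 0), (124, 0)]), ([1, 2, 125, 128, 376],
  [(1, 0), (4, 3)]), ([5, 10, 250, 265, 376], [(1, 0), (4, 15)]), ([126, 127, 250, 253, 376],
  [(1, 0), (4, 3)]), ([0, 1, 5, 63, 86], [(1, 0)]), ([2, 3, 5, 78, 82], [(1, 0)]), ([1, 6, 125,
  162, 241], [(1, 0)]), ([5, 21, 250, 323, 347], [(1, 0)]), ([2, 8, 125, 158, 229], [(1, 0)]),
  ([6, 10, 250, 312, 344], [(1, 0)]), ([2, 5, 125, 169, 217], [(1, 0)]), ([10, 16, 250, 296,
  324], [(1, 0)]), ([3, 7, 125, 195, 241], [(1, 0)]), ([1, 15, 250, 347, 371], [(1, 0)]), ([5,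
  23, 125, 162, 213], [(1, 0)]), ([4, 16, 250, 285, 323], [(1, 0)]), ([1, 5, 125, 137, 318], [(1,
  0)]), ([5, 16, 245, 250, 267], [(1, 0)]), ([3, 16, 125, 133, 333], [(1, 0)]), ([3, 15, 174,
  250, 256], [(1, 0)]), ([15, 23, 125, 146, 310], [(1, 0)]), ([4, 23, 244, 250, 269], [(1, 0)]),
  ([5, 8, 125, 204, 340], [(1, 0)]), ([6, 16, 161, 250, 288], [(1, 0)]), ([3, 21, 125, 178, 318],
  [(1, 0)]), ([15, 19, 245, 250, 352], [(1, 0)]), ([18, 23, 125, 209, 333], [(1, 0)]), ([4, 13,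
  174, 250, 279], [(1, 0)]), ([4, 5, 125, 321, 326], [(1, 0)]), ([16, 20, 173, 226, 250], [(1,
  0)]), ([3, 14, 125, 305, 329], [(1, 0)]), ([2, 15, 163, 228, 250], [(1, 0)]), ([10, 23, 125,
  303, 339], [(1, 0)]), ([4, 7, 165, 227, 250], [(1, 0)]), ([4, 6, 125, 189, 323], [(1, 0)]),
  ([20, 21, 236, 250, 364], [(1, 0)]), ([14, 19, 125, 221, 331], [(1, 0)]), ([2, 18, 164, 250,
  282], [(1, 0)]), ([10, 13, 125, 182, 308], [(1, 0)]), ([7, 22, 243, 250, 363], [(1, 0)]), ([3,
  5, 125, 225, 297], [(1, 0)]), ([15, 16, 175, 250, 349], [(1, 0)]), ([3, 23, 125, 172, 362],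
  [(1, 0)]), ([4, 15, 211, 250, 300], [(1, 0)]), ([20, 23, 125, 237, 275], [(1, 0)]), ([4, 14,
  181, 250, 336], [(1, 0)]), ([126, 127, 130, 221, 270], [(1, 0)]), ([139, 255, 260, 266, 282],
  [(1, 0)]), ([128, 132, 141, 182, 252], [(1, 0)]), ([135, 251, 253, 265, 363], [(1, 0)]), ([130,
  140, 148, 216, 257], [(1, 0)]), ([126, 254, 266, 273, 291], [(1, 0)]), ([125, 126, 130, 280,
  373], [(1, 0)]), ([197, 223, 250, 255, 266], [(1, 0)]), ([125, 128, 141, 292, 356], [(1, 0)]),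
  ([189, 215, 250, 253, 265], [(1, 0)]), ([125, 140, 148, 286, 364], [(1, 0)]), ([193, 221, 250,
  254, 273], [(1, 0)])]

def cv377 : List (ℕ × ℕ × List (List (ℕ × ℕ))) :=
  [(0, 1, [[(1, 0)], [(1, 0)], [(60, 0)], [], [], [], [], [(1, 4)], [(60, 4)], [], [(1, 0), (4,
  1), (7, 0), (13, 85), (17, 66), (23, 1), (31, 22), (37, 118), (44, 111), (45, 62), (51, 75),
  (60, 0), (67, 1), (79, 51), (88, 0), (90, 1), (105, 94), (111, 40), (118, 38), (124, 9)], [(1,
  3), (4, 3), (6, 13), (11, 95), (19, 56), (24, 18), (26, 79), (32, 64), (37, 100), (41, 98),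
  (43, 88), (61, 33), (69, 109), (86, 47), (94, 123), (104, 52), (112, 68), (114, 58), (118, 26),
  (123, 92)], [(60, 90), (90, 61)], [(47, 67), (108, 89)], [(50, 25), (75, 101)], [(37, 80),
  (118, 71)], [(41, 98), (114, 58)], [(50, 103), (75, 28)], [(37, 74), (118, 82)], [(57, 98),
  (98, 58)], [(25, 28), (100, 103)], [(74, 74), (81, 82)], [(37, 118), (118, 38)], [(57, 40),
  (98, 111)], [(25, 51), (100, 75)], [(74, 118), (81, 38)], [(41, 111), (114, 40)], [(50, 51),
  (75, 75)], [(2, 15), (3, 11)], [(30, 122), (120, 34)], [(69, 108), (86, 48)], [(1, 11), (4,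
  15)], [(60, 122), (90, 34)], [(47, 48), (108, 108)], [(50, 50), (75, 76)], [(37, 39), (118,
  117)], [(57, 110), (98, 41)], [(25, 76), (100, 50)], [(74, 39), (81, 117)], [(41, 41), (114,
  110)], [(69, 65), (86, 86)], [(1, 5), (4, 21)], [(60, 63), (90, 93)], [(47, 86), (108, 65)],
  [(2, 5), (3, 21)], [(30, 93), (120, 63)], [(69, 109), (86, 47)], [(1, 10), (4, 16)], [(60,
  121), (90, 30)], [(47, 47), (108, 109)], [(2, 10), (3, 16)], [(30, 30), (120, 121)], [], [],
  [], [], [], [], [], [], [], [], [], []]), (0, 125, [[], [(1, 0), (1, 4), (2, 0), (2, 3), (5,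
  0), (5, 20), (6, 0), (6, 24), (7, 0), (7, 23), (8, 0), (8, 22), (9, 0), (9, 21), (10, 0), (10,
  15), (11, 0), (11, 19), (12, 0), (12, 18), (13, 0), (13, 17), (14, 0), (14, 16), (25, 0), (25,
  100), (26, 0), (26, 104), (27, 0), (27, 103), (28, 0), (28, 102), (29, 0), (29, 101), (30, 0),
  (30, 120), (31, 0), (31, 124), (32, 0), (32, 123), (33, 0), (33, 122), (34, 0), (34, 121), (35,
  0), (35, 115), (36, 0), (36, 119), (37, 0), (37, 118), (38, 0), (38, 117), (39, 0), (39, 116),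
  (40, 0), (40, 110), (41, 0), (41, 114), (42, 0), (42, 113), (43, 0), (43, 112), (44, 0), (44,
  111), (45, 0), (45, 105), (46, 0), (46, 109), (47, 0), (47, 108), (48, 0), (48, 107), (49, 0),
  (49, 106), (50, 0), (50, 75), (51, 0), (51, 79), (52, 0), (52, 78), (53, 0), (53, 77), (54, 0),
  (54, 76), (55, 0), (55, 95), (56, 0), (56, 99), (57, 0), (57, 98), (58, 0), (58, 97), (59, 0),
  (59, 96), (60, 0), (60, 90), (61, 0), (61, 94), (62, 0), (62, 93), (63, 0), (63, 92), (64, 0),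
  (64, 91), (65, 0), (65, 85), (66, 0), (66, 89), (67, 0), (67, 88), (68, 0), (68, 87), (69, 0),
  (69, 86), (70, 0), (70, 80), (71, 0), (71, 84), (72, 0), (72, 83), (73, 0), (73, 82), (74, 0),
  (74, 81)], [], [], [], [], [(1, 0)], [], [], [], [], [], [], [], [], [], [], [], [], [], [],
  [], [], [], [], [], [], [], [], [], [], [], [], [], [], [], [], [], [], [], [], [], [], [], [],
  [], [], [], [], [], [], [], [], [], [], [], [], [], [], [], [], [], [], []]), (0, 126, [[],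
  [(1, 0)], [(30, 2)], [(2, 4)], [], [], [], [(1, 3), (2, 1)], [], [], [], [], [(4, 1), (58,
  106), (75, 1), (78, 52), (87, 84), (113, 42)], [], [(2, 1), (12, 89), (45, 85), (58, 44), (109,
  41), (114, 1)], [], [(2, 1), (20, 10), (89, 31), (90, 1), (110, 53), (119, 72)], [], [(3, 1),
  (21, 17), (22, 26), (40, 47), (59, 113), (69, 1)], [], [(20, 115), (62, 105), (84, 56), (86,
  1), (90, 1), (96, 121)], [], [(4, 1), (86, 46), (90, 1), (98, 57)], [(78, 86), (121, 43)], [(3,
  1), (60, 120), (74, 73), (108, 1)], [(34, 63), (46, 36)], [(2, 14), (30, 1), (50, 27), (86,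
  1)], [(78, 78), (109, 5)], [(83, 97), (90, 1), (101, 123), (114, 1)], [(10, 90), (102, 97)],
  [(3, 1), (6, 12), (19, 81), (37, 1)], [(28, 81), (95, 23)], [(7, 49), (25, 1), (38, 102), (86,
  1)], [(102, 102), (113, 67)], [(1, 1), (90, 1)], [(84, 89), (87, 11), (95, 29), (105, 52)],
  [(3, 1), (47, 1)], [(36, 61), (82, 48), (99, 112), (113, 59)], [(86, 1), (120, 1)], [(8, 8),
  (15, 70), (91, 119), (122, 122)], [(1, 1), (5, 5), (31, 116), (75, 1)], [(66, 31), (78, 116)],
  [(47, 1), (48, 54), (98, 1), (110, 86)], [(9, 17), (34, 54)], [(17, 114), (59, 63), (74, 1),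
  (120, 1)], [(93, 105), (109, 114)], [(3, 1), (15, 50), (45, 65), (90, 1)], [(5, 50), (117,
  107)], [(3, 1), (55, 110), (56, 93), (86, 1)], [(83, 33), (110, 110)], [(42, 117), (60, 1),
  (64, 21), (86, 1)], [(19, 19), (59, 117)], [], [], [], [], [], [], [], [], [], [], [], []]),
  (0, 250, [[], [], [(1, 0), (1, 20), (2, 0), (2, 15), (5, 0), (5, 100), (6, 0), (6, 120), (7,
  0), (7, 115), (8, 0), (8, 110), (9, 0), (9, 105), (10, 0), (10, 75), (11, 0), (11, 95), (12,
  0), (12, 90), (13, 0), (13, 85), (14, 0), (14, 80), (25, 0), (25, 27), (26, 0), (26, 47), (27,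
  0), (27, 42), (28, 0), (28, 37), (29, 0), (29, 32), (30, 0), (30, 2), (31, 0), (31, 22), (32,
  0), (32, 17), (33, 0), (33, 12), (34, 0), (34, 7), (35, 0), (35, 102), (36, 0), (36, 122), (37,
  0), (37, 117), (38, 0), (38, 112), (39, 0), (39, 107), (40, 0), (40, 77), (41, 0), (41, 97),
  (42, 0), (42, 92), (43, 0), (43, 87), (44, 0), (44, 82), (45, 0), (45, 52), (46, 0), (46, 72),
  (47, 0), (47, 67), (48, 0), (48, 62), (49, 0), (49, 57), (50, 0), (50, 54), (51, 0), (51, 74),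
  (52, 0), (52, 69), (53, 0), (53, 64), (54, 0), (54, 59), (55, 0), (55, 29), (56, 0), (56, 49),
  (57, 0), (57, 44), (58, 0), (58, 39), (59, 0), (59, 34), (60, 0), (60, 4), (61, 0), (61, 24),
  (62, 0), (62, 19), (63, 0), (63, 14), (64, 0), (64, 9), (65, 0), (65, 104), (66, 0), (66, 124),
  (67, 0), (67, 119), (68, 0), (68, 114), (69, 0), (69, 109), (70, 0), (70, 79), (71, 0), (71,
  99), (72, 0), (72, 94), (73, 0), (73, 89), (74, 0), (74, 84)], [], [], [], [(1, 0)], [], [],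
  [], [], [], [], [], [], [], [], [], [], [], [], [], [], [], [], [], [], [], [], [], [], [], [],
  [], [], [], [], [], [], [], [], [], [], [], [], [], [], [], [], [], [], [], [], [], [], [], [],
  [], [], [], [], [], [], []]), (0, 251, [[], [(2, 0)], [(60, 0)], [(2, 4)], [], [], [], [],
  [(30, 2), (60, 3)], [], [], [], [], [(35, 18), (37, 1), (40, 77), (61, 95), (67, 119), (90,
  1)], [], [(29, 8), (32, 9), (35, 79), (63, 76), (75, 1), (120, 1)], [], [(10, 115), (31, 105),
  (108, 1), (113, 121), (117, 56), (120, 1)], [], [(4, 1), (15, 10), (30, 1), (48, 31), (83, 72),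
  (95, 53)], [], [(1, 1), (17, 17), (19, 26), (55, 47), (108, 1), (113, 113)], [(88, 36), (92,
  63)], [(1, 14), (25, 27), (90, 1), (108, 1)], [(67, 5), (104, 78)], [(3, 1), (30, 1), (41, 57),
  (47, 46)], [(26, 86), (92, 43)], [(1, 1), (86, 1), (118, 73), (120, 120)], [(79, 81), (110,
  23)], [(16, 49), (75, 1), (84, 102), (108, 1)], [(51, 102), (59, 67)], [(30, 1), (36, 97), (77,
  123), (98, 1)], [(20, 90), (79, 97)], [(1, 1), (8, 81), (12, 12), (74, 1)], [(59, 59), (83,
  61), (112, 112), (116, 48)], [(60, 1), (108, 1)], [(19, 8), (20, 70), (61, 122), (123, 119)],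
  [(2, 1), (30, 1)], [(38, 89), (40, 29), (49, 11), (85, 52)], [(1, 1), (69, 1)], [(17, 17), (92,
  54)], [(21, 114), (37, 1), (42, 63), (60, 1)], [(67, 114), (124, 105)], [(2, 1), (10, 5), (25,
  1), (62, 116)], [(26, 116), (107, 31)], [(41, 1), (66, 54), (69, 1), (95, 86)], [(55, 110),
  (119, 33)], [(30, 1), (32, 21), (96, 117), (108, 1)], [(22, 19), (42, 117)], [(1, 1), (5, 50),
  (30, 1), (65, 65)], [(10, 50), (84, 107)], [(1, 1), (47, 1), (110, 110), (112, 93)], [], [],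
  [], [], [], [], [], [], [], [], [], []]), (0, 375, [[], [], [], [], [], [], [(1, 0)], [(2, 1),
  (2, 3), (5, 15), (5, 20), (6, 18), (6, 24), (7, 16), (7, 23), (11, 8), (11, 19), (13, 9), (13,
  17), (26, 78), (26, 104), (27, 76), (27, 103), (28, 79), (28, 102), (29, 77), (29, 101), (31,
  93), (31, 124), (33, 94), (33, 122), (38, 84), (38, 117), (40, 95), (40, 110), (45, 85), (45,
  105), (48, 89), (48, 107), (50, 25), (50, 75), (56, 43), (56, 99), (57, 41), (57, 98), (58,
  44), (58, 97), (59, 42), (59, 96), (60, 30), (60, 90), (63, 34), (63, 92), (64, 32), (64, 91),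
  (67, 46), (67, 88), (68, 49), (68, 87), (69, 47), (69, 86), (70, 35), (70, 80), (72, 36), (72,
  83), (73, 39), (73, 82), (74, 37), (74, 81)], [(2, 5), (2, 15), (5, 75), (5, 100), (6, 90), (6,
  120), (7, 80), (7, 115), (11, 40), (11, 95), (13, 45), (13, 85), (26, 47), (26, 69), (27, 42),
  (27, 59), (28, 37), (28, 74), (29, 32), (29, 64), (31, 19), (31, 22), (33, 12), (33, 24), (38,
  99), (38, 112), (40, 29), (40, 77), (45, 52), (45, 104), (48, 62), (48, 124), (50, 54), (50,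
  103), (56, 49), (56, 68), (57, 44), (57, 58), (58, 39), (58, 73), (59, 34), (59, 63), (60, 3),
  (60, 4), (63, 14), (63, 23), (64, 9), (64, 13), (67, 83), (67, 119), (68, 98), (68, 114), (69,
  88), (69, 109), (70, 28), (70, 79), (72, 33), (72, 94), (73, 48), (73, 89), (74, 38), (74,
  84)], [], [], [], [], [], [], [], [], [], [], [], [], [], [], [], [], [], [], [], [], [], [],
  [], [], [], [], [], [], [], [], [], [], [], [], [], [], [], [], [], [], [], [], [], [], [], [],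
  [], [], [], [], [], [], [], [], []]), (1, 0, [[], [(1, 0), (1, 4), (2, 0), (2, 3), (5, 0), (5,
  20), (6, 0), (6, 24), (7, 0), (7, 23), (8, 0), (8, 22), (9, 0), (9, 21), (10, 0), (10, 15),
  (11, 0), (11, 19), (12, 0), (12, 18), (13, 0), (13, 17), (14, 0), (14, 16), (25, 0), (25, 100),
  (26, 0), (26, 104), (27, 0), (27, 103), (28, 0), (28, 102), (29, 0), (29, 101), (30, 0), (30,
  120), (31, 0), (31, 124), (32, 0), (32, 123), (33, 0), (33, 122), (34, 0), (34, 121), (35, 0),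
  (35, 115), (36, 0), (36, 119), (37, 0), (37, 118), (38, 0), (38, 117), (39, 0), (39, 116), (40,
  0), (40, 110), (41, 0), (41, 114), (42, 0), (42, 113), (43, 0), (43, 112), (44, 0), (44, 111),
  (45, 0), (45, 105), (46, 0), (46, 109), (47, 0), (47, 108), (48, 0), (48, 107), (49, 0), (49,
  106), (50, 0), (50, 75), (51, 0), (51, 79), (52, 0), (52, 78), (53, 0), (53, 77), (54, 0), (54,
  76), (55, 0), (55, 95), (56, 0), (56, 99), (57, 0), (57, 98), (58, 0), (58, 97), (59, 0), (59,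
  96), (60, 0), (60, 90), (61, 0), (61, 94), (62, 0), (62, 93), (63, 0), (63, 92), (64, 0), (64,
  91), (65, 0), (65, 85), (66, 0), (66, 89), (67, 0), (67, 88), (68, 0), (68, 87), (69, 0), (69,
  86), (70, 0), (70, 80), (71, 0), (71, 84), (72, 0), (72, 83), (73, 0), (73, 82), (74, 0), (74,
  81)], [], [], [], [], [(1, 0)], [], [], [], [], [], [], [], [], [], [], [], [], [], [], [], [],
  [], [], [], [], [], [], [], [], [], [], [], [], [], [], [], [], [], [], [], [], [], [], [], [],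
  [], [], [], [], [], [], [], [], [], [], [], [], [], [], [], [], []]), (1, 1, [[], [(1, 0)],
  [(30, 1)], [(2, 0)], [], [], [], [(1, 0), (2, 4)], [], [], [], [], [(1, 0), (42, 114), (50, 0),
  (52, 79), (68, 72), (97, 45)], [], [(3, 0), (18, 67), (41, 0), (46, 110), (97, 112), (105,
  66)], [], [(3, 0), (5, 16), (36, 84), (40, 78), (60, 0), (66, 120)], [], [(2, 0), (8, 100), (9,
  14), (86, 0), (96, 43), (110, 109)], [], [(5, 36), (59, 30), (60, 0), (69, 0), (71, 95), (93,
  46)], [], [(1, 0), (57, 99), (60, 0), (69, 105)], [(34, 113), (52, 65)], [(2, 0), (47, 0), (81,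
  83), (90, 31)], [(109, 115), (121, 93)], [(3, 17), (69, 0), (75, 104), (120, 0)], [(46, 21),
  (52, 53)], [(29, 33), (41, 0), (60, 0), (72, 59)], [(15, 61), (28, 59)], [(2, 0), (11, 70),
  (24, 19), (118, 0)], [(55, 8), (102, 70)], [(23, 107), (69, 0), (100, 0), (117, 29)], [(28,
  29), (42, 89)], [(4, 0), (60, 0)], [(45, 79), (55, 102), (68, 15), (71, 67)], [(2, 0), (108,
  0)], [(42, 97), (56, 44), (73, 108), (119, 90)], [(30, 0), (69, 0)], [(10, 81), (22, 23), (33,
  34), (64, 37)], [(4, 0), (20, 21), (50, 0), (124, 35)], [(52, 35), (89, 120)], [(40, 65), (57,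
  0), (107, 77), (108, 0)], [(21, 14), (121, 77)], [(13, 42), (30, 0), (81, 0), (96, 93)], [(46,
  42), (62, 46)], [(2, 0), (10, 76), (60, 0), (105, 86)], [(20, 76), (38, 49)], [(2, 0), (69, 0),
  (95, 41), (99, 63)], [(40, 41), (72, 123)], [(69, 0), (90, 0), (91, 5), (113, 39)], [(11, 12),
  (96, 39)], [], [], [], [], [], [], [], [], [], [], [], []]), (1, 126, [[], [(1, 0)], [], [(1,
  0)], [(1, 0)], [], [], [(2, 0)], [], [(1, 4)], [], [], [(9, 0), (21, 1), (32, 30), (66, 0),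
  (89, 1), (123, 121)], [], [(27, 0), (70, 1), (72, 53), (80, 0), (83, 78), (103, 1)], [], [(43,
  108), (62, 0), (67, 0), (88, 1), (93, 1), (112, 48)], [], [(26, 0), (32, 34), (66, 0), (89, 1),
  (104, 1), (123, 122)], [], [(9, 0), (21, 1), (63, 0), (65, 15), (85, 11), (92, 1)], [], [(25,
  0), (100, 1)], [], [(41, 0), (114, 1)], [], [(37, 1), (118, 0)], [], [(65, 1), (85, 0)], [],
  [(43, 0), (112, 1)], [], [(32, 0), (123, 1)], [], [], [(59, 78), (96, 53)], [], [(5, 113), (20,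
  43)], [], [(40, 36), (110, 115)], [(38, 1), (117, 0)], [], [(72, 1), (83, 0)], [], [(11, 1),
  (19, 0)], [], [(12, 1), (18, 0)], [], [(14, 1), (16, 0)], [], [(53, 1), (77, 0)], [], [(1, 4),
  (4, 2), (29, 78), (37, 118), (38, 112), (41, 98), (49, 107), (101, 53), (106, 49), (114, 58),
  (117, 44), (118, 38)], [], [(6, 113), (24, 43), (25, 51), (37, 74), (39, 33), (47, 4), (72,
  119), (83, 37), (100, 75), (108, 2), (116, 123), (118, 82)], [], [(7, 115), (11, 52), (19, 79),
  (23, 36), (25, 28), (30, 2), (41, 111), (61, 12), (94, 19), (100, 103), (114, 40), (120, 4)],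
  [], [(1, 0), (4, 1), (37, 118), (60, 0), (90, 1), (118, 38)], [(70, 54), (80, 77)], [(2, 0),
  (3, 1), (25, 51), (47, 0), (100, 75), (108, 1)], [(58, 42), (97, 114)], [(30, 1), (41, 111),
  (69, 0), (86, 1), (114, 40), (120, 0)], [(27, 116), (103, 35)]]), (1, 250, [[], [], [], [(1,
  0), (1, 4), (2, 0), (2, 3), (5, 0), (5, 20), (6, 0), (6, 24), (7, 0), (7, 23), (8, 0), (8, 22),
  (9, 0), (9, 21), (10, 0), (10, 15), (11, 0), (11, 19), (12, 0), (12, 18), (13, 0), (13, 17),
  (14, 0), (14, 16), (25, 0), (25, 100), (26, 0), (26, 104), (27, 0), (27, 103), (28, 0), (28,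
  102), (29, 0), (29, 101), (30, 0), (30, 120), (31, 0), (31, 124), (32, 0), (32, 123), (33, 0),
  (33, 122), (34, 0), (34, 121), (35, 0), (35, 115), (36, 0), (36, 119), (37, 0), (37, 118), (38,
  0), (38, 117), (39, 0), (39, 116), (40, 0), (40, 110), (41, 0), (41, 114), (42, 0), (42, 113),
  (43, 0), (43, 112), (44, 0), (44, 111), (45, 0), (45, 105), (46, 0), (46, 109), (47, 0), (47,
  108), (48, 0), (48, 107), (49, 0), (49, 106), (50, 0), (50, 75), (51, 0), (51, 79), (52, 0),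
  (52, 78), (53, 0), (53, 77), (54, 0), (54, 76), (55, 0), (55, 95), (56, 0), (56, 99), (57, 0),
  (57, 98), (58, 0), (58, 97), (59, 0), (59, 96), (60, 0), (60, 90), (61, 0), (61, 94), (62, 0),
  (62, 93), (63, 0), (63, 92), (64, 0), (64, 91), (65, 0), (65, 85), (66, 0), (66, 89), (67, 0),
  (67, 88), (68, 0), (68, 87), (69, 0), (69, 86), (70, 0), (70, 80), (71, 0), (71, 84), (72, 0),
  (72, 83), (73, 0), (73, 82), (74, 0), (74, 81)], [], [], [(1, 0)], [], [], [], [], [], [], [],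
  [], [], [], [], [], [], [], [], [], [], [], [], [], [], [], [], [], [], [], [], [], [], [], [],
  [], [], [], [], [], [], [], [], [], [], [], [], [], [], [], [], [], [], [], [], [], [], [], [],
  [], []]), (1, 251, [[], [(2, 0)], [(30, 1)], [(1, 0)], [], [], [], [], [], [(1, 3), (2, 1)],
  [], [], [], [], [], [], [], [], [], [], [], [], [(29, 11), (40, 0)], [(10, 1), (16, 34)], [(24,
  48), (96, 0)], [(77, 15), (95, 1)], [(5, 0), (23, 122)], [(12, 108), (113, 1)], [(20, 0), (47,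
  100)], [(3, 72), (42, 1)], [(40, 0), (120, 95)], [(10, 1), (86, 26)], [(4, 84), (96, 0)], [(60,
  56), (95, 1)], [(61, 0), (123, 0)], [(56, 1), (73, 1)], [(49, 0), (85, 0)], [(33, 1), (64, 1)],
  [(39, 0), (43, 0)], [(87, 1), (105, 1)], [(107, 0), (108, 82)], [(2, 58), (62, 1)], [(13, 0),
  (30, 103)], [(66, 1), (69, 74)], [(1, 98), (31, 0)], [(9, 1), (90, 28)], [(16, 0), (59, 7)],
  [(24, 1), (55, 91)], [(20, 88), (77, 0)], [(23, 1), (42, 24)], [(12, 0), (40, 60)], [(10, 68),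
  (101, 1)], [(69, 47), (75, 50), (94, 20), (120, 3)], [(1, 16), (82, 64), (86, 3), (118, 39)],
  [(4, 3), (90, 121), (98, 110), (106, 69)], [(47, 109), (60, 3), (100, 76), (122, 6)], [(3, 10),
  (74, 117), (108, 3), (116, 92)], [(2, 3), (68, 87), (114, 41), (120, 30)], [(10, 0), (12, 90),
  (21, 45), (46, 109), (71, 0), (103, 27)], [(19, 1), (44, 83), (63, 10), (96, 1), (101, 89),
  (107, 18)], [(14, 23), (62, 124), (70, 57), (78, 30), (95, 0), (119, 0)], [(5, 1), (6, 61),
  (13, 106), (38, 1), (54, 104), (88, 47)], [(22, 0), (34, 16), (53, 67), (66, 13), (97, 73),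
  (113, 0)], [(7, 8), (31, 32), (35, 99), (72, 1), (104, 121), (110, 1)]]), (1, 375, [[], [], [],
  [], [], [], [(1, 0)], [(2, 0), (2, 4), (5, 0), (5, 10), (6, 0), (6, 12), (7, 0), (7, 14), (11,
  0), (11, 22), (13, 0), (13, 21), (26, 0), (26, 52), (27, 0), (27, 54), (28, 0), (28, 51), (29,
  0), (29, 53), (31, 0), (31, 62), (33, 0), (33, 61), (38, 0), (38, 71), (40, 0), (40, 55), (45,
  0), (45, 65), (48, 0), (48, 66), (50, 0), (50, 100), (56, 0), (56, 112), (57, 0), (57, 114),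
  (58, 0), (58, 111), (59, 0), (59, 113), (60, 0), (60, 120), (63, 0), (63, 121), (64, 0), (64,
  123), (67, 0), (67, 109), (68, 0), (68, 106), (69, 0), (69, 108), (70, 0), (70, 115), (72, 0),
  (72, 119), (73, 0), (73, 116), (74, 0), (74, 118)], [], [(2, 1), (2, 3), (5, 15), (5, 20), (6,
  18), (6, 24), (7, 16), (7, 23), (11, 8), (11, 19), (13, 9), (13, 17), (26, 78), (26, 104), (27,
  76), (27, 103), (28, 79), (28, 102), (29, 77), (29, 101), (31, 93), (31, 124), (33, 94), (33,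
  122), (38, 84), (38, 117), (40, 95), (40, 110), (45, 85), (45, 105), (48, 89), (48, 107), (50,
  25), (50, 75), (56, 43), (56, 99), (57, 41), (57, 98), (58, 44), (58, 97), (59, 42), (59, 96),
  (60, 30), (60, 90), (63, 34), (63, 92), (64, 32), (64, 91), (67, 46), (67, 88), (68, 49), (68,
  87), (69, 47), (69, 86), (70, 35), (70, 80), (72, 36), (72, 83), (73, 39), (73, 82), (74, 37),
  (74, 81)], [], [], [], [], [], [], [], [], [], [], [], [], [], [], [], [], [], [], [], [], [],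
  [], [], [], [], [], [], [], [], [], [], [], [], [], [], [], [], [], [], [], [], [], [], [], [],
  [], [], [], [], [], [], [], [], []]), (2, 0, [[], [], [(1, 0), (1, 20), (2, 0), (2, 15), (5,
  0), (5, 100), (6, 0), (6, 120), (7, 0), (7, 115), (8, 0), (8, 110), (9, 0), (9, 105), (10, 0),
  (10, 75), (11, 0), (11, 95), (12, 0), (12, 90), (13, 0), (13, 85), (14, 0), (14, 80), (25, 0),
  (25, 27), (26, 0), (26, 47), (27, 0), (27, 42), (28, 0), (28, 37), (29, 0), (29, 32), (30, 0),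
  (30, 2), (31, 0), (31, 22), (32, 0), (32, 17), (33, 0), (33, 12), (34, 0), (34, 7), (35, 0),
  (35, 102), (36, 0), (36, 122), (37, 0), (37, 117), (38, 0), (38, 112), (39, 0), (39, 107), (40,
  0), (40, 77), (41, 0), (41, 97), (42, 0), (42, 92), (43, 0), (43, 87), (44, 0), (44, 82), (45,
  0), (45, 52), (46, 0), (46, 72), (47, 0), (47, 67), (48, 0), (48, 62), (49, 0), (49, 57), (50,
  0), (50, 54), (51, 0), (51, 74), (52, 0), (52, 69), (53, 0), (53, 64), (54, 0), (54, 59), (55,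
  0), (55, 29), (56, 0), (56, 49), (57, 0), (57, 44), (58, 0), (58, 39), (59, 0), (59, 34), (60,
  0), (60, 4), (61, 0), (61, 24), (62, 0), (62, 19), (63, 0), (63, 14), (64, 0), (64, 9), (65,
  0), (65, 104), (66, 0), (66, 124), (67, 0), (67, 119), (68, 0), (68, 114), (69, 0), (69, 109),
  (70, 0), (70, 79), (71, 0), (71, 99), (72, 0), (72, 94), (73, 0), (73, 89), (74, 0), (74, 84)],
  [], [], [], [(1, 0)], [], [], [], [], [], [], [], [], [], [], [], [], [], [], [], [], [], [],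
  [], [], [], [], [], [], [], [], [], [], [], [], [], [], [], [], [], [], [], [], [], [], [], [],
  [], [], [], [], [], [], [], [], [], [], [], [], [], [], []]), (2, 1, [[], [(2, 4)], [(60, 0)],
  [(2, 0)], [], [], [], [], [(30, 0), (60, 0)], [], [], [], [], [(60, 0), (88, 37), (94, 56),
  (110, 54), (115, 13), (118, 0)], [], [(30, 0), (50, 0), (92, 50), (101, 23), (115, 52), (123,
  22)], [], [(15, 36), (30, 0), (38, 95), (42, 30), (47, 0), (124, 46)], [], [(1, 0), (10, 16),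
  (55, 78), (72, 84), (107, 120), (120, 0)], [], [(4, 0), (11, 100), (13, 14), (42, 43), (47, 0),
  (95, 109)], [(63, 93), (67, 115)], [(4, 17), (47, 0), (60, 0), (100, 104)], [(26, 53), (88,
  21)], [(2, 0), (108, 105), (114, 99), (120, 0)], [(63, 113), (104, 65)], [(4, 0), (30, 31),
  (37, 83), (69, 0)], [(40, 8), (51, 70)], [(14, 107), (47, 0), (50, 0), (71, 29)], [(79, 29),
  (96, 89)], [(53, 33), (57, 0), (119, 59), (120, 0)], [(5, 61), (51, 59)], [(4, 0), (18, 19),
  (22, 70), (81, 0)], [(39, 108), (43, 44), (72, 90), (96, 97)], [(47, 0), (90, 0)], [(5, 81),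
  (11, 23), (32, 37), (94, 34)], [(3, 0), (120, 0)], [(65, 79), (106, 15), (110, 102), (117,
  67)], [(4, 0), (86, 0)], [(13, 14), (63, 77)], [(9, 42), (90, 0), (113, 93), (118, 0)], [(31,
  46), (88, 42)], [(3, 0), (15, 21), (93, 35), (100, 0)], [(48, 120), (104, 35)], [(55, 65), (86,
  0), (89, 77), (114, 0)], [(36, 123), (95, 41)], [(47, 0), (59, 39), (120, 0), (123, 5)], [(8,
  12), (113, 39)], [(4, 0), (20, 76), (85, 86), (120, 0)], [(15, 76), (71, 49)], [(4, 0), (40,
  41), (43, 63), (108, 0)], [], [], [], [], [], [], [], [], [], [], [], []]), (2, 125, [[], [],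
  [], [(1, 0), (1, 4), (2, 0), (2, 3), (5, 0), (5, 20), (6, 0), (6, 24), (7, 0), (7, 23), (8, 0),
  (8, 22), (9, 0), (9, 21), (10, 0), (10, 15), (11, 0), (11, 19), (12, 0), (12, 18), (13, 0),
  (13, 17), (14, 0), (14, 16), (25, 0), (25, 100), (26, 0), (26, 104), (27, 0), (27, 103), (28,
  0), (28, 102), (29, 0), (29, 101), (30, 0), (30, 120), (31, 0), (31, 124), (32, 0), (32, 123),
  (33, 0), (33, 122), (34, 0), (34, 121), (35, 0), (35, 115), (36, 0), (36, 119), (37, 0), (37,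
  118), (38, 0), (38, 117), (39, 0), (39, 116), (40, 0), (40, 110), (41, 0), (41, 114), (42, 0),
  (42, 113), (43, 0), (43, 112), (44, 0), (44, 111), (45, 0), (45, 105), (46, 0), (46, 109), (47,
  0), (47, 108), (48, 0), (48, 107), (49, 0), (49, 106), (50, 0), (50, 75), (51, 0), (51, 79),
  (52, 0), (52, 78), (53, 0), (53, 77), (54, 0), (54, 76), (55, 0), (55, 95), (56, 0), (56, 99),
  (57, 0), (57, 98), (58, 0), (58, 97), (59, 0), (59, 96), (60, 0), (60, 90), (61, 0), (61, 94),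
  (62, 0), (62, 93), (63, 0), (63, 92), (64, 0), (64, 91), (65, 0), (65, 85), (66, 0), (66, 89),
  (67, 0), (67, 88), (68, 0), (68, 87), (69, 0), (69, 86), (70, 0), (70, 80), (71, 0), (71, 84),
  (72, 0), (72, 83), (73, 0), (73, 82), (74, 0), (74, 81)], [], [], [(1, 0)], [], [], [], [], [],
  [], [], [], [], [], [], [], [], [], [], [], [], [], [], [], [], [], [], [], [], [], [], [], [],
  [], [], [], [], [], [], [], [], [], [], [], [], [], [], [], [], [], [], [], [], [], [], [], [],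
  [], [], [], []]), (2, 126, [[], [(2, 4)], [(30, 2)], [(1, 0)], [], [], [], [], [], [(1, 0), (2,
  4)], [], [], [], [], [], [], [], [], [], [], [], [], [(101, 15), (110, 1)], [(14, 122), (15,
  0)], [(6, 108), (59, 1)], [(53, 11), (55, 0)], [(7, 34), (20, 1)], [(18, 48), (42, 0)], [(5,
  1), (108, 26)], [(2, 84), (113, 0)], [(30, 56), (110, 1)], [(15, 0), (69, 100)], [(1, 72), (59,
  1)], [(55, 0), (90, 95)], [(32, 1), (94, 1)], [(82, 0), (99, 0)], [(65, 1), (106, 1)], [(91,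
  0), (122, 0)], [(112, 1), (116, 1)], [(45, 0), (68, 0)], [(47, 74), (48, 1)], [(3, 98), (93,
  0)], [(17, 1), (120, 28)], [(86, 82), (89, 0)], [(4, 58), (124, 1)], [(21, 0), (60, 103)],
  [(14, 1), (96, 24)], [(6, 0), (95, 60)], [(5, 68), (53, 1)], [(7, 0), (113, 7)], [(18, 1),
  (110, 91)], [(15, 88), (29, 0)], [(30, 3), (50, 76), (61, 6), (86, 109)], [(4, 10), (37, 117),
  (69, 3), (73, 92)], [(1, 3), (49, 87), (57, 41), (60, 30)], [(25, 50), (33, 20), (90, 3), (108,
  47)], [(2, 16), (39, 64), (47, 3), (81, 39)], [(3, 3), (30, 121), (41, 110), (87, 69)], [(9,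
  106), (15, 1), (18, 61), (27, 104), (84, 1), (109, 47)], [(11, 0), (29, 67), (48, 13), (59, 0),
  (92, 16), (111, 73)], [(16, 8), (36, 1), (52, 121), (55, 1), (80, 99), (93, 32)], [(17, 45),
  (20, 0), (24, 90), (67, 109), (76, 27), (117, 0)], [(8, 1), (42, 1), (58, 83), (77, 89), (89,
  18), (121, 10)], [(23, 23), (26, 30), (40, 0), (83, 0), (115, 57), (124, 124)]]), (2, 251, [[],
  [], [(60, 0)], [(1, 0)], [], [(30, 0)], [], [], [(30, 1)], [(2, 0)], [], [], [], [(31, 1), (48,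
  1), (56, 109), (99, 47), (107, 0), (124, 0)], [], [(44, 0), (54, 0), (71, 115), (76, 1), (84,
  36), (111, 1)], [], [(13, 1), (17, 0), (34, 0), (45, 15), (105, 11), (121, 1)], [], [(31, 1),
  (46, 1), (56, 108), (99, 48), (109, 0), (124, 0)], [], [(48, 1), (52, 0), (64, 34), (78, 1),
  (91, 122), (107, 0)], [], [(74, 0), (81, 1)], [], [(50, 0), (75, 1)], [], [(57, 0), (98, 1)],
  [], [(64, 1), (91, 0)], [], [(45, 0), (105, 1)], [], [(56, 0), (99, 1)], [(10, 43), (15, 113)],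
  [], [(55, 115), (95, 36)], [], [(42, 53), (113, 78)], [], [], [(8, 1), (22, 0)], [], [(71, 1),
  (84, 0)], [], [(36, 0), (119, 1)], [], [(29, 1), (101, 0)], [], [(6, 0), (24, 1)], [], [(7, 0),
  (23, 1)], [], [(8, 52), (14, 36), (16, 115), (22, 79), (33, 12), (50, 103), (57, 40), (60, 4),
  (75, 28), (90, 2), (98, 111), (122, 19)], [], [(2, 4), (3, 2), (53, 78), (57, 98), (68, 107),
  (71, 112), (74, 118), (77, 53), (81, 38), (84, 44), (87, 49), (98, 58)], [], [(12, 113), (18,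
  43), (36, 37), (50, 51), (69, 4), (73, 33), (74, 74), (75, 75), (81, 82), (82, 123), (86, 2),
  (119, 119)], [(44, 42), (111, 114)], [(47, 0), (57, 40), (60, 0), (90, 1), (98, 111), (108,
  1)], [(54, 35), (76, 116)], [(2, 0), (3, 1), (30, 1), (74, 118), (81, 38), (120, 0)], [(35,
  77), (115, 54)], [(1, 1), (4, 0), (50, 51), (69, 0), (75, 75), (86, 1)]]), (2, 375, [[], [],
  [], [], [], [], [(1, 0)], [], [(2, 0), (2, 20), (5, 0), (5, 50), (6, 0), (6, 60), (7, 0), (7,
  70), (11, 0), (11, 110), (13, 0), (13, 105), (26, 0), (26, 86), (27, 0), (27, 96), (28, 0),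
  (28, 81), (29, 0), (29, 91), (31, 0), (31, 11), (33, 0), (33, 6), (38, 0), (38, 56), (40, 0),
  (40, 101), (45, 0), (45, 26), (48, 0), (48, 31), (50, 0), (50, 27), (56, 0), (56, 87), (57, 0),
  (57, 97), (58, 0), (58, 82), (59, 0), (59, 92), (60, 0), (60, 2), (63, 0), (63, 7), (64, 0),
  (64, 17), (67, 0), (67, 72), (68, 0), (68, 57), (69, 0), (69, 67), (70, 0), (70, 102), (72, 0),
  (72, 122), (73, 0), (73, 107), (74, 0), (74, 117)], [(2, 0), (2, 4), (5, 0), (5, 10), (6, 0),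
  (6, 12), (7, 0), (7, 14), (11, 0), (11, 22), (13, 0), (13, 21), (26, 0), (26, 52), (27, 0),
  (27, 54), (28, 0), (28, 51), (29, 0), (29, 53), (31, 0), (31, 62), (33, 0), (33, 61), (38, 0),
  (38, 71), (40, 0), (40, 55), (45, 0), (45, 65), (48, 0), (48, 66), (50, 0), (50, 100), (56, 0),
  (56, 112), (57, 0), (57, 114), (58, 0), (58, 111), (59, 0), (59, 113), (60, 0), (60, 120), (63,
  0), (63, 121), (64, 0), (64, 123), (67, 0), (67, 109), (68, 0), (68, 106), (69, 0), (69, 108),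
  (70, 0), (70, 115), (72, 0), (72, 119), (73, 0), (73, 116), (74, 0), (74, 118)], [], [], [],
  [], [], [], [], [], [], [], [], [], [], [], [], [], [], [], [], [], [], [], [], [], [], [], [],
  [], [], [], [], [], [], [], [], [], [], [], [], [], [], [], [], [], [], [], [], [], [], [], [],
  [], [], []])]

set_option maxRecDepth 100000 in
theorem dec377 : Dec (Fin 377) (fun _ => True) :=
  F125.f125Cert3 3 26752253540647932735138710582155946220
    1837710606251475902931488719483816405616670121780158491231110680542884476474708885848661380558791488807616024260014676817255964653729556568693345234751702683299755784711596565087142557267596216915036611421942048624050363785735215896901688542469979922772283764787296012199797890580433194214204146289824203200218821329102695819169082767261962415384367255388939432851245672432641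
    2049
    (by norm_num) (by decide +kernel) base377 cv377 (by decide +kernel)

end Pool.Agent.H53.S3
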