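import Mathlib
import Pool.Agent.H53.S3.PrimeCert3

namespace Pool.Agent.H53.S3

def base386 : List C3.BB :=
  [([0, 1, 84, 108, 193], [(1, 0), (84, 0), (108, 0)]), ([0, 1, 2, 213, 368], [(1, 0), (192,
  2)]), ([0, 1, 4, 52, 125], [(1, 0)]), ([0, 1, 5, 30, 370], [(1, 0)]), ([0, 1, 3, 143, 216],
  [(1, 0)]), ([0, 1, 8, 28, 292], [(1, 0)]), ([0, 1, 37, 296, 384], [(1, 0)]), ([0, 1, 22, 268,
  319], [(1, 0)]), ([0, 1, 15, 317, 335], [(1, 0)]), ([0, 1, 38, 206, 208], [(1, 0)]), ([0, 1,
  31, 253, 314], [(1, 0)]), ([0, 1, 68, 238, 366], [(1, 0)]), ([0, 1, 20, 198, 291], [(1, 0)]),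
  ([0, 1, 19, 305, 355], [(1, 0)]), ([0, 193, 194, 277, 301], [(1, 0), (84, 0), (108, 0)]), ([20,
  175, 193, 194, 195], [(1, 0), (192, 2)]), ([193, 194, 197, 245, 318], [(1, 0)]), ([177, 193,
  194, 198, 223], [(1, 0)]), ([23, 193, 194, 196, 336], [(1, 0)]), ([99, 193, 194, 201, 221],
  [(1, 0)]), ([103, 191, 193, 194, 230], [(1, 0)]), ([75, 126, 193, 194, 215], [(1, 0)]), ([124,
  142, 193, 194, 208], [(1, 0)]), ([13, 15, 193, 194, 231], [(1, 0)]), ([60, 121, 193, 194, 224],
  [(1, 0)]), ([45, 173, 193, 194, 261], [(1, 0)]), ([5, 98, 193, 194, 213], [(1, 0)]), ([112,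
  162, 193, 194, 212], [(1, 0)])]

def cv386 : List (ℕ × ℕ × List (List (ℕ × ℕ))) :=
  [(0, 1, [[(1, 0), (8, 101), (85, 1), (100, 93)], [(1, 0), (1, 192), (96, 1)], [(1, 0), (4,
  178), (14, 180), (26, 0), (37, 7), (48, 1), (53, 140), (64, 130), (67, 118), (88, 1), (105, 0),
  (126, 76), (129, 64), (140, 54), (145, 0), (156, 187), (167, 1), (179, 14), (189, 16), (192,
  1)], [(1, 0), (20, 173), (45, 1), (48, 146), (54, 117), (77, 1), (116, 0), (139, 77), (145,
  48), (148, 0), (173, 21), (192, 1)], [(1, 0), (27, 0), (51, 41), (53, 141), (64, 1), (96, 98),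
  (97, 96), (129, 0), (140, 53), (142, 153), (166, 1), (192, 1)], [(1, 0), (24, 1), (29, 154),
  (50, 144), (55, 139), (62, 1), (131, 0), (138, 55), (143, 50), (164, 40), (169, 0), (192, 1)],
  [(1, 0), (59, 134), (73, 1), (120, 0), (134, 60), (192, 1)], [(1, 0), (46, 147), (79, 0), (114,
  1), (147, 47), (192, 1)], [(1, 0), (69, 124), (90, 1), (103, 0), (124, 70), (192, 1)], [(1, 0),
  (66, 1), (73, 121), (120, 73), (127, 0), (192, 1)], [(1, 0), (45, 149), (56, 1), (137, 0),
  (148, 45), (192, 1)], [(1, 0), (72, 122), (88, 0), (105, 1), (121, 72), (192, 1)], [(1, 0),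
  (29, 0), (61, 132), (132, 62), (164, 1), (192, 1)], [(1, 0), (61, 0), (75, 119), (118, 75),
  (132, 1), (192, 1)], [], [(66, 31)], [], [], [], [], [(68, 137), (125, 57)], [(53, 78), (140,
  116)], [(75, 158), (118, 36)], [(96, 104), (97, 90)], [(19, 18), (174, 176)], [(95, 164), (98,
  30)], [(83, 165), (110, 29)], [(27, 65), (166, 129)]]), (0, 193, [[(1, 0), (2, 0), (3, 0), (4,
  0), (5, 0), (6, 0), (7, 0), (8, 0), (10, 0), (11, 0), (12, 0), (13, 0), (14, 0), (15, 0), (16,
  0), (17, 0), (19, 0), (20, 0), (21, 0), (22, 0), (24, 0), (25, 0), (26, 0), (28, 0), (29, 0),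
  (31, 0), (32, 0), (33, 0), (35, 0), (38, 0), (39, 0), (40, 0), (41, 0), (42, 0), (47, 0), (48,
  0), (49, 0), (50, 0), (55, 0), (56, 0), (57, 0), (62, 0), (64, 0), (66, 0), (71, 0), (73, 0),
  (75, 0), (78, 0), (80, 0), (82, 0), (85, 0), (87, 0), (89, 0), (91, 0), (94, 0), (96, 0), (98,
  0), (100, 0), (103, 0), (105, 0), (107, 0), (112, 0), (114, 0), (121, 0)], [], [], [], [], [],
  [], [], [], [], [], [], [], [], [(1, 0), (2, 0), (3, 0), (4, 0), (5, 0), (6, 0), (7, 0), (8,
  0), (10, 0), (11, 0), (12, 0), (13, 0), (14, 0), (15, 0), (16, 0), (17, 0), (19, 0), (20, 0),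
  (21, 0), (22, 0), (24, 0), (25, 0), (26, 0), (28, 0), (29, 0), (31, 0), (32, 0), (33, 0), (35,
  0), (38, 0), (39, 0), (40, 0), (41, 0), (42, 0), (47, 0), (48, 0), (49, 0), (50, 0), (55, 0),
  (56, 0), (57, 0), (62, 0), (64, 0), (66, 0), (71, 0), (73, 0), (75, 0), (78, 0), (80, 0), (82,
  0), (85, 0), (87, 0), (89, 0), (91, 0), (94, 0), (96, 0), (98, 0), (100, 0), (103, 0), (105,
  0), (107, 0), (112, 0), (114, 0), (121, 0)], [], [], [], [], [], [], [], [], [], [], [], [],
  []]), (0, 194, [[(85, 1)], [(29, 0), (61, 132), (75, 0)], [], [(12, 0), (34, 159), (147, 37),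
  (172, 51)], [(29, 106), (42, 0), (79, 114), (156, 80)], [(39, 0), (65, 128), (70, 19), (87,
  73)], [(15, 0), (64, 129), (94, 189), (96, 0), (123, 70), (155, 55)], [(13, 100), (51, 36),
  (60, 133), (72, 0), (105, 88), (175, 0)], [(38, 9), (85, 76), (102, 91), (140, 0), (167, 26),
  (179, 0)], [(54, 71), (69, 124), (103, 0), (104, 0), (151, 52), (177, 16)], [(20, 152), (36,
  157), (37, 156), (67, 0), (74, 0), (178, 79)], [(125, 185), (136, 57), (147, 46), (151, 154),
  (163, 0), (164, 0)], [(2, 191), (65, 0), (90, 130), (116, 0), (145, 48), (146, 168)], [(6,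
  187), (27, 66), (40, 153), (56, 0), (81, 0), (110, 33)], [(1, 0)], [(29, 136), (61, 133), (75,
  44)], [], [(21, 143), (46, 157), (159, 35), (181, 1)], [(37, 114), (114, 80), (151, 1), (164,
  88)], [(106, 121), (123, 175), (128, 66), (154, 1)], [(38, 139), (70, 124), (97, 1), (99, 5),
  (129, 65), (178, 1)], [(18, 1), (88, 106), (121, 1), (133, 61), (142, 158), (180, 94)], [(14,
  1), (26, 168), (53, 1), (91, 103), (108, 118), (155, 185)], [(16, 178), (42, 142), (89, 1),
  (90, 1), (124, 70), (139, 123)], [(15, 115), (119, 1), (126, 1), (156, 38), (157, 37), (173,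
  42)], [(29, 1), (30, 1), (42, 40), (46, 148), (57, 137), (68, 9)], [(47, 26), (48, 146), (77,
  1), (103, 64), (128, 1), (191, 3)], [(83, 161), (112, 1), (137, 1), (153, 41), (166, 128),
  (187, 7)]]), (1, 0, [[(1, 0), (2, 0), (3, 0), (4, 0), (5, 0), (6, 0), (7, 0), (8, 0), (10, 0),
  (11, 0), (12, 0), (13, 0), (14, 0), (15, 0), (16, 0), (17, 0), (19, 0), (20, 0), (21, 0), (22,
  0), (24, 0), (25, 0), (26, 0), (28, 0), (29, 0), (31, 0), (32, 0), (33, 0), (35, 0), (38, 0),
  (39, 0), (40, 0), (41, 0), (42, 0), (47, 0), (48, 0), (49, 0), (50, 0), (55, 0), (56, 0), (57,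
  0), (62, 0), (64, 0), (66, 0), (71, 0), (73, 0), (75, 0), (78, 0), (80, 0), (82, 0), (85, 0),
  (87, 0), (89, 0), (91, 0), (94, 0), (96, 0), (98, 0), (100, 0), (103, 0), (105, 0), (107, 0),
  (112, 0), (114, 0), (121, 0)], [], [], [], [], [], [], [], [], [], [], [], [], [], [(1, 0), (2,
  0), (3, 0), (4, 0), (5, 0), (6, 0), (7, 0), (8, 0), (10, 0), (11, 0), (12, 0), (13, 0), (14,
  0), (15, 0), (16, 0), (17, 0), (19, 0), (20, 0), (21, 0), (22, 0), (24, 0), (25, 0), (26, 0),
  (28, 0), (29, 0), (31, 0), (32, 0), (33, 0), (35, 0), (38, 0), (39, 0), (40, 0), (41, 0), (42,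
  0), (47, 0), (48, 0), (49, 0), (50, 0), (55, 0), (56, 0), (57, 0), (62, 0), (64, 0), (66, 0),
  (71, 0), (73, 0), (75, 0), (78, 0), (80, 0), (82, 0), (85, 0), (87, 0), (89, 0), (91, 0), (94,
  0), (96, 0), (98, 0), (100, 0), (103, 0), (105, 0), (107, 0), (112, 0), (114, 0), (121, 0)],
  [], [], [], [], [], [], [], [], [], [], [], [], []]), (1, 1, [[(1, 0)], [(29, 136), (61, 133),
  (75, 44)], [], [(21, 143), (46, 157), (159, 35), (181, 1)], [(37, 114), (114, 80), (151, 1),
  (164, 88)], [(106, 121), (123, 175), (128, 66), (154, 1)], [(38, 139), (70, 124), (97, 1), (99,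
  5), (129, 65), (178, 1)], [(18, 1), (88, 106), (121, 1), (133, 61), (142, 158), (180, 94)],
  [(14, 1), (26, 168), (53, 1), (91, 103), (108, 118), (155, 185)], [(16, 178), (42, 142), (89,
  1), (90, 1), (124, 70), (139, 123)], [(15, 115), (119, 1), (126, 1), (156, 38), (157, 37),
  (173, 42)], [(29, 1), (30, 1), (42, 40), (46, 148), (57, 137), (68, 9)], [(47, 26), (48, 146),
  (77, 1), (103, 64), (128, 1), (191, 3)], [(83, 161), (112, 1), (137, 1), (153, 41), (166, 128),
  (187, 7)], [(85, 1)], [(29, 0), (61, 132), (75, 0)], [], [(12, 0), (34, 159), (147, 37), (172,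
  51)], [(29, 106), (42, 0), (79, 114), (156, 80)], [(39, 0), (65, 128), (70, 19), (87, 73)],
  [(15, 0), (64, 129), (94, 189), (96, 0), (123, 70), (155, 55)], [(13, 100), (51, 36), (60,
  133), (72, 0), (105, 88), (175, 0)], [(38, 9), (85, 76), (102, 91), (140, 0), (167, 26), (179,
  0)], [(54, 71), (69, 124), (103, 0), (104, 0), (151, 52), (177, 16)], [(20, 152), (36, 157),
  (37, 156), (67, 0), (74, 0), (178, 79)], [(125, 185), (136, 57), (147, 46), (151, 154), (163,
  0), (164, 0)], [(2, 191), (65, 0), (90, 130), (116, 0), (145, 48), (146, 168)], [(6, 187), (27,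
  66), (40, 153), (56, 0), (81, 0), (110, 33)]]), (1, 194, [[], [(66, 31)], [], [], [], [], [(68,
  137), (125, 57)], [(53, 78), (140, 116)], [(75, 158), (118, 36)], [(96, 104), (97, 90)], [(19,
  18), (174, 176)], [(95, 164), (98, 30)], [(83, 165), (110, 29)], [(27, 65), (166, 129)], [(1,
  0), (8, 101), (85, 1), (100, 93)], [(1, 0), (1, 192), (96, 1)], [(1, 0), (4, 178), (14, 180),
  (26, 0), (37, 7), (48, 1), (53, 140), (64, 130), (67, 118), (88, 1), (105, 0), (126, 76), (129,
  64), (140, 54), (145, 0), (156, 187), (167, 1), (179, 14), (189, 16), (192, 1)], [(1, 0), (20,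
  173), (45, 1), (48, 146), (54, 117), (77, 1), (116, 0), (139, 77), (145, 48), (148, 0), (173,
  21), (192, 1)], [(1, 0), (27, 0), (51, 41), (53, 141), (64, 1), (96, 98), (97, 96), (129, 0),
  (140, 53), (142, 153), (166, 1), (192, 1)], [(1, 0), (24, 1), (29, 154), (50, 144), (55, 139),
  (62, 1), (131, 0), (138, 55), (143, 50), (164, 40), (169, 0), (192, 1)], [(1, 0), (59, 134),
  (73, 1), (120, 0), (134, 60), (192, 1)], [(1, 0), (46, 147), (79, 0), (114, 1), (147, 47),
  (192, 1)], [(1, 0), (69, 124), (90, 1), (103, 0), (124, 70), (192, 1)], [(1, 0), (66, 1), (73,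
  121), (120, 73), (127, 0), (192, 1)], [(1, 0), (45, 149), (56, 1), (137, 0), (148, 45), (192,
  1)], [(1, 0), (72, 122), (88, 0), (105, 1), (121, 72), (192, 1)], [(1, 0), (29, 0), (61, 132),
  (132, 62), (164, 1), (192, 1)], [(1, 0), (61, 0), (75, 119), (118, 75), (132, 1), (192, 1)]])]

set_option maxRecDepth 100000 in
theorem dec386 : Dec (Fin 386) (fun _ => True) :=
  C3.primeCert3 193 2 0 192
    18243369220403094148850254364957478670517049788901107525208930358869635392970553363293601844920828678699592839674291270345959288711689147569470133800800910702695266242056424816423812328464303055120029577583339389637598177346201726789821271983999889595648321402902731291223958111045154771288121486797126345874428202626347044876054059502198053965816009931614024299040667511623873941907242128511774403779167569092301813214767979856507471910620662782517464485893512301598147332802113708809434954757863203873841137128743246776415317812880434790926270997433803861537462281586636145820673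
    0
    (by norm_num) (by norm_num) (by norm_num) (by norm_num) base386 cv386 (by decide +kernel)

end Pool.Agent.H53.S3
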