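import Mathlib
import Pool.Agent.H53.S3.Decomp

namespace Pool.Agent.H53.S3

open Finset

theorem exists_map_eq {α β : Type} (f : α ↪ β) (T : Finset β) (h : ∀ x ∈ T, ∃ y, f y = x) :
    ∃ S : Finset α, S.map f = T := by
  classical
  refine ⟨T.preimage f f.injective.injOn, ?_⟩
  ext x
  simp only [Finset.mem_map, Finset.mem_preimage]
  constructor
  · rintro ⟨y, hy, rfl⟩
    exact hy
  · intro hx
    obtain ⟨y, rfl⟩ := h x hx
    exact ⟨y, hx, rfl⟩

def p1 {U F : Type} : Option (U × F) → Option U := Option.map Prod.fst
def p2 {U F : Type} : Option (U × F) → Option F := Option.map Prod.snd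

theorem enum4 {U : Type} [DecidableEq U] (b : Finset (Option U)) (hb : b.card = 5)
    (hn : none ∈ b) : ∃ e : Fin 4 ↪ U, ∀ u : U, some u ∈ b ↔ ∃ i, e i = u := by
  classical
  have hc : (Finset.eraseNone b).card = 4 := by
    rw [Finset.card_eraseNone_of_mem hn, hb]
  refine ⟨((Finset.equivFinOfCardEq hc).symm.toEmbedding.trans (Function.Embedding.subtype _)), ?_⟩
  intro u
  rw [← Finset.mem_eraseNone]
  constructor
  · intro hu
    refine ⟨(Finset.equivFinOfCardEq hc) ⟨u, hu⟩, ?_⟩
    simp
  · rintro ⟨i, rfl⟩
    simp only [Function.Embedding.trans_apply, Function.Embedding.subtype_apply]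
    exact ((Finset.equivFinOfCardEq hc).symm i).2

theorem enum5 {U : Type} [DecidableEq U] (b : Finset (Option U)) (hb : b.card = 5)
    (hn : none ∉ b) : ∃ e : Fin 5 ↪ U, ∀ u : U, some u ∈ b ↔ ∃ i, e i = u := by
  classical
  have hc : (Finset.eraseNone b).card = 5 := by
    rw [Finset.card_eraseNone_of_not_mem hn, hb]
  refine ⟨((Finset.equivFinOfCardEq hc).symm.toEmbedding.trans (Function.Embedding.subtype _)), ?_⟩
  intro u
  rw [← Finset.mem_eraseNone]
  constructor
  · intro hu
    refine ⟨(Finset.equivFinOfCardEq hc) ⟨u, hu⟩, ?_⟩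
    simp
  · rintro ⟨i, rfl⟩
    simp only [Function.Embedding.trans_apply, Function.Embedding.subtype_apply]
    exact ((Finset.equivFinOfCardEq hc).symm i).2


/-- the embedding of a fibre -/
def fU {U F : Type} (u : U) : Option F ↪ Option (U × F) :=
  ⟨Option.map (fun y => (u, y)), by
    intro a b h
    cases a <;> cases b <;> simp at h ⊢
    exact h⟩

def f4 {U F : Type} (e : Fin 4 ↪ U) : Option (Fin 4 × F) ↪ Option (U × F) :=
  ⟨Option.map (fun y => (e y.1, y.2)), by
    intro a b h
    rcases a with _ | ⟨a, a'⟩ <;> rcases b with _ | ⟨b, b'⟩ <;> simp at h ⊢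
    exact h⟩

def f5 {U F : Type} (e : Fin 5 ↪ U) : Fin 5 × F ↪ Option (U × F) :=
  ⟨fun y => some (e y.1, y.2), by
    rintro ⟨a, a'⟩ ⟨b, b'⟩ h
    simp at h ⊢
    exact h⟩

@[simp] theorem fU_none {U F : Type} (u : U) : (fU u : Option F ↪ Option (U × F)) none = none := rfl
@[simp] theorem fU_some {U F : Type} (u : U) (y : F) : fU u (some y) = some (u, y) := rfl
@[simp] theorem f4_none {U F : Type} (e : Fin 4 ↪ U) :
    (f4 e : Option (Fin 4 × F) ↪ Option (U × F)) none = none := rfl
@[simp] theorem f4_some {U F : Type} (e : Fin 4 ↪ U) (y : Fin 4 × F) :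
    f4 e (some y) = some (e y.1, y.2) := rfl
@[simp] theorem f5_apply {U F : Type} (e : Fin 5 ↪ U) (y : Fin 5 × F) :
    f5 e y = some (e y.1, y.2) := rfl
@[simp] theorem p1_none' {U F : Type} : (p1 : Option (U × F) → Option U) none = none := rfl
@[simp] theorem p1_some {U F : Type} (y : U × F) : p1 (some y) = some y.1 := rfl
@[simp] theorem p2_none' {U F : Type} : (p2 : Option (U × F) → Option F) none = none := rfl
@[simp] theorem p2_some {U F : Type} (y : U × F) : p2 (some y) = some y.2 := rfl

section
variable {U F : Type} [DecidableEq U] [DecidableEq F]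

/-- the pieces of the decomposition -/
def piece (D : Finset (Option F) → Prop) (A : Set (Finset (Option U))) :
    U ⊕ A → Finset (Option (U × F)) → Prop
  | Sum.inl u, T => T.image p1 ⊆ {none, some u} ∧ D (T.image p2)
  | Sum.inr b, T => T.image p1 ⊆ b.1 ∧ 3 ≤ (T.image p1 ∪ (b.1 ∩ {none})).card ∧ D (T.image p2)

theorem dec_inl (D : Finset (Option F) → Prop) (A : Set (Finset (Option U)))
    (h1 : Dec (Option F) D) (u : U) : Dec (Option (U × F)) (piece D A (Sum.inl u)) := by
  refine (h1.map (fU u)).congr ?_
  intro T hT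
  have hid : ∀ S : Finset (Option F), (S.map (fU u)).image p2 = S := by
    intro S
    ext x
    simp only [Finset.mem_image, Finset.mem_map]
    constructor
    · rintro ⟨_, ⟨y, hy, rfl⟩, rfl⟩
      cases y <;> simpa using hy
    · intro hx
      refine ⟨fU u x, ⟨x, hx, rfl⟩, ?_⟩
      cases x <;> simp
  constructor
  · rintro ⟨S, hS, rfl⟩
    refine ⟨?_, by rw [hid]; exact hS⟩
    intro x hx
    simp only [Finset.mem_image, Finset.mem_map] at hx
    obtain ⟨_, ⟨y, hy, rfl⟩, rfl⟩ := hx
    cases y <;> simp
  · rintro ⟨h, hD⟩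
    obtain ⟨S, rfl⟩ := exists_map_eq (fU u) T (by
      intro x hx
      have := h (Finset.mem_image_of_mem p1 hx)
      rcases x with _ | ⟨v, y⟩
      · exact ⟨none, rfl⟩
      · simp only [p1, Option.map_some, Finset.mem_insert, Finset.mem_singleton] at this
        rcases this with h' | h'
        · cases h'
        · simp only [Option.some.injEq] at h'
          subst h'
          exact ⟨some y, rfl⟩)
    rw [hid] at hD
    exact ⟨S, hD, rfl⟩

theorem dec_inr4 (D : Finset (Option F) → Prop) (A : Set (Finset (Option U)))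
    (h4 : Dec (Option (Fin 4 × F))
      (fun S => 3 ≤ (insert none (S.image p1)).card ∧ D (S.image p2)))
    (b : A) (hb : b.1.card = 5) (hn : none ∈ b.1) :
    Dec (Option (U × F)) (piece D A (Sum.inr b)) := by
  obtain ⟨e, he⟩ := enum4 b.1 hb hn
  refine (h4.map (f4 e)).congr ?_
  intro T hT
  have hid : ∀ S : Finset (Option (Fin 4 × F)), (S.map (f4 e)).image p2 = S.image p2 := by
    intro S
    ext x
    simp only [Finset.mem_image, Finset.mem_map]
    constructor
    · rintro ⟨_, ⟨y, hy, rfl⟩, rfl⟩
      exact ⟨y, hy, by cases y <;> simp⟩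
    · rintro ⟨y, hy, rfl⟩
      exact ⟨_, ⟨y, hy, rfl⟩, by cases y <;> simp⟩
  have hp : ∀ S : Finset (Option (Fin 4 × F)),
      (S.map (f4 e)).image p1 ∪ (b.1 ∩ {none}) = (insert none (S.image p1)).map e.optionMap := by
    intro S
    have hbn : b.1 ∩ {none} = {none} := by
      ext x
      simp only [Finset.mem_inter, Finset.mem_singleton]
      constructor
      · rintro ⟨_, rfl⟩; rfl
      · rintro rfl; exact ⟨hn, rfl⟩
    rw [hbn]
    ext x
    simp only [Finset.mem_union, Finset.mem_image, Finset.mem_map, Finset.mem_singleton,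
      Finset.mem_insert]
    constructor
    · rintro (⟨_, ⟨y, hy, rfl⟩, rfl⟩ | rfl)
      · exact ⟨p1 y, Or.inr ⟨y, hy, rfl⟩, by cases y <;> simp⟩
      · exact ⟨none, Or.inl rfl, by simp⟩
    · rintro ⟨z, (rfl | ⟨y, hy, rfl⟩), rfl⟩
      · right; simp
      · left
        exact ⟨_, ⟨y, hy, rfl⟩, by cases y <;> simp⟩
  constructor
  · rintro ⟨S, ⟨hS1, hS2⟩, rfl⟩
    refine ⟨?_, ?_, by rw [hid]; exact hS2⟩
    · intro x hx
      simp only [Finset.mem_image, Finset.mem_map] at hx
      obtain ⟨_, ⟨y, hy, rfl⟩, rfl⟩ := hx
      rcases y with _ | ⟨i, y⟩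
      · exact hn
      · exact (he _).2 ⟨i, rfl⟩
    · rw [hp, Finset.card_map]
      exact hS1
  · rintro ⟨h, h3, hD⟩
    obtain ⟨S, rfl⟩ := exists_map_eq (f4 e) T (by
      intro x hx
      have := h (Finset.mem_image_of_mem p1 hx)
      rcases x with _ | ⟨v, y⟩
      · exact ⟨none, rfl⟩
      · obtain ⟨i, rfl⟩ := (he v).1 this
        exact ⟨some (i, y), rfl⟩)
    rw [hid] at hD
    rw [hp, Finset.card_map] at h3
    exact ⟨S, ⟨h3, hD⟩, rfl⟩

theorem dec_inr5 (D : Finset (Option F) → Prop) (A : Set (Finset (Option U)))
    (h5 : Dec (Fin 5 × F)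
      (fun S => 3 ≤ (S.image Prod.fst).card ∧ D (S.image (fun x => some x.2))))
    (b : A) (hb : b.1.card = 5) (hn : none ∉ b.1) :
    Dec (Option (U × F)) (piece D A (Sum.inr b)) := by
  obtain ⟨e, he⟩ := enum5 b.1 hb hn
  refine (h5.map (f5 e)).congr ?_
  intro T hT
  have hid : ∀ S : Finset (Fin 5 × F),
      (S.map (f5 e)).image p2 = S.image (fun x => some x.2) := by
    intro S
    ext x
    simp only [Finset.mem_image, Finset.mem_map]
    constructor
    · rintro ⟨_, ⟨y, hy, rfl⟩, rfl⟩
      exact ⟨y, hy, by simp⟩
    · rintro ⟨y, hy, rfl⟩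
      exact ⟨_, ⟨y, hy, rfl⟩, by simp⟩
  have hp : ∀ S : Finset (Fin 5 × F),
      (S.map (f5 e)).image p1 ∪ (b.1 ∩ {none}) =
        (S.image Prod.fst).map (e.trans Function.Embedding.some) := by
    intro S
    have hbn : b.1 ∩ {none} = ∅ := by
      ext x
      simp only [Finset.mem_inter, Finset.mem_singleton, Finset.notMem_empty, iff_false]
      rintro ⟨h, rfl⟩
      exact hn h
    rw [hbn, Finset.union_empty]
    ext x
    simp only [Finset.mem_image, Finset.mem_map]
    constructor
    · rintro ⟨_, ⟨y, hy, rfl⟩, rfl⟩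
      exact ⟨y.1, ⟨y, hy, rfl⟩, by simp⟩
    · rintro ⟨z, ⟨y, hy, rfl⟩, rfl⟩
      exact ⟨_, ⟨y, hy, rfl⟩, by simp⟩
  constructor
  · rintro ⟨S, ⟨hS1, hS2⟩, rfl⟩
    refine ⟨?_, ?_, by rw [hid]; exact hS2⟩
    · intro x hx
      simp only [Finset.mem_image, Finset.mem_map] at hx
      obtain ⟨_, ⟨y, hy, rfl⟩, rfl⟩ := hx
      exact (he _).2 ⟨y.1, rfl⟩
    · rw [hp, Finset.card_map]
      exact hS1
  · rintro ⟨h, h3, hD⟩
    obtain ⟨S, rfl⟩ := exists_map_eq (f5 e) T (by
      intro x hx
      have := h (Finset.mem_image_of_mem p1 hx)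
      rcases x with _ | ⟨v, y⟩
      · exact absurd this hn
      · obtain ⟨i, rfl⟩ := (he v).1 this
        exact ⟨(i, y), rfl⟩)
    rw [hid] at hD
    rw [hp, Finset.card_map] at h3
    exact ⟨S, ⟨h3, hD⟩, rfl⟩

theorem inflate (D : Finset (Option F) → Prop)
    (hU : Dec (Option U) (fun _ => True))
    (h1 : Dec (Option F) D)
    (h4 : Dec (Option (Fin 4 × F))
      (fun S => 3 ≤ (insert none (S.image p1)).card ∧ D (S.image p2)))
    (h5 : Dec (Fin 5 × F)
      (fun S => 3 ≤ (S.image Prod.fst).card ∧ D (S.image (fun x => some x.2)))) :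
    Dec (Option (U × F)) (fun T => D (T.image p2)) := by
  obtain ⟨A, a1, a2, a3, a4⟩ := hU
  have hpieces : ∀ i, Dec (Option (U × F)) (piece D A i) := by
    rintro (u | b)
    · exact dec_inl D A h1 u
    · by_cases hn : none ∈ b.1
      · exact dec_inr4 D A h4 b (a1 b.1 b.2) hn
      · exact dec_inr5 D A h5 b (a1 b.1 b.2) hn
  have hsome : ∀ T : Finset (Option (U × F)), T.card = 3 → ∃ u, some u ∈ T.image p1 := by
    intro T hT
    have : ¬ T ⊆ {none} := by
      intro h
      have := Finset.card_le_card h
      rw [hT] at this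
      simp at this
    obtain ⟨x, hx, hx'⟩ := Finset.not_subset.1 this
    rcases x with _ | ⟨u, y⟩
    · simp at hx'
    · exact ⟨u, Finset.mem_image.2 ⟨_, hx, rfl⟩⟩
  refine (Dec.union hpieces ?_).congr ?_
  · intro T hT i j hi hj
    have hP : (T.image p1).card ≤ 3 := hT ▸ Finset.card_image_le
    rcases i with u | b <;> rcases j with u' | b'
    · obtain ⟨w, hw⟩ := hsome T hT
      have e1 := hi.1 hw
      have e2 := hj.1 hw
      simp at e1 e2
      rw [← e1, ← e2]
    · exfalso
      have h3 := hj.2.1
      have : T.image p1 ∪ (b'.1 ∩ {none}) ⊆ {none, some u} := by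
        apply Finset.union_subset hi.1
        intro x hx
        simp only [Finset.mem_inter, Finset.mem_singleton] at hx
        simp [hx.2]
      have := Finset.card_le_card this
      have h2 : ({none, some u} : Finset (Option U)).card ≤ 2 := Finset.card_le_two
      omega
    · exfalso
      have h3 := hi.2.1
      have : T.image p1 ∪ (b.1 ∩ {none}) ⊆ {none, some u'} := by
        apply Finset.union_subset hj.1
        intro x hx
        simp only [Finset.mem_inter, Finset.mem_singleton] at hx
        simp [hx.2]
      have := Finset.card_le_card this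
      have h2 : ({none, some u'} : Finset (Option U)).card ≤ 2 := Finset.card_le_two
      omega
    · congr 1
      apply Subtype.ext
      by_cases hc : (T.image p1).card = 3
      · exact a4 _ hc b.1 b.2 b'.1 b'.2 hi.1 hj.1
      · have key : ∀ c : A, piece D A (Sum.inr c) T → none ∈ c.1 ∧ none ∉ T.image p1 ∧
            (insert none (T.image p1)).card = 3 := by
          intro c hcT
          have h3 := hcT.2.1
          have hn : none ∈ c.1 := by
            by_contra hn
            have : c.1 ∩ {none} = ∅ := by
              ext x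
              simp only [Finset.mem_inter, Finset.mem_singleton, Finset.notMem_empty, iff_false]
              rintro ⟨h, rfl⟩
              exact hn h
            rw [this, Finset.union_empty] at h3
            omega
          have hcn : c.1 ∩ {none} = {none} := by
            ext x
            simp only [Finset.mem_inter, Finset.mem_singleton]
            constructor
            · rintro ⟨_, rfl⟩; rfl
            · rintro rfl; exact ⟨hn, rfl⟩
          rw [hcn] at h3
          have hn2 : none ∉ T.image p1 := by
            intro h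
            have : T.image p1 ∪ {none} = T.image p1 := by
              apply Finset.union_eq_left.2
              simpa using h
            rw [this] at h3
            omega
          refine ⟨hn, hn2, ?_⟩
          rw [Finset.card_insert_of_notMem hn2]
          rw [Finset.union_comm, Finset.singleton_union, Finset.card_insert_of_notMem hn2] at h3
          omega
        obtain ⟨n1, n2, n3⟩ := key b hi
        obtain ⟨n1', -, -⟩ := key b' hj
        exact a4 _ n3 b.1 b.2 b'.1 b'.2 (Finset.insert_subset n1 hi.1)
          (Finset.insert_subset n1' hj.1)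
  · intro T hT
    have hP : (T.image p1).card ≤ 3 := hT ▸ Finset.card_image_le
    constructor
    · rintro ⟨i, hi⟩
      rcases i with u | b
      · exact hi.2
      · exact hi.2.2
    · intro hD
      obtain ⟨w, hw⟩ := hsome T hT
      by_cases h2 : (insert none (T.image p1)).card ≤ 2
      · refine ⟨Sum.inl w, ?_, hD⟩
        have hsub : ({none, some w} : Finset (Option U)) ⊆ insert none (T.image p1) := by
          intro x hx
          simp only [Finset.mem_insert, Finset.mem_singleton] at hx
          rcases hx with rfl | rfl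
          · simp
          · exact Finset.mem_insert_of_mem hw
        have heq : ({none, some w} : Finset (Option U)) = insert none (T.image p1) := by
          apply Finset.eq_of_subset_of_card_le hsub
          rw [Finset.card_pair (by simp)]
          exact h2
        rw [heq]
        exact Finset.subset_insert _ _
      · push Not at h2
        by_cases hc : (T.image p1).card = 3
        · obtain ⟨b, hb, hTb⟩ := a3 _ hc trivial
          refine ⟨Sum.inr ⟨b, hb⟩, hTb, ?_, hD⟩
          calc 3 = (T.image p1).card := hc.symm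
            _ ≤ _ := Finset.card_le_card Finset.subset_union_left
        · have hn2 : none ∉ T.image p1 := by
            intro h
            rw [Finset.insert_eq_of_mem h] at h2
            omega
          have hc3 : (insert none (T.image p1)).card = 3 := by
            rw [Finset.card_insert_of_notMem hn2] at h2 ⊢
            omega
          obtain ⟨b, hb, hTb⟩ := a3 _ hc3 trivial
          refine ⟨Sum.inr ⟨b, hb⟩, (Finset.subset_insert _ _).trans hTb, ?_, hD⟩
          have : insert none (T.image p1) ⊆ T.image p1 ∪ (b ∩ {none}) := by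
            intro x hx
            rcases Finset.mem_insert.1 hx with rfl | hx
            · apply Finset.mem_union_right
              simp only [Finset.mem_inter, Finset.mem_singleton, and_true]
              exact hTb (Finset.mem_insert_self _ _)
            · exact Finset.mem_union_left _ hx
          calc 3 = (insert none (T.image p1)).card := hc3.symm
            _ ≤ _ := Finset.card_le_card this

end

end Pool.Agent.H53.S3
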