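import Mathlib
import Pool.Agent.H53.S3.Inflate
import Pool.Agent.H53.S3.Mask

namespace Pool.Agent.H53.S3

def listA : List (List ℕ) :=
  [[0, 1, 4, 9, 10], [0, 1, 5, 8, 11], [0, 1, 6, 12, 14], [0, 1, 7, 13, 15], [0, 2, 4, 7, 11], [0,
  2, 5, 6, 9], [0, 2, 8, 14, 15], [0, 2, 10, 12, 13], [0, 3, 4, 6, 15], [0, 3, 5, 7, 12], [0, 3,
  8, 9, 13], [0, 3, 10, 11, 14], [0, 4, 5, 13, 14], [0, 5, 10, 15, 16], [0, 6, 7, 8, 10], [0, 6,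
  11, 13, 16], [0, 7, 9, 14, 16], [0, 9, 11, 12, 15], [1, 2, 4, 6, 13], [1, 2, 5, 7, 14], [1, 2,
  8, 9, 12], [1, 2, 10, 11, 15], [1, 3, 4, 7, 8], [1, 3, 5, 6, 10], [1, 3, 9, 14, 15], [1, 3, 11,
  12, 13], [1, 4, 5, 12, 15], [1, 4, 11, 14, 16], [1, 6, 7, 9, 11], [1, 6, 8, 15, 16], [1, 7, 10,
  12, 16], [1, 8, 10, 13, 14], [2, 3, 4, 12, 14], [2, 3, 5, 13, 15], [2, 3, 6, 8, 11], [2, 3, 7,
  9, 10], [2, 4, 5, 8, 10], [2, 4, 9, 15, 16], [2, 5, 11, 12, 16], [2, 6, 7, 12, 15], [2, 7, 8,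
  13, 16], [2, 9, 11, 13, 14], [3, 4, 5, 9, 11], [3, 4, 10, 13, 16], [3, 5, 8, 14, 16], [3, 6, 7,
  13, 14], [3, 6, 9, 12, 16], [3, 8, 10, 12, 15], [4, 6, 8, 9, 14], [4, 6, 10, 11, 12], [4, 7, 9,
  12, 13], [4, 7, 10, 14, 15], [4, 8, 11, 13, 15], [5, 6, 8, 12, 13], [5, 6, 11, 14, 15], [5, 7,
  8, 9, 15], [5, 7, 10, 11, 13], [5, 9, 10, 12, 14], [6, 9, 10, 13, 15], [7, 8, 11, 12, 14]]

def listB : List (List ℕ) :=
  [[0, 4, 9, 13, 19], [0, 4, 10, 14, 17], [0, 4, 11, 15, 18], [0, 5, 8, 15, 17], [0, 5, 9, 14,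
  18], [0, 5, 10, 13, 16], [0, 5, 11, 12, 19], [0, 6, 8, 13, 18], [0, 6, 9, 12, 17], [0, 6, 10,
  15, 19], [0, 6, 11, 14, 16], [0, 7, 8, 14, 19], [0, 7, 9, 15, 16], [0, 7, 10, 12, 18], [0, 7,
  11, 13, 17], [1, 4, 8, 15, 19], [1, 4, 9, 14, 16], [1, 4, 10, 13, 18], [1, 4, 11, 12, 17], [1,
  5, 8, 12, 18], [1, 5, 10, 14, 19], [1, 5, 11, 15, 16], [1, 6, 8, 14, 17], [1, 6, 9, 15, 18], [1,
  6, 10, 12, 16], [1, 6, 11, 13, 19], [1, 7, 8, 13, 16], [1, 7, 9, 12, 19], [1, 7, 10, 15, 17],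
  [1, 7, 11, 14, 18], [2, 4, 8, 13, 17], [2, 4, 9, 12, 18], [2, 4, 10, 15, 16], [2, 4, 11, 14,
  19], [2, 5, 8, 14, 16], [2, 5, 9, 15, 19], [2, 5, 10, 12, 17], [2, 5, 11, 13, 18], [2, 6, 8, 12,
  19], [2, 6, 9, 13, 16], [2, 6, 11, 15, 17], [2, 7, 8, 15, 18], [2, 7, 9, 14, 17], [2, 7, 10, 13,
  19], [2, 7, 11, 12, 16], [3, 4, 8, 14, 18], [3, 4, 9, 15, 17], [3, 4, 10, 12, 19], [3, 4, 11,
  13, 16], [3, 5, 8, 13, 19], [3, 5, 9, 12, 16], [3, 5, 10, 15, 18], [3, 5, 11, 14, 17], [3, 6, 8,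
  15, 16], [3, 6, 9, 14, 19], [3, 6, 10, 13, 17], [3, 6, 11, 12, 18], [3, 7, 8, 12, 17], [3, 7, 9,
  13, 18], [3, 7, 10, 14, 16]]

def encA : Option (Fin 4 × Fin 4) → ℕ
  | none => 16
  | some (x, y) => x.val + 4 * y.val

def decA (k : ℕ) : Option (Fin 4 × Fin 4) :=
  if k < 16 then some (⟨k % 4, Nat.mod_lt _ (by norm_num)⟩, ⟨(k / 4) % 4, Nat.mod_lt _ (by norm_num)⟩)
  else none

def encB : Fin 5 × Fin 4 → ℕ
  | (i, y) => i.val * 4 + y.val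

def decB (k : ℕ) : Fin 5 × Fin 4 :=
  (⟨(k / 4) % 5, Nat.mod_lt _ (by norm_num)⟩, ⟨k % 4, Nat.mod_lt _ (by norm_num)⟩)

theorem ingA : Dec (Option (Fin 4 × Fin 4)) (fun S => 3 ≤ (insert none (S.image p1)).card ∧
    3 ≤ (insert none (S.image p2)).card) := by
  refine dec_of_check _ 17 encA decA (by decide) (by decide) (by decide) listA (by decide +kernel) ?_
  decide +kernel

theorem ingB : Dec (Fin 5 × Fin 4) (fun S => 3 ≤ (S.image Prod.fst).card ∧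
    3 ≤ (insert none (S.image (fun x => some x.2))).card) := by
  refine dec_of_check _ 20 encB decB (by decide) (by decide) (by decide) listB (by decide +kernel) ?_
  decide +kernel

theorem ingC : Dec (Option (Fin 4)) (fun S => 3 ≤ (insert none S).card) := by
  refine ⟨{Finset.univ}, ?_, ?_, ?_, ?_⟩
  · rintro b rfl
    simp
  · rintro b rfl T _ hT
    calc 3 = T.card := hT.symm
      _ ≤ _ := Finset.card_le_card (Finset.subset_insert _ _)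
  · intro T _ _
    exact ⟨_, rfl, Finset.subset_univ _⟩
  · rintro T _ b rfl b' rfl _ _
    rfl

end Pool.Agent.H53.S3
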