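import Mathlib
import Pool.Agent.H53.S3.Ingr

namespace Pool.Agent.H53.S3

def Good (v : ℕ) : Prop := ∃ (R : Type) (_ : CommRing R) (_ : Fintype R), Fintype.card R = v ∧
  ∃ a b : R, IsUnit a ∧ IsUnit b ∧ IsUnit (a - 1) ∧ IsUnit (b - 1) ∧ IsUnit (a - b)

theorem sub10 : ∀ I : Finset (Fin 5), I.card = 3 →
    (0 ∈ I ∧ 1 ∈ I ∧ 2 ∈ I) ∨ (0 ∈ I ∧ 1 ∈ I ∧ 3 ∈ I) ∨ (0 ∈ I ∧ 1 ∈ I ∧ 4 ∈ I) ∨
    (0 ∈ I ∧ 2 ∈ I ∧ 3 ∈ I) ∨ (0 ∈ I ∧ 2 ∈ I ∧ 4 ∈ I) ∨ (0 ∈ I ∧ 3 ∈ I ∧ 4 ∈ I) ∨
    (1 ∈ I ∧ 2 ∈ I ∧ 3 ∈ I) ∨ (1 ∈ I ∧ 2 ∈ I ∧ 4 ∈ I) ∨ (1 ∈ I ∧ 3 ∈ I ∧ 4 ∈ I) ∨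
    (2 ∈ I ∧ 3 ∈ I ∧ 4 ∈ I) := by
  decide

section
variable {R : Type} [CommRing R]

def word (a b : R) (w : R × R × R) : Fin 5 → R :=
  ![w.1, w.2.1, w.2.2, w.1 + w.2.1 + w.2.2, w.1 + a * w.2.1 + b * w.2.2]

theorem word_inj {a b : R} (ha : IsUnit a) (hb : IsUnit b) (ha1 : IsUnit (a - 1))
    (hb1 : IsUnit (b - 1)) (hab : IsUnit (a - b)) (w w' : R × R × R) (I : Finset (Fin 5))
    (hI : I.card = 3) (h : ∀ i ∈ I, word a b w i = word a b w' i) : w = w' := by
  obtain ⟨x, y, z⟩ := w
  obtain ⟨x', y', z'⟩ := w'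
  have h0 : 0 ∈ I → x = x' := fun hi => by simpa [word] using h 0 hi
  have h1 : 1 ∈ I → y = y' := fun hi => by simpa [word] using h 1 hi
  have h2 : 2 ∈ I → z = z' := fun hi => by simpa [word] using h 2 hi
  have h3 : 3 ∈ I → x + y + z = x' + y' + z' := fun hi => by simpa [word] using h 3 hi
  have h4 : 4 ∈ I → x + a * y + b * z = x' + a * y' + b * z' := fun hi => by
    simpa [word] using h 4 hi
  rcases sub10 I hI with ⟨i, j, k⟩ | ⟨i, j, k⟩ | ⟨i, j, k⟩ | ⟨i, j, k⟩ | ⟨i, j, k⟩ | ⟨i, j, k⟩ |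
    ⟨i, j, k⟩ | ⟨i, j, k⟩ | ⟨i, j, k⟩ | ⟨i, j, k⟩
  · rw [h0 i, h1 j, h2 k]
  · have e1 := h0 i
    have e2 := h1 j
    have e3 := h3 k
    subst e1 e2
    have : z = z' := by linear_combination e3
    rw [this]
  · have e1 := h0 i
    have e2 := h1 j
    have e3 := h4 k
    subst e1 e2
    have : b * z = b * z' := by linear_combination e3
    rw [hb.mul_left_cancel this]
  · have e1 := h0 i
    have e2 := h2 j
    have e3 := h3 k
    subst e1 e2
    have : y = y' := by linear_combination e3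
    rw [this]
  · have e1 := h0 i
    have e2 := h2 j
    have e3 := h4 k
    subst e1 e2
    have : a * y = a * y' := by linear_combination e3
    rw [ha.mul_left_cancel this]
  · have e1 := h0 i
    have e2 := h3 j
    have e3 := h4 k
    subst e1
    have : (a - b) * y = (a - b) * y' := by linear_combination e3 - b * e2
    have ey := hab.mul_left_cancel this
    subst ey
    have : z = z' := by linear_combination e2
    rw [this]
  · have e1 := h1 i
    have e2 := h2 j
    have e3 := h3 k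
    subst e1 e2
    have : x = x' := by linear_combination e3
    rw [this]
  · have e1 := h1 i
    have e2 := h2 j
    have e3 := h4 k
    subst e1 e2
    have : x = x' := by linear_combination e3
    rw [this]
  · have e1 := h1 i
    have e2 := h3 j
    have e3 := h4 k
    subst e1
    have : (b - 1) * z = (b - 1) * z' := by linear_combination e3 - e2
    have ey := hb1.mul_left_cancel this
    subst ey
    have : x = x' := by linear_combination e2
    rw [this]
  · have e1 := h2 i
    have e2 := h3 j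
    have e3 := h4 k
    subst e1
    have : (a - 1) * y = (a - 1) * y' := by linear_combination e3 - e2
    have ey := ha1.mul_left_cancel this
    subst ey
    have : x = x' := by linear_combination e2
    rw [this]

theorem dec_td [Fintype R] [DecidableEq R] {a b : R} (ha : IsUnit a) (hb : IsUnit b)
    (ha1 : IsUnit (a - 1)) (hb1 : IsUnit (b - 1)) (hab : IsUnit (a - b)) :
    Dec (Fin 5 × R) (fun S => 3 ≤ (S.image Prod.fst).card) := by
  have key : ∀ (w : R × R × R) (p : Fin 5 × R),
      p ∈ (Finset.univ.image (fun i : Fin 5 => (i, word a b w i))) ↔ word a b w p.1 = p.2 := by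
    intro w p
    simp only [Finset.mem_image, Finset.mem_univ, true_and]
    constructor
    · rintro ⟨i, rfl⟩
      rfl
    · intro h
      exact ⟨p.1, by rw [h]⟩
  have hcard3 : ∀ (w : R × R × R) (T : Finset (Fin 5 × R)), T.card = 3 →
      T ⊆ (Finset.univ.image (fun i : Fin 5 => (i, word a b w i))) →
      (T.image Prod.fst).card = 3 := by
    intro w T hT hs
    rw [Finset.card_image_of_injOn, hT]
    intro p hp q hq h
    have e1 := (key w p).1 (hs hp)
    have e2 := (key w q).1 (hs hq)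
    apply Prod.ext h
    rw [← e1, ← e2, h]
  refine ⟨{S | ∃ w : R × R × R, S = Finset.univ.image (fun i : Fin 5 => (i, word a b w i))},
    ?_, ?_, ?_, ?_⟩
  · rintro _ ⟨w, rfl⟩
    rw [Finset.card_image_of_injective]
    · simp
    · intro i j h
      simp only [Prod.mk.injEq] at h
      exact h.1
  · rintro _ ⟨w, rfl⟩ T hs hT
    exact (hcard3 w T hT hs).ge
  · intro T hT hT3
    have hle : (T.image Prod.fst).card ≤ T.card := Finset.card_image_le
    have hI : (T.image Prod.fst).card = 3 := by omega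
    have hinj : Set.InjOn Prod.fst (T : Set (Fin 5 × R)) := by
      apply Finset.card_image_iff.1
      rw [hI, hT]
    have hbij : Function.Bijective
        (fun (w : R × R × R) (i : {i // i ∈ T.image Prod.fst}) => word a b w i.1) := by
      rw [Fintype.bijective_iff_injective_and_card]
      constructor
      · intro w w' h
        apply word_inj ha hb ha1 hb1 hab w w' _ hI
        intro i hi
        exact congrFun h ⟨i, hi⟩
      · rw [Fintype.card_fun, Fintype.card_prod, Fintype.card_prod, Fintype.card_coe, hI]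
        ring
    have hch : ∀ i : {i // i ∈ T.image Prod.fst}, ∃ p ∈ T, p.1 = i.1 := by
      intro i
      obtain ⟨p, hp, e⟩ := Finset.mem_image.1 i.2
      exact ⟨p, hp, e⟩
    choose f hf hf1 using hch
    obtain ⟨w, hw⟩ := hbij.2 (fun i => (f i).2)
    refine ⟨_, ⟨w, rfl⟩, ?_⟩
    intro p hp
    rw [key]
    have hpi : p.1 ∈ T.image Prod.fst := Finset.mem_image_of_mem _ hp
    have := congrFun hw ⟨p.1, hpi⟩
    simp only at this
    rw [this]
    have e : f ⟨p.1, hpi⟩ = p := hinj (hf _) hp (hf1 _)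
    rw [e]
  · rintro T hT _ ⟨w, rfl⟩ _ ⟨w', rfl⟩ hs hs'
    have hI := hcard3 w T hT hs
    have : w = w' := by
      apply word_inj ha hb ha1 hb1 hab w w' _ hI
      intro i hi
      obtain ⟨p, hp, rfl⟩ := Finset.mem_image.1 hi
      rw [(key w p).1 (hs hp), (key w' p).1 (hs' hp)]
    rw [this]

end

theorem dec_swap {R : Type} [DecidableEq R]
    (h : Dec (Option (R × Fin 4)) (fun T => 3 ≤ (insert none (T.image p2)).card)) :
    Dec (Option (Fin 4 × R)) (fun S => 3 ≤ (insert none (S.image p1)).card ∧ True) := by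
  refine (h.map (Equiv.optionCongr (Equiv.prodComm R (Fin 4))).toEmbedding).congr ?_
  intro T hT
  have hid : ∀ S : Finset (Option (R × Fin 4)),
      (S.map (Equiv.optionCongr (Equiv.prodComm R (Fin 4))).toEmbedding).image p1 =
        S.image p2 := by
    intro S
    ext x
    simp only [Finset.mem_image, Finset.mem_map]
    constructor
    · rintro ⟨_, ⟨y, hy, rfl⟩, rfl⟩
      exact ⟨y, hy, by cases y <;> rfl⟩
    · rintro ⟨y, hy, rfl⟩
      exact ⟨_, ⟨y, hy, rfl⟩, by cases y <;> rfl⟩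
  constructor
  · rintro ⟨S, hS, rfl⟩
    rw [hid]
    exact ⟨hS, trivial⟩
  · rintro ⟨h3, -⟩
    obtain ⟨S, rfl⟩ := exists_map_eq (Equiv.optionCongr (Equiv.prodComm R (Fin 4))).toEmbedding T
      (fun x _ => ⟨(Equiv.optionCongr (Equiv.prodComm R (Fin 4))).symm x, by simp⟩)
    rw [hid] at h3
    exact ⟨S, h3, rfl⟩

theorem prod_steiner {v w : ℕ} (hg : Good v) (hv : Dec (Fin (v + 1)) (fun _ => True))
    (hw : Dec (Fin (w + 1)) (fun _ => True)) : Dec (Fin (v * w + 1)) (fun _ => True) := by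
  classical
  obtain ⟨R, iR, iF, hc, a, b, ha, hb, ha1, hb1, hab⟩ := hg
  have hV : Dec (Option R) (fun _ => True) := by
    refine hv.equiv (Fintype.equivOfCardEq ?_)
    rw [Fintype.card_fin, Fintype.card_option, hc]
  have hW : Dec (Option (Fin w)) (fun _ => True) := by
    refine hw.equiv (Fintype.equivOfCardEq ?_)
    rw [Fintype.card_fin, Fintype.card_option, Fintype.card_fin]
  have s1 : Dec (Option (R × Fin 4)) (fun T => 3 ≤ (insert none (T.image p2)).card) :=
    inflate (fun S => 3 ≤ (insert none S).card) hV (ingC.congr (fun T _ => by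
      have : ∀ (i j : DecidableEq (Option (Fin 4))), i = j := fun i j => Subsingleton.elim _ _
      simp)) (ingA.congr (fun T _ => by simp)) (ingB.congr (fun T _ => by simp))
  have s2 := dec_swap s1
  have s3 : Dec (Option (Fin w × R)) (fun _ => True) :=
    inflate (fun _ => True) hW hV s2
      ((dec_td ha hb ha1 hb1 hab).congr (fun T _ => by simp))
  refine s3.equiv (Fintype.equivOfCardEq ?_)
  rw [Fintype.card_fin, Fintype.card_option, Fintype.card_prod, Fintype.card_fin, hc,
    Nat.mul_comm]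

end Pool.Agent.H53.S3
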