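import Mathlib
import Pool.Agent.H53.S3.Product
import Pool.Agent.H53.S3.F125
import Pool.Agent.H53.S3.Base26
import Pool.Agent.H53.S3.Base137
import Pool.Agent.H53.S3.Base146
import Pool.Agent.H53.S3.Base161
import Pool.Agent.H53.S3.Base197
import Pool.Agent.H53.S3.Base206
import Pool.Agent.H53.S3.Base302
import Pool.Agent.H53.S3.Base317
import Pool.Agent.H53.S3.Base326
import Pool.Agent.H53.S3.Base362
import Pool.Agent.H53.S3.Base377
import Pool.Agent.H53.S3.Base386
import Pool.Agent.H53.S3.Base3125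

namespace Pool.Agent.H53.S3

theorem good_mul {v w : ℕ} (hv : Good v) (hw : Good w) : Good (v * w) := by
  obtain ⟨R, iR, iF, hc, a, b, h1, h2, h3, h4, h5⟩ := hv
  obtain ⟨S, iS, iF', hc', a', b', k1, k2, k3, k4, k5⟩ := hw
  refine ⟨R × S, inferInstance, inferInstance, by rw [Fintype.card_prod, hc, hc'], (a, a'), (b, b'),
    ?_, ?_, ?_, ?_, ?_⟩ <;> rw [Prod.isUnit_iff]
  · exact ⟨h1, k1⟩
  · exact ⟨h2, k2⟩
  · exact ⟨h3, k3⟩
  · exact ⟨h4, k4⟩
  · exact ⟨h5, k5⟩

theorem good_coprime (n : ℕ) (hn : n ≠ 0) (h2 : Nat.Coprime 2 n) (h3 : Nat.Coprime 3 n) :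
    Good n := by
  have : NeZero n := ⟨hn⟩
  have u2 : IsUnit (2 : ZMod n) := by
    have := (ZMod.isUnit_iff_coprime 2 n).2 h2
    simpa using this
  have u3 : IsUnit (3 : ZMod n) := by
    have := (ZMod.isUnit_iff_coprime 3 n).2 h3
    simpa using this
  refine ⟨ZMod n, inferInstance, inferInstance, ZMod.card n, 2, 3, u2, u3, ?_, ?_, ?_⟩
  · have : (2 : ZMod n) - 1 = 1 := by ring
    rw [this]; exact isUnit_one
  · have : (3 : ZMod n) - 1 = 2 := by ring
    rw [this]; exact u2
  · have : (2 : ZMod n) - 3 = -1 := by ring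
    rw [this]; exact isUnit_one.neg

theorem good_two_pow (k : ℕ) (hk : 2 ≤ k) : Good (2 ^ k) := by
  classical
  have hfin : Finite (GaloisField 2 k) := Nat.finite_of_card_ne_zero (by
    rw [GaloisField.card 2 k (by omega)]; positivity)
  have : Fintype (GaloisField 2 k) := Fintype.ofFinite _
  have hc : Fintype.card (GaloisField 2 k) = 2 ^ k := by
    rw [← Nat.card_eq_fintype_card, GaloisField.card 2 k (by omega)]
  have h4 : 4 ≤ 2 ^ k := by
    calc 4 = 2 ^ 2 := rfl
      _ ≤ 2 ^ k := Nat.pow_le_pow_right (by norm_num) hk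
  have ex : ∀ s : Finset (GaloisField 2 k), s.card ≤ 3 → ∃ x, x ∉ s := by
    intro s hs
    by_contra hcon
    push Not at hcon
    have : s = Finset.univ := Finset.eq_univ_of_forall hcon
    rw [this, Finset.card_univ, hc] at hs
    omega
  obtain ⟨a, ha⟩ := ex {0, 1} (Finset.card_le_two.trans (by norm_num))
  obtain ⟨b, hb⟩ := ex {0, 1, a} Finset.card_le_three
  simp only [Finset.mem_insert, Finset.mem_singleton, not_or] at ha hb
  refine ⟨GaloisField 2 k, inferInstance, inferInstance, hc, a, b, ?_, ?_, ?_, ?_, ?_⟩ <;>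
    rw [isUnit_iff_ne_zero]
  · exact ha.1
  · exact hb.1
  · exact sub_ne_zero.2 ha.2
  · exact sub_ne_zero.2 hb.2.1
  · exact sub_ne_zero.2 (Ne.symm hb.2.2)

theorem dec2 : Dec (Fin 2) (fun _ => True) := by
  have hno : ∀ T : Finset (Fin 2), T.card ≠ 3 := by decide
  exact ⟨∅, by simp, by simp, fun T hT _ => absurd hT (hno T), fun T hT => absurd hT (hno T)⟩

theorem dec5 : Dec (Fin 5) (fun _ => True) := by
  refine ⟨{Finset.univ}, ?_, ?_, ?_, ?_⟩
  · rintro b rfl
    simp
  · intro _ _ _ _ _
    trivial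
  · intro T _ _
    exact ⟨_, rfl, Finset.subset_univ _⟩
  · rintro T _ b rfl b' rfl _ _
    rfl

/-- the generators -/
def gensD : Set ℕ := {4, 25, 124, 136, 145, 160, 196, 205, 301, 316, 325, 361, 376, 385, 3124}

theorem good_gens : ∀ m ∈ gensD, Good m ∧ Dec (Fin (m + 1)) (fun _ => True) := by
  intro m hm
  simp only [gensD, Set.mem_insert_iff, Set.mem_singleton_iff] at hm
  rcases hm with rfl | rfl | rfl | rfl | rfl | rfl | rfl | rfl | rfl | rfl | rfl | rfl | rfl | rfl |
    rfl
  · exact ⟨good_two_pow 2 (by norm_num), dec5⟩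
  · exact ⟨good_coprime 25 (by norm_num) (by norm_num) (by norm_num), dec26⟩
  · exact ⟨good_mul (good_two_pow 2 (by norm_num))
      (good_coprime 31 (by norm_num) (by norm_num) (by norm_num)), dec125⟩
  · exact ⟨good_mul (good_two_pow 3 (by norm_num))
      (good_coprime 17 (by norm_num) (by norm_num) (by norm_num)), dec137⟩
  · exact ⟨good_coprime 145 (by norm_num) (by norm_num) (by norm_num), dec146⟩
  · exact ⟨good_mul (good_two_pow 5 (by norm_num))
      (good_coprime 5 (by norm_num) (by norm_num) (by norm_num)), dec161⟩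
  · exact ⟨good_mul (good_two_pow 2 (by norm_num))
      (good_coprime 49 (by norm_num) (by norm_num) (by norm_num)), dec197⟩
  · exact ⟨good_coprime 205 (by norm_num) (by norm_num) (by norm_num), dec206⟩
  · exact ⟨good_coprime 301 (by norm_num) (by norm_num) (by norm_num), dec302⟩
  · exact ⟨good_mul (good_two_pow 2 (by norm_num))
      (good_coprime 79 (by norm_num) (by norm_num) (by norm_num)), dec317⟩
  · exact ⟨good_coprime 325 (by norm_num) (by norm_num) (by norm_num), dec326⟩
  · exact ⟨good_coprime 361 (by norm_num) (by norm_num) (by norm_num), dec362⟩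
  · exact ⟨good_mul (good_two_pow 3 (by norm_num))
      (good_coprime 47 (by norm_num) (by norm_num) (by norm_num)), dec377⟩
  · exact ⟨good_coprime 385 (by norm_num) (by norm_num) (by norm_num), dec386⟩
  · exact ⟨good_mul (good_two_pow 2 (by norm_num))
      (good_coprime 781 (by norm_num) (by norm_num) (by norm_num)), dec3125⟩

theorem dec_family (m : ℕ) (hm : m ∈ Submonoid.closure gensD) :
    Dec (Fin (m + 1)) (fun _ => True) := by
  induction hm using Submonoid.closure_induction_left with
  | one => exact dec2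
  | mul_left x hx y hy ih => exact prod_steiner (good_gens x hx).1 (good_gens x hx).2 ih

end Pool.Agent.H53.S3
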