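import Mathlib
import Pool.Agent.H53.S3.Cert2

namespace Pool.Agent.H53.S3

namespace C2

/-- `c` copies of the prime field and two further points that nonsquares interchange -/
theorem primeCert2 (p c N M : ℕ) (hp : p.Prime) (hc0 : 0 < c) (hN : 0 < N) (hM : 2 * M = p - 1)
    (base : List (List ℕ)) (RM : List (ℕ × List ℕ))
    (hf : fullOK p c 2 (fun x y => (x + y) % p) (fun x y => (x * y) % p)
      (fun x => (p - x) % p) (fun x => Nat.beq (x ^ N % p) 1)
      (fun x => if Nat.beq (x ^ M % p) 1 then 0 else 1)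
      base RM = true) : Dec (Fin (p * c + 2)) (fun _ => True) := by
  have : Fact p.Prime := ⟨hp⟩
  have : NeZero c := ⟨hc0.ne'⟩
  have hp2 : 2 < p := by
    have := hp.two_le
    rcases Nat.lt_or_ge 2 p with h | h
    · exact h
    · exfalso
      have : p = 2 := by omega
      omega
  have epow : ∀ (u : (ZMod p)ˣ) (k : ℕ), ((u : ZMod p) ^ k).val = (u : ZMod p).val ^ k % p := by
    intro u k
    rw [← ZMod.val_natCast, Nat.cast_pow, ZMod.natCast_zmod_val]
  have hiff : ∀ (u : (ZMod p)ˣ) (k : ℕ), Nat.beq ((u : ZMod p).val ^ k % p) 1 = true ↔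
      (u : ZMod p) ^ k = 1 := by
    intro u k
    rw [Nat.beq_eq, ← epow]
    constructor
    · intro h
      apply ZMod.val_injective p
      rw [h, ZMod.val_one]
    · intro h
      rw [h, ZMod.val_one]
  have hsgn : ∀ u : (ZMod p)ˣ, (u : ZMod p) ^ M = 1 ∨ (u : ZMod p) ^ M = -1 := by
    intro u
    have h1 : ((u : ZMod p) ^ M) ^ 2 = 1 := by
      rw [← pow_mul, mul_comm, hM]
      exact ZMod.pow_card_sub_one_eq_one u.ne_zero
    have h2 : ((u : ZMod p) ^ M - 1) * ((u : ZMod p) ^ M + 1) = 0 := by
      linear_combination h1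
    rcases mul_eq_zero.1 h2 with h3 | h3
    · exact Or.inl (sub_eq_zero.1 h3)
    · exact Or.inr (eq_neg_of_add_eq_zero_left h3)
  have hne : (-1 : ZMod p) ≠ 1 := by
    intro h
    have : Fact (2 < p) := ⟨hp2⟩
    exact ZMod.neg_one_ne_one h
  have hd := cert (c := c) (f := 2) (zmodCoding p)
    (fun u e => if (u : ZMod p) ^ M = 1 then e else e + 1) le_rfl (by
      intro u v e
      have e2 : ∀ e : Fin 2, e + 1 + 1 = e := by decide
      simp only [Units.val_mul, mul_pow]
      rcases hsgn u with hu | hu <;> rcases hsgn v with hv | hv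
      · simp [hu, hv]
      · simp [hu, hv]
      · simp [hu, hv]
      · simp [hu, hv, hne, e2]) (by intro e; simp)
    (powMonoidHom N : (ZMod p)ˣ →* (ZMod p)ˣ).ker
    (fun x => Nat.beq (x ^ N % p) 1) (fun x => (p - x) % p)
    (fun x => if Nat.beq (x ^ M % p) 1 then 0 else 1) (by
      intro u e
      have := hiff u M
      by_cases h : (u : ZMod p) ^ M = 1
      · rw [if_pos h]
        rw [← this] at h
        show e.val = (e.val + if Nat.beq ((u : ZMod p).val ^ M % p) 1 = true then 0 else 1) % 2
        rw [if_pos h]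
        omega
      · rw [if_neg h]
        rw [← this] at h
        show (e + 1).val = (e.val + if Nat.beq ((u : ZMod p).val ^ M % p) 1 = true then 0 else 1) % 2
        rw [if_neg h, Fin.val_add]
        rfl) (by
      intro u
      rw [MonoidHom.mem_ker, powMonoidHom_apply, Units.ext_iff, Units.val_pow_eq_pow_val,
        Units.val_one]
      exact hiff u N) (by
      rw [zero_pow hN.ne', Nat.zero_mod]
      rfl) base RM hf
  refine hd.equiv (Fintype.equivOfCardEq ?_)
  rw [Fintype.card_sum, Fintype.card_prod, ZMod.card, Fintype.card_fin, Fintype.card_fin,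
    Fintype.card_fin]

end C2

end Pool.Agent.H53.S3
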